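import Mathlib

/-!
Counting permutations with prescribed minima, and the harmonic sum over ranks.
-/

open Finset

namespace Pool.Agent.H80U

lemma swap_card {k : ℕ} (E : Finset (Equiv.Perm (Fin k))) (S : Finset (Fin k)) (c : Fin k)
    (hc : c ∈ S) (hE : ∀ σ ∈ E, ∀ a ∈ S, σ * Equiv.swap c a ∈ E) :
    (E.filter (fun σ => ∀ c' ∈ S, σ c ≤ σ c')).card * S.card ≤ E.card := by
  have h1 : ∀ a ∈ S, (E.filter (fun σ => ∀ c' ∈ S, σ c ≤ σ c')).card ≤
      (E.filter (fun σ => ∀ c' ∈ S, σ a ≤ σ c')).card := by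
    intro a ha
    refine Finset.card_le_card_of_injOn (fun σ => σ * Equiv.swap c a) ?_ ?_
    · intro σ hσ
      rw [Finset.mem_coe, Finset.mem_filter] at hσ ⊢
      refine ⟨hE σ hσ.1 a ha, fun c' hc' => ?_⟩
      rw [Equiv.Perm.mul_apply, Equiv.Perm.mul_apply, Equiv.swap_apply_right]
      refine hσ.2 _ ?_
      by_cases h1 : c' = c
      · subst h1; rw [Equiv.swap_apply_left]; exact ha
      by_cases h2 : c' = a
      · subst h2; rw [Equiv.swap_apply_right]; exact hc
      rw [Equiv.swap_apply_of_ne_of_ne h1 h2]; exact hc'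
    · intro σ _ τ _ h
      exact mul_right_cancel h
  have h2 : (S.biUnion fun a => E.filter (fun σ => ∀ c' ∈ S, σ a ≤ σ c')).card =
      ∑ a ∈ S, (E.filter (fun σ => ∀ c' ∈ S, σ a ≤ σ c')).card := by
    refine Finset.card_biUnion fun a ha b hb hab => ?_
    show Disjoint _ _
    rw [Finset.disjoint_left]
    intro σ h1 h2
    rw [Finset.mem_filter] at h1 h2
    exact hab (σ.injective (le_antisymm (h1.2 b hb) (h2.2 a ha)))
  have h3 : (S.biUnion fun a => E.filter (fun σ => ∀ c' ∈ S, σ a ≤ σ c')).card ≤ E.card := by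
    refine Finset.card_le_card fun σ hσ => ?_
    rw [Finset.mem_biUnion] at hσ
    obtain ⟨a, -, ha⟩ := hσ
    exact (Finset.mem_filter.1 ha).1
  calc (E.filter (fun σ => ∀ c' ∈ S, σ c ≤ σ c')).card * S.card
      = ∑ a ∈ S, (E.filter (fun σ => ∀ c' ∈ S, σ c ≤ σ c')).card := by
        rw [Finset.sum_const, smul_eq_mul, mul_comm]
    _ ≤ _ := Finset.sum_le_sum h1
    _ ≤ E.card := h2 ▸ h3

/-- the harmonic sum over ranks -/
lemma rank_sum {ι : Type*} [DecidableEq ι] (m : ι → ℝ) (S : Finset ι) :
    ∑ c ∈ S, (1 : ℝ) / ((S.filter fun c' => m c' ≤ m c).card : ℝ) ≤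
      ∑ j ∈ Finset.range S.card, (1 : ℝ) / (j + 1) := by
  induction S using Finset.induction_on_max_value m with
  | empty => simp
  | insert a s ha hmax ih =>
    rw [Finset.sum_insert ha, Finset.card_insert_of_notMem ha, Finset.sum_range_succ, add_comm]
    refine add_le_add (le_trans (Finset.sum_le_sum fun c hc => ?_) ih) ?_
    · have hpos : 0 < (s.filter fun c' => m c' ≤ m c).card :=
        Finset.card_pos.2 ⟨c, Finset.mem_filter.2 ⟨hc, le_rfl⟩⟩
      refine one_div_le_one_div_of_le (by exact_mod_cast hpos) ?_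
      exact_mod_cast Finset.card_le_card
        (Finset.filter_subset_filter _ (Finset.subset_insert a s))
    · have : ((insert a s).filter fun c' => m c' ≤ m a) = insert a s := by
        refine Finset.filter_true_of_mem fun c hc => ?_
        rcases Finset.mem_insert.1 hc with rfl | h
        · exact le_rfl
        · exact hmax c h
      rw [this, Finset.card_insert_of_notMem ha]
      push_cast
      exact le_rfl

/-- priority with distinguished root -/
def pri {k : ℕ} (r : Fin k) (σ : Equiv.Perm (Fin k)) (c : Fin k) : ℕ :=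
  if c = r then 0 else (σ c : ℕ) + 1

lemma pri_inj {k : ℕ} (r : Fin k) (σ : Equiv.Perm (Fin k)) : Function.Injective (pri r σ) := by
  intro a b h
  unfold pri at h
  by_cases ha : a = r <;> by_cases hb : b = r <;> simp [ha, hb] at h ⊢
  · have := σ.injective (Fin.ext h)
    exact this

lemma pri_root {k : ℕ} (r : Fin k) (σ : Equiv.Perm (Fin k)) (c : Fin k) :
    pri r σ r ≤ pri r σ c := by
  simp [pri]

/-- `c` is a record: it has the smallest priority among the classes at least as near -/
def rec' {k : ℕ} (r : Fin k) (m : Fin k → ℝ) (σ : Equiv.Perm (Fin k)) (c : Fin k) : Prop :=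
  ∀ c', m c' ≤ m c → pri r σ c ≤ pri r σ c'

/-- bound for the probability of being a record -/
noncomputable def qq {k : ℕ} (r : Fin k) (m : Fin k → ℝ) (c : Fin k) : ℝ :=
  if c = r then 1 else 1 / ((Finset.univ.filter fun c' => m c' ≤ m c).card : ℝ)

/-- `1 + H_k` -/
noncomputable def hh (k : ℕ) : ℝ := 1 + ∑ j ∈ Finset.range k, (1 : ℝ) / (j + 1)

lemma one_le_hh (k : ℕ) : 1 ≤ hh k := by
  unfold hh
  have : 0 ≤ ∑ j ∈ Finset.range k, (1 : ℝ) / (j + 1) :=
    Finset.sum_nonneg fun j _ => by positivity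
  linarith

lemma qq_nonneg {k : ℕ} (r : Fin k) (m : Fin k → ℝ) (c : Fin k) : 0 ≤ qq r m c := by
  unfold qq; split_ifs <;> positivity

lemma sum_qq {k : ℕ} (r : Fin k) (m : Fin k → ℝ) : ∑ c, qq r m c ≤ hh k := by
  have h1 : ∀ c, qq r m c ≤ (if c = r then 1 else 0) +
      1 / ((Finset.univ.filter fun c' => m c' ≤ m c).card : ℝ) := by
    intro c
    unfold qq
    split_ifs
    · have : (0 : ℝ) ≤ 1 / ((Finset.univ.filter fun c' => m c' ≤ m c).card : ℝ) := by positivity
      linarith
    · simp
  refine (Finset.sum_le_sum fun c _ => h1 c).trans ?_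
  rw [Finset.sum_add_distrib]
  have h2 := rank_sum m (Finset.univ : Finset (Fin k))
  simp only [Finset.card_univ, Fintype.card_fin] at h2
  unfold hh
  simp only [Finset.sum_ite_eq', Finset.mem_univ, if_true]
  linarith

open Classical in
/-- probability that `c` is a record -/
lemma rec_card {k : ℕ} (r : Fin k) (m : Fin k → ℝ) (c : Fin k) :
    ((Finset.univ.filter fun σ => rec' r m σ c).card : ℝ) ≤
      qq r m c * (Fintype.card (Equiv.Perm (Fin k)) : ℝ) := by
  unfold qq
  split_ifs with hc
  · rw [one_mul]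
    exact_mod_cast Finset.card_le_univ _
  · set S := Finset.univ.filter fun c' => m c' ≤ m c with hS
    have hcS : c ∈ S := by simp [hS]
    have hpos : (0 : ℝ) < S.card := by exact_mod_cast Finset.card_pos.2 ⟨c, hcS⟩
    have h1 := swap_card Finset.univ S c hcS (by simp)
    have h2 : (Finset.univ.filter fun σ => rec' r m σ c).card ≤
        (Finset.univ.filter (fun σ : Equiv.Perm (Fin k) => ∀ c' ∈ S, σ c ≤ σ c')).card := by
      refine Finset.card_le_card fun σ hσ => ?_
      rw [Finset.mem_filter] at hσ ⊢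
      refine ⟨Finset.mem_univ _, fun c' hc' => ?_⟩
      have h3 := hσ.2 c' (by simpa [hS] using hc')
      unfold pri at h3
      by_cases h : c' = r
      · simp [h, hc] at h3
      · simp [h, hc] at h3
        exact h3
    rw [one_div, inv_mul_eq_div, le_div_iff₀ hpos]
    rw [Finset.card_univ] at h1
    calc ((Finset.univ.filter fun σ => rec' r m σ c).card : ℝ) * S.card
        ≤ ((Finset.univ.filter (fun σ : Equiv.Perm (Fin k) => ∀ c' ∈ S, σ c ≤ σ c')).card : ℝ) *
            S.card := by gcongr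
      _ ≤ _ := by exact_mod_cast h1

open Classical in
/-- joint probability of two records -/
lemma rec_card2 {k : ℕ} (r : Fin k) (m : Fin k → ℝ) (c d : Fin k) (hcd : m c < m d) :
    ((Finset.univ.filter fun σ => rec' r m σ c ∧ rec' r m σ d).card : ℝ) ≤
      qq r m c * qq r m d * (Fintype.card (Equiv.Perm (Fin k)) : ℝ) := by
  by_cases hd : d = r
  · have h1 := rec_card r m c
    have h2 : qq r m d = 1 := by simp [qq, hd]
    rw [h2, mul_one]
    refine le_trans ?_ h1
    exact_mod_cast Finset.card_le_card fun σ hσ => by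
      rw [Finset.mem_filter] at hσ ⊢; exact ⟨hσ.1, hσ.2.1⟩
  by_cases hc : c = r
  · have h1 := rec_card r m d
    have h2 : qq r m c = 1 := by simp [qq, hc]
    rw [h2, one_mul]
    refine le_trans ?_ h1
    exact_mod_cast Finset.card_le_card fun σ hσ => by
      rw [Finset.mem_filter] at hσ ⊢; exact ⟨hσ.1, hσ.2.2⟩
  set S := Finset.univ.filter fun c' => m c' ≤ m c with hS
  have hcS : c ∈ S := by simp [hS]
  have hpos : (0 : ℝ) < S.card := by exact_mod_cast Finset.card_pos.2 ⟨c, hcS⟩
  set E : Finset (Equiv.Perm (Fin k)) := Finset.univ.filter fun σ => rec' r m σ d with hE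
  have hdS : d ∉ S := by simp [hS, hcd]
  have pne : ∀ (σ : Equiv.Perm (Fin k)) a, a ≠ r → pri r σ a = (σ a : ℕ) + 1 := by
    intro σ a ha; simp [pri, ha]
  by_cases hrS : m r ≤ m d
  · -- then `rec' d` is impossible
    have : (Finset.univ.filter fun σ => rec' r m σ c ∧ rec' r m σ d) = ∅ := by
      refine Finset.filter_eq_empty_iff.2 fun σ _ h => ?_
      have := h.2 r hrS
      rw [pne σ d hd] at this
      simp [pri] at this
    rw [this]
    simp only [Finset.card_empty, Nat.cast_zero]
    exact mul_nonneg (mul_nonneg (qq_nonneg _ _ _) (qq_nonneg _ _ _)) (by positivity)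
  have hinv : ∀ σ ∈ E, ∀ a ∈ S, σ * Equiv.swap c a ∈ E := by
    intro σ hσ a ha
    rw [hE, Finset.mem_filter] at hσ ⊢
    refine ⟨Finset.mem_univ _, fun c' hc' => ?_⟩
    have hσ' := hσ.2
    have had : a ≠ d := fun h => hdS (h ▸ ha)
    have hcd' : c ≠ d := fun h => hdS (h ▸ hcS)
    have e1 : pri r (σ * Equiv.swap c a) d = pri r σ d := by
      rw [pne _ d hd, pne _ d hd, Equiv.Perm.mul_apply,
        Equiv.swap_apply_of_ne_of_ne (Ne.symm hcd') (Ne.symm had)]
    have hr' : c' ≠ r := fun h => hrS (h ▸ hc')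
    have hma : m a ≤ m c := by simpa [hS] using ha
    have har : a ≠ r := fun h => hrS (by rw [← h]; linarith)
    have hsw : m (Equiv.swap c a c') ≤ m d := by
      by_cases h1 : c' = c
      · subst h1; rw [Equiv.swap_apply_left]; linarith
      by_cases h2 : c' = a
      · subst h2; rw [Equiv.swap_apply_right]; linarith
      rw [Equiv.swap_apply_of_ne_of_ne h1 h2]; exact hc'
    have hswr : Equiv.swap c a c' ≠ r := by
      intro h
      rw [h] at hsw
      exact hrS hsw
    have h2 := hσ' _ hsw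
    rw [e1, pne _ c' hr', Equiv.Perm.mul_apply, ← pne σ _ hswr]
    exact h2
  have h1 := swap_card E S c hcS hinv
  have h2 : (Finset.univ.filter fun σ => rec' r m σ c ∧ rec' r m σ d).card ≤
      (E.filter (fun σ : Equiv.Perm (Fin k) => ∀ c' ∈ S, σ c ≤ σ c')).card := by
    refine Finset.card_le_card fun σ hσ => ?_
    rw [Finset.mem_filter] at hσ ⊢
    refine ⟨by rw [hE, Finset.mem_filter]; exact ⟨hσ.1, hσ.2.2⟩, fun c' hc' => ?_⟩
    have h3 := hσ.2.1 c' (by simpa [hS] using hc')
    unfold pri at h3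
    by_cases h : c' = r
    · simp [h, hc] at h3
    · simp [h, hc] at h3
      exact h3
  have h3 := rec_card r m d
  have h4 : qq r m c = 1 / (S.card : ℝ) := by simp [qq, hc, hS]
  have h5 : ((Finset.univ.filter fun σ => rec' r m σ c ∧ rec' r m σ d).card : ℝ) * S.card ≤
      E.card := by
    calc _ ≤ ((E.filter (fun σ : Equiv.Perm (Fin k) => ∀ c' ∈ S, σ c ≤ σ c')).card : ℝ) *
            S.card := by gcongr
      _ ≤ _ := by exact_mod_cast h1
  rw [h4, one_div, mul_assoc, inv_mul_eq_div, le_div_iff₀ hpos]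
  exact h5.trans h3

end Pool.Agent.H80U
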