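import Pool.Agent.H80U.Tree
import Pool.Agent.H80U.Perm

/-!
Chains of classes at decreasing scales.
-/

open Finset

namespace Pool.Agent.H80U

set_option linter.unusedSectionVars false

/-- the coefficients used for the tree extension -/
noncomputable def bt (M : ℝ) (t : ℕ) : ℝ := 3 - 1 / (1 + (t : ℝ)) - M / (M + t)

section consts

variable {M : ℝ} (hM : 1 ≤ M)
include hM

lemma bt_zero : bt M 0 = 1 := by
  unfold bt
  have : M ≠ 0 := by linarith
  simp
  rw [div_self this]; norm_num

lemma bt_diff (t : ℕ) : bt M (t + 1) - bt M t =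
    1 / ((1 + (t : ℝ)) * (2 + t)) + M / ((M + t) * (M + t + 1)) := by
  unfold bt
  have h0 : (0 : ℝ) ≤ t := Nat.cast_nonneg t
  have h1 : (1 + (t : ℝ)) ≠ 0 := by positivity
  have h2 : (2 + (t : ℝ)) ≠ 0 := by positivity
  have h3 : M + (t : ℝ) ≠ 0 := by positivity
  have h4 : M + (t : ℝ) + 1 ≠ 0 := by positivity
  have h5 : (1 + ((t + 1 : ℕ) : ℝ)) ≠ 0 := by positivity
  have h6 : M + ((t + 1 : ℕ) : ℝ) ≠ 0 := by positivity
  have e1 : (1 + ((t + 1 : ℕ) : ℝ)) = 2 + t := by push_cast; ring
  have e2 : M + ((t + 1 : ℕ) : ℝ) = M + t + 1 := by push_cast; ring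
  rw [e1, e2]
  field_simp
  ring

lemma bt_lt (t : ℕ) : bt M t < bt M (t + 1) := by
  have h := bt_diff hM t
  have h0 : (0 : ℝ) ≤ t := Nat.cast_nonneg t
  have : 0 < 1 / ((1 + (t : ℝ)) * (2 + t)) + M / ((M + t) * (M + t + 1)) := by positivity
  linarith

lemma bt_le (t : ℕ) : bt M t ≤ 3 := by
  unfold bt
  have h0 : (0 : ℝ) ≤ t := Nat.cast_nonneg t
  have h1 : 0 ≤ 1 / (1 + (t : ℝ)) := by positivity
  have h2 : 0 ≤ M / (M + t) := by positivity
  linarith

lemma bt_pos (t : ℕ) : 0 < bt M t := by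
  induction t with
  | zero => rw [bt_zero hM]; norm_num
  | succ t ih => exact ih.trans (bt_lt hM t)

lemma al_le1 (t : ℕ) : al (bt M) t ≤ 36 * (t + 2) ^ 2 := by
  unfold al
  have h0 : (0 : ℝ) ≤ t := Nat.cast_nonneg t
  have hd := bt_diff hM t
  have h1 := bt_le hM t
  have h2 := bt_le hM (t + 1)
  have h3 := bt_pos hM t
  have h4 := bt_pos hM (t + 1)
  have h5 : 0 < bt M (t + 1) - bt M t := by linarith [bt_lt hM t]
  rw [div_le_iff₀ h5]
  have h6 : 1 / ((1 + (t : ℝ)) * (2 + t)) ≤ bt M (t + 1) - bt M t := by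
    rw [hd]
    have : 0 ≤ M / ((M + t) * (M + t + 1)) := by positivity
    linarith
  have h7 : 1 ≤ (t + 2 : ℝ) ^ 2 * (1 / ((1 + (t : ℝ)) * (2 + t))) := by
    rw [mul_one_div, le_div_iff₀ (by positivity)]
    nlinarith
  have h8 : 4 * bt M t * bt M (t + 1) ≤ 36 := by nlinarith
  have h9 : (t + 2 : ℝ) ^ 2 * (1 / ((1 + (t : ℝ)) * (2 + t))) ≤
      (t + 2 : ℝ) ^ 2 * (bt M (t + 1) - bt M t) := by gcongr
  nlinarith

lemma al_le2 (t : ℕ) : al (bt M) t ≤ 36 * ((M + t + 1) ^ 2 / M) := by
  unfold al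
  have h0 : (0 : ℝ) ≤ t := Nat.cast_nonneg t
  have hd := bt_diff hM t
  have h1 := bt_le hM t
  have h2 := bt_le hM (t + 1)
  have h3 := bt_pos hM t
  have h4 := bt_pos hM (t + 1)
  have h5 : 0 < bt M (t + 1) - bt M t := by linarith [bt_lt hM t]
  rw [div_le_iff₀ h5]
  have h6 : M / ((M + t) * (M + t + 1)) ≤ bt M (t + 1) - bt M t := by
    rw [hd]
    have : 0 ≤ 1 / ((1 + (t : ℝ)) * (2 + t)) := by positivity
    linarith
  have h7 : 1 ≤ ((M + t + 1) ^ 2 / M) * (M / ((M + t) * (M + t + 1))) := by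
    have e : ((M + t + 1) ^ 2 / M) * (M / ((M + t) * (M + t + 1))) = (M + t + 1) / (M + t) := by
      have : M + (t : ℝ) ≠ 0 := by positivity
      field_simp
    rw [e, le_div_iff₀ (by positivity)]
    linarith
  have h8 : 4 * bt M t * bt M (t + 1) ≤ 36 := by nlinarith
  have hp : 0 ≤ (M + t + 1) ^ 2 / M := by positivity
  have h9 : ((M + t + 1) ^ 2 / M) * (M / ((M + t) * (M + t + 1))) ≤
      ((M + t + 1) ^ 2 / M) * (bt M (t + 1) - bt M t) := by gcongr
  nlinarith

end consts

lemma le_of_sq_bound {a b d ε : ℝ} (hb : 0 ≤ b) (hd : 0 ≤ d) (hε : 0 < ε)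
    (h : a ^ 2 ≤ b ^ 2 * d ^ 2 + ε ^ 2) : a ≤ b * d + ε := by
  have h1 : a ^ 2 ≤ (b * d + ε) ^ 2 := by
    have := mul_nonneg (mul_nonneg hb hd) hε.le
    nlinarith
  exact le_of_sq_le_sq h1 (by positivity) |> fun h => h

section

variable {X : Type} [Fintype X] [DecidableEq X] [MetricSpace X]
variable {H : Type} [NormedAddCommGroup H] [InnerProductSpace ℝ H]

theorem treeLip2 {ι : Type} [Fintype ι] (A : ι → Set X) (g : ι → X → H)
    (hg : ∀ i, ∀ x ∈ A i, ∀ y ∈ A i, ‖g i x - g i y‖ = dist x y)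
    {M : ℝ} (hM : 1 ≤ M) (r : ι) (n : ℕ) (ε : ℝ) (hε : 0 < ε) :
    ∃ G : List ι → X → H, G [] = g r ∧
      (∀ l : List ι, l.length ≤ n → ∀ x ∈ A (cls r l), ∀ y ∈ A (cls r l),
        ‖G l x - G l y‖ ≤ 2 * dist x y + ε) ∧
      (∀ l : List ι, l.length + 1 ≤ n → ∀ i, ∀ y ∈ A (cls r l), ∀ u ∈ A i,
        ‖G l y - G (l ++ [i]) u‖ ≤ 5 * (l.length + 2) * dist y u + ε ∧
        ‖G l y - G (l ++ [i]) u‖ ≤ 5 * (M + l.length + 1) / √M * dist y u + ε) := by
  obtain ⟨G, h0, h1, h2⟩ := treeLip A g hg (bt M) (bt_zero hM) (bt_lt hM) r n (ε ^ 2)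
    (by positivity)
  refine ⟨G, h0, ?_, ?_⟩
  · intro l hl x hx y hy
    refine le_of_sq_bound (by norm_num) dist_nonneg hε ((h1 l hl x hx y hy).trans ?_)
    have := bt_le hM l.length
    nlinarith [sq_nonneg (dist x y)]
  · intro l hl i y hy u hu
    have h3 := h2 l hl i y hy u hu
    have hMp : 0 < M := by linarith
    have hMs : 0 < √M := Real.sqrt_pos.2 hMp
    constructor
    · refine le_of_sq_bound (by positivity) dist_nonneg hε ?_
      have := al_le1 hM l.length
      nlinarith [sq_nonneg (dist y u), mul_le_mul_of_nonneg_right this (sq_nonneg (dist y u)),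
        sq_nonneg ε, mul_nonneg (sq_nonneg ((l.length : ℝ) + 2)) (sq_nonneg (dist y u))]
    · refine le_of_sq_bound (by positivity) dist_nonneg hε ?_
      have h4 := al_le2 hM l.length
      have e : (5 * (M + l.length + 1) / √M) ^ 2 = 25 * ((M + l.length + 1) ^ 2 / M) := by
        rw [div_pow, Real.sq_sqrt hMp.le]; ring
      rw [e]
      have h5 : 0 ≤ (M + l.length + 1) ^ 2 / M := by positivity
      nlinarith [sq_nonneg (dist y u), mul_le_mul_of_nonneg_right h4 (sq_nonneg (dist y u)),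
        sq_nonneg ε, mul_nonneg h5 (sq_nonneg (dist y u))]

end

section chain

variable {X : Type} [MetricSpace X] {ι : Type} [DecidableEq ι]
variable {H : Type} [NormedAddCommGroup H] [InnerProductSpace ℝ H]

/-- the reduced chain of classes of a point down to level `j` -/
def lst (i : ℕ → X → ι) : ℕ → X → List ι
  | 0, _ => []
  | j + 1, x => if i (j + 1) x = i j x then lst i j x else lst i j x ++ [i (j + 1) x]

lemma cls_lst (i : ℕ → X → ι) (r : ι) (x : X) (h0 : i 0 x = r) (j : ℕ) :
    cls r (lst i j x) = i j x := by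
  induction j with
  | zero => simp [lst, cls, h0]
  | succ j ih =>
    unfold lst
    split_ifs with h
    · rw [ih, h]
    · exact cls_append _ _ _

lemma lst_length_le (i : ℕ → X → ι) (x : X) (j : ℕ) : (lst i j x).length ≤ j := by
  induction j with
  | zero => simp [lst]
  | succ j ih =>
    unfold lst
    split_ifs with h
    · omega
    · simp; exact ih

variable (A : ι → Set X) (i : ℕ → X → ι) (z : ℕ → X → X) (R : ℕ → ℝ) (n : ℕ) (r : ι)
  (G : List ι → X → H) (ε : ℝ)

/-- position of the chain at level `j` -/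
def PP (j : ℕ) (x : X) : H := G (lst i j x) (z j x)

/-- chain tails -/
theorem tail (hR : ∀ j, R (j + 1) = R j / 4) (hRp : ∀ j, 0 < R j)
    (hi0 : ∀ x, i 0 x = r) (hz1 : ∀ j x, z j x ∈ A (i j x)) (hz2 : ∀ j x, dist x (z j x) ≤ R j)
    (hε : 0 < ε) (K B : ℕ → ℝ) (hK : ∀ t, 2 ≤ K t) (hB : ∀ t, 0 ≤ B t)
    (hBm : ∀ t, B t ≤ B (t + 1)) (hKB : ∀ t, K t * (5 / 4) + B (t + 1) / 4 ≤ B t)
    (hG1 : ∀ l : List ι, l.length ≤ n → ∀ x ∈ A (cls r l), ∀ y ∈ A (cls r l),
        ‖G l x - G l y‖ ≤ 2 * dist x y + ε)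
    (hG2 : ∀ l : List ι, l.length + 1 ≤ n → ∀ i, ∀ y ∈ A (cls r l), ∀ u ∈ A i,
        ‖G l y - G (l ++ [i]) u‖ ≤ K l.length * dist y u + ε) (x : X) :
    ∀ m p, p + m = n → ‖PP i z G n x - PP i z G p x‖ ≤
      B (lst i p x).length * R p + m * ε := by
  intro m
  induction m with
  | zero =>
    intro p hp
    have : p = n := by omega
    subst this
    have := mul_nonneg (hB (lst i p x).length) (hRp p).le
    simpa using this
  | succ m ih =>
    intro p hp
    have h1 := ih (p + 1) (by omega)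
    set t := (lst i p x).length with ht
    have hd : dist (z p x) (z (p + 1) x) ≤ R p * (5 / 4) := by
      have e1 := hz2 p x
      have e2 := hz2 (p + 1) x
      have e3 := hR p
      have e4 := dist_triangle (z p x) x (z (p + 1) x)
      rw [dist_comm (z p x) x] at e4
      linarith
    have hstep : ‖PP i z G (p + 1) x - PP i z G p x‖ ≤ K t * (R p * (5 / 4)) + ε ∧
        B (lst i (p + 1) x).length ≤ B (t + 1) := by
      have hle : t ≤ p := lst_length_le i x p
      by_cases hc : i (p + 1) x = i p x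
      · have el : lst i (p + 1) x = lst i p x := by
          conv_lhs => unfold lst
          simp [hc]
        constructor
        · unfold PP
          rw [el]
          have hm1 : z p x ∈ A (cls r (lst i p x)) := by
            rw [cls_lst i r x (hi0 x)]; exact hz1 p x
          have hm2 : z (p + 1) x ∈ A (cls r (lst i p x)) := by
            rw [cls_lst i r x (hi0 x), ← hc]; exact hz1 (p + 1) x
          have h3 := hG1 (lst i p x) (by omega) _ hm2 _ hm1
          rw [dist_comm] at h3
          have h4 : 2 * dist (z p x) (z (p + 1) x) ≤ K t * (R p * (5 / 4)) :=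
            mul_le_mul (hK t) hd dist_nonneg (by linarith [hK t])
          linarith
        · rw [el]; exact hBm t
      · have el : lst i (p + 1) x = lst i p x ++ [i (p + 1) x] := by
          conv_lhs => unfold lst
          simp [hc]
        constructor
        · unfold PP
          rw [el, norm_sub_rev]
          have hm1 : z p x ∈ A (cls r (lst i p x)) := by
            rw [cls_lst i r x (hi0 x)]; exact hz1 p x
          have h3 := hG2 (lst i p x) (by omega) (i (p + 1) x) _ hm1 _ (hz1 (p + 1) x)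
          have h4 : K t * dist (z p x) (z (p + 1) x) ≤ K t * (R p * (5 / 4)) :=
            mul_le_mul_of_nonneg_left hd (by linarith [hK t])
          linarith
        · rw [el, List.length_append]; simp [ht]
    obtain ⟨hs1, hs2⟩ := hstep
    have h5 : ‖PP i z G n x - PP i z G p x‖ ≤ ‖PP i z G n x - PP i z G (p + 1) x‖ +
        ‖PP i z G (p + 1) x - PP i z G p x‖ := norm_sub_le_norm_sub_add_norm_sub _ _ _
    have h6 : B (lst i (p + 1) x).length * R (p + 1) ≤ B (t + 1) * (R p / 4) := by
      rw [hR p]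
      exact mul_le_mul_of_nonneg_right hs2 (by linarith [hRp p])
    have h7 := mul_le_mul_of_nonneg_right (hKB t) (hRp p).le
    push_cast
    nlinarith

open Classical in
/-- the deterministic estimate for a pair of points -/
theorem pair_det [Fintype ι] (hR : ∀ j, R (j + 1) = R j / 4) (hRp : ∀ j, 0 < R j)
    (hi0 : ∀ x, i 0 x = r) (hz1 : ∀ j x, z j x ∈ A (i j x)) (hz2 : ∀ j x, dist x (z j x) ≤ R j)
    (hε : 0 < ε) (K B : ℕ → ℝ) (hK : ∀ t, 2 ≤ K t) (hB : ∀ t, 0 ≤ B t)
    (hBm : ∀ t, B t ≤ B (t + 1)) (hKB : ∀ t, K t * (5 / 4) + B (t + 1) / 4 ≤ B t)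
    (hG1 : ∀ l : List ι, l.length ≤ n → ∀ x ∈ A (cls r l), ∀ y ∈ A (cls r l),
        ‖G l x - G l y‖ ≤ 2 * dist x y + ε)
    (hG2 : ∀ l : List ι, l.length + 1 ≤ n → ∀ i, ∀ y ∈ A (cls r l), ∀ u ∈ A i,
        ‖G l y - G (l ++ [i]) u‖ ≤ K l.length * dist y u + ε)
    (pr : ι → ℕ) (hpi : Function.Injective pr) (D : ι → X → ℝ)
    (hDl : ∀ c x y, D c y ≤ D c x + dist x y)
    (hi1 : ∀ j x, D (i j x) x ≤ R j) (hi2 : ∀ j x c, D c x ≤ R j → pr (i j x) ≤ pr c)
    (hzn : ∀ x, z n x = x) (x y : X) (m : ι → ℝ) (hm : ∀ c, m c = min (D c x) (D c y)) :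
    ‖PP i z G n x - PP i z G n y‖ ≤ 2 * dist x y + (2 * n + 1) * ε ∨
    ∃ p < n, ∃ c, (∀ c', m c' ≤ m c → pr c ≤ pr c') ∧ m c ≤ R (p + 1) ∧
      R (p + 1) < m c + dist x y ∧
      ‖PP i z G n x - PP i z G n y‖ ≤ 2 * dist x y + (2 * n + 1) * ε + R (p + 1) *
        (8 * B ((Finset.univ.filter fun c' => (∀ c'', m c'' ≤ m c' → pr c' ≤ pr c'') ∧
          m c < m c').card + 1) + 16) := by
  have hn0 : (0 : ℝ) ≤ n := Nat.cast_nonneg n
  by_cases hall : ∀ j ≤ n, lst i j x = lst i j y
  · left
    have hl := hall n le_rfl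
    unfold PP
    rw [hzn, hzn, ← hl]
    have hx : x ∈ A (cls r (lst i n x)) := by
      have := hz1 n x
      rw [hzn] at this
      rw [cls_lst i r x (hi0 x)]; exact this
    have hy : y ∈ A (cls r (lst i n x)) := by
      have := hz1 n y
      rw [hzn] at this
      rw [hl, cls_lst i r y (hi0 y)]; exact this
    have := hG1 _ (lst_length_le i x n) x hx y hy
    nlinarith
  right
  push Not at hall
  -- first separation
  have hex : ∃ j, j ≤ n ∧ lst i j x ≠ lst i j y := hall
  set j0 := Nat.find hex with hj0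
  have hj0s := Nat.find_spec hex
  rw [← hj0] at hj0s
  have hj0m : ∀ j < j0, lst i j x = lst i j y := by
    intro j hj
    by_contra hne
    exact Nat.find_min hex (hj0 ▸ hj) ⟨by omega, hne⟩
  obtain ⟨p, hp⟩ : ∃ p, j0 = p + 1 := by
    cases h : j0 with
    | zero =>
      exfalso
      rw [h] at hj0s
      exact hj0s.2 rfl
    | succ p => exact ⟨p, rfl⟩
  rw [hp] at hj0s hj0m
  have heq : ∀ j ≤ p, lst i j x = lst i j y := fun j hj => hj0m j (by omega)
  have hieq : ∀ j ≤ p, i j x = i j y := by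
    intro j hj
    rw [← cls_lst i r x (hi0 x) j, ← cls_lst i r y (hi0 y) j, heq j hj]
  have hine : i (p + 1) x ≠ i (p + 1) y := by
    intro h
    apply hj0s.2
    unfold lst
    rw [h, hieq p le_rfl, heq p le_rfl]
  have hRle : ∀ j, R (j + 1) ≤ R j := fun j => by rw [hR j]; linarith [hRp j]
  -- members of a common level are records
  have hrecj : ∀ j ≤ p, ∀ c', m c' ≤ R j → pr (i j x) ≤ pr c' := by
    intro j hj c' hc'
    rw [hm, min_le_iff] at hc'
    rcases hc' with h | h
    · exact hi2 j x c' h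
    · rw [hieq j hj]; exact hi2 j y c' h
  have hmij : ∀ j ≤ p, m (i j x) ≤ R j := by
    intro j hj
    rw [hm]
    exact (min_le_left _ _).trans (hi1 j x)
  have hlist : ∀ j ≤ p, (∀ c' ∈ lst i j x, (∀ c'', m c'' ≤ m c' → pr c' ≤ pr c'') ∧
      pr c' ≤ pr (i j x)) ∧ (lst i j x).Nodup := by
    intro j
    induction j with
    | zero => intro _; simp [lst]
    | succ j ih =>
      intro hj
      obtain ⟨ih1, ih2⟩ := ih (by omega)
      have hle : pr (i j x) ≤ pr (i (j + 1) x) :=
        hi2 j x _ ((hi1 (j + 1) x).trans (hRle j))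
      by_cases hc : i (j + 1) x = i j x
      · have el : lst i (j + 1) x = lst i j x := by
          conv_lhs => unfold lst
          simp [hc]
        rw [el, hc]
        exact ⟨ih1, ih2⟩
      · have el : lst i (j + 1) x = lst i j x ++ [i (j + 1) x] := by
          conv_lhs => unfold lst
          simp [hc]
        have hlt : pr (i j x) < pr (i (j + 1) x) :=
          lt_of_le_of_ne hle (fun h => hc (hpi h.symm))
        rw [el]
        refine ⟨fun c' hc' => ?_, ?_⟩
        · rw [List.mem_append, List.mem_singleton] at hc'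
          rcases hc' with h | h
          · exact ⟨(ih1 c' h).1, ((ih1 c' h).2.trans hle)⟩
          · subst h
            refine ⟨fun c'' hc'' => ?_, le_rfl⟩
            exact hrecj (j + 1) hj c'' (hc''.trans (hmij (j + 1) hj))
        · rw [List.nodup_append]
          refine ⟨ih2, by simp, fun a ha b hb hab => ?_⟩
          rw [List.mem_singleton] at hb
          subst hb; subst hab
          exact absurd (ih1 _ ha).2 (not_le.2 hlt)
  -- the separating class
  obtain ⟨c, hc1, hc2, hc3, hc4⟩ : ∃ c, (∀ c', m c' ≤ m c → pr c ≤ pr c') ∧ m c ≤ R (p + 1) ∧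
      R (p + 1) < m c + dist x y ∧ pr (i p x) ≤ pr c := by
    rcases lt_or_gt_of_ne (fun h => hine (hpi h) : pr (i (p + 1) x) ≠ pr (i (p + 1) y))
      with h | h
    · have h1 : R (p + 1) < D (i (p + 1) x) y := by
        by_contra hcon
        push Not at hcon
        exact absurd (hi2 (p + 1) y _ hcon) (not_le.2 h)
      have h2 := hi1 (p + 1) x
      have h3 : m (i (p + 1) x) = D (i (p + 1) x) x := by
        rw [hm]; exact min_eq_left (by linarith)
      refine ⟨i (p + 1) x, ?_, by rw [h3]; exact h2, ?_, ?_⟩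
      · intro c' hc'
        have h4 : m c' ≤ R (p + 1) := hc'.trans (h3.le.trans h2)
        rw [hm, min_le_iff] at h4
        rcases h4 with h5 | h5
        · exact hi2 (p + 1) x c' h5
        · exact h.le.trans (hi2 (p + 1) y c' h5)
      · rw [h3]
        exact h1.trans_le (hDl _ x y)
      · exact hi2 p x _ (h2.trans (hRle p))
    · have h1 : R (p + 1) < D (i (p + 1) y) x := by
        by_contra hcon
        push Not at hcon
        exact absurd (hi2 (p + 1) x _ hcon) (not_le.2 h)
      have h2 := hi1 (p + 1) y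
      have h3 : m (i (p + 1) y) = D (i (p + 1) y) y := by
        rw [hm]; exact min_eq_right (by linarith)
      refine ⟨i (p + 1) y, ?_, by rw [h3]; exact h2, ?_, ?_⟩
      · intro c' hc'
        have h4 : m c' ≤ R (p + 1) := hc'.trans (h3.le.trans h2)
        rw [hm, min_le_iff] at h4
        rcases h4 with h5 | h5
        · exact h.le.trans (hi2 (p + 1) x c' h5)
        · exact hi2 (p + 1) y c' h5
      · rw [h3]
        have := hDl (i (p + 1) y) y x
        rw [dist_comm] at this
        exact h1.trans_le this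
      · rw [hieq p le_rfl]; exact hi2 p y _ (h2.trans (hRle p))
  refine ⟨p, by omega, c, hc1, hc2, hc3, ?_⟩
  set F := Finset.univ.filter fun c' => (∀ c'', m c'' ≤ m c' → pr c' ≤ pr c'') ∧ m c < m c'
    with hF
  -- number of elements of the chain
  have hlen : (lst i p x).length ≤ F.card + 1 := by
    obtain ⟨h1, h2⟩ := hlist p le_rfl
    have h3 : (lst i p x).toFinset ⊆ insert c F := by
      intro c' hc'
      rw [List.mem_toFinset] at hc'
      obtain ⟨h4, h5⟩ := h1 c' hc'
      by_cases hcc : c' = c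
      · rw [hcc]; exact Finset.mem_insert_self _ _
      · refine Finset.mem_insert_of_mem ?_
        rw [hF, Finset.mem_filter]
        refine ⟨Finset.mem_univ _, h4, ?_⟩
        by_contra hcon
        push Not at hcon
        have h6 := hc1 c' hcon
        exact hcc (hpi (le_antisymm (h5.trans hc4) h6))
    calc (lst i p x).length = (lst i p x).toFinset.card := (List.toFinset_card_of_nodup h2).symm
      _ ≤ (insert c F).card := Finset.card_le_card h3
      _ ≤ F.card + 1 := Finset.card_insert_le _ _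
  have hBmono : Monotone B := monotone_nat_of_le_succ hBm
  have tx := tail A i z R n r G ε hR hRp hi0 hz1 hz2 hε K B hK hB hBm hKB hG1 hG2 x (n - p) p
    (by omega)
  have ty := tail A i z R n r G ε hR hRp hi0 hz1 hz2 hε K B hK hB hBm hKB hG1 hG2 y (n - p) p
    (by omega)
  rw [← heq p le_rfl] at ty
  have hmid : ‖PP i z G p x - PP i z G p y‖ ≤ 2 * (dist x y + 2 * R p) + ε := by
    unfold PP
    rw [← heq p le_rfl]
    have hx : z p x ∈ A (cls r (lst i p x)) := by
      rw [cls_lst i r x (hi0 x)]; exact hz1 p x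
    have hy : z p y ∈ A (cls r (lst i p x)) := by
      rw [heq p le_rfl, cls_lst i r y (hi0 y)]; exact hz1 p y
    have h1 := hG1 _ (by have := lst_length_le i x p; omega) _ hx _ hy
    have h2 : dist (z p x) (z p y) ≤ dist x y + 2 * R p := by
      have e1 := hz2 p x
      have e2 := hz2 p y
      have e3 := dist_triangle4 (z p x) x y (z p y)
      rw [dist_comm (z p x) x] at e3
      linarith
    linarith
  have hnp : ((n - p : ℕ) : ℝ) ≤ n := by
    have : n - p ≤ n := Nat.sub_le _ _
    exact_mod_cast this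
  have hfin : ‖PP i z G n x - PP i z G n y‖ ≤ ‖PP i z G n x - PP i z G p x‖ +
      ‖PP i z G p x - PP i z G p y‖ + ‖PP i z G n y - PP i z G p y‖ := by
    have e : PP i z G n x - PP i z G n y = (PP i z G n x - PP i z G p x) +
      (PP i z G p x - PP i z G p y) - (PP i z G n y - PP i z G p y) := by abel
    rw [e]
    exact (norm_sub_le _ _).trans (add_le_add_left (norm_add_le _ _) _)
  have hBl : B (lst i p x).length * R p ≤ B (F.card + 1) * R p :=
    mul_le_mul_of_nonneg_right (hBmono hlen) (hRp p).le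
  have hRp1 : R (p + 1) = R p / 4 := hR p
  have hne' : ((n - p : ℕ) : ℝ) * ε ≤ n * ε := mul_le_mul_of_nonneg_right hnp hε.le
  rw [hRp1]
  nlinarith

end chain

end Pool.Agent.H80U
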