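import Pool.Agent.H80U.Gauss

/-!
Hilbertian kernels and localised Gaussian features.
-/

open Finset

namespace Pool.Agent.H80U

/-- Hilbertian squared-distance functions -/
def HD {X : Type} (q : X → X → ℝ) : Prop :=
  ∃ (H : Type) (_ : NormedAddCommGroup H) (_ : InnerProductSpace ℝ H) (f : X → H),
    ∀ x y, ‖f x - f y‖ ^ 2 = q x y

section

variable {X : Type}

lemma HD.sum {J : Type} [Fintype J] (q : J → X → X → ℝ) (h : ∀ j, HD (q j)) :
    HD (fun x y => ∑ j, q j x y) := by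
  choose H i1 i2 f hf using h
  refine ⟨PiLp 2 H, inferInstance, inferInstance, fun x => WithLp.toLp 2 fun j => f j x,
    fun x y => ?_⟩
  rw [PiLp.norm_sq_eq_of_L2]
  refine Finset.sum_congr rfl fun j _ => ?_
  exact hf j x y

lemma HD.add {q₁ q₂ : X → X → ℝ} (h₁ : HD q₁) (h₂ : HD q₂) :
    HD (fun x y => q₁ x y + q₂ x y) := by
  have := HD.sum (J := Fin 2) (fun j => if j = 0 then q₁ else q₂) (fun j => by
    by_cases h : j = 0 <;> simp [h, h₁, h₂])
  simpa [Fin.sum_univ_two] using this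

lemma HD.smul {q : X → X → ℝ} (h : HD q) {w : ℝ} (hw : 0 ≤ w) :
    HD (fun x y => w * q x y) := by
  obtain ⟨H, i1, i2, f, hf⟩ := h
  refine ⟨H, i1, i2, fun x => √w • f x, fun x y => ?_⟩
  rw [← smul_sub, norm_smul, mul_pow, hf, Real.norm_of_nonneg (Real.sqrt_nonneg _),
    Real.sq_sqrt hw]

lemma HD.real (m : X → ℝ) : HD (fun x y => (m x - m y) ^ 2) :=
  ⟨ℝ, inferInstance, inferInstance, m, fun x y => by rw [Real.norm_eq_abs, sq_abs]⟩

lemma HD.gauss [Fintype X] (η : X → ℝ) {H : Type*} [NormedAddCommGroup H]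
    [InnerProductSpace ℝ H] (u : X → H) (a : ℝ) (ha : 0 < a) :
    HD (fun x y => (η x - η y) ^ 2 +
      2 * η x * η y * (1 - Real.exp (-(‖u x - u y‖ ^ 2 / a)))) := by
  obtain ⟨H', i1, i2, f, hf⟩ := gauss_feat u a ha
  refine ⟨H', i1, i2, fun x => η x • f x, fun x y => ?_⟩
  have h1 : ∀ x, ‖f x‖ ^ 2 = 1 := fun x => by
    rw [← real_inner_self_eq_norm_sq, hf]; simp
  rw [norm_sub_sq_real, norm_smul, norm_smul, mul_pow, mul_pow, h1, h1, real_inner_smul_left,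
    real_inner_smul_right, hf, Real.norm_eq_abs, Real.norm_eq_abs, sq_abs, sq_abs]
  ring

end

/-- tent functions -/
noncomputable def eta (m : ℤ) (s : ℝ) : ℝ :=
  max 0 (min (s - 2 ^ (m - 1)) (2 ^ (m + 1) - s))

lemma eta_nonneg (m : ℤ) (s : ℝ) : 0 ≤ eta m s := le_max_left _ _

lemma eta_lip (m : ℤ) (s s' : ℝ) : |eta m s - eta m s'| ≤ |s - s'| := by
  unfold eta
  rw [max_comm 0, max_comm 0]
  refine (abs_max_sub_max_le_abs _ _ _).trans ?_
  refine (abs_min_sub_min_le_max _ _ _ _).trans ?_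
  refine max_le ?_ ?_
  · rw [sub_sub_sub_cancel_right]
  · rw [sub_sub_sub_cancel_left, abs_sub_comm]

lemma two_zpow_succ (m : ℤ) : (2 : ℝ) ^ (m + 1) = 2 * 2 ^ m := by
  rw [zpow_add₀ (by norm_num)]; norm_num; ring

lemma two_zpow_pred (m : ℤ) : (2 : ℝ) ^ (m - 1) = 2 ^ m / 2 := by
  rw [zpow_sub₀ (by norm_num)]; norm_num

lemma eta_le (m : ℤ) (s : ℝ) : eta m s ≤ 3 / 4 * 2 ^ m := by
  unfold eta
  have h1 := two_zpow_succ m
  have h2 := two_zpow_pred m
  have hp : (0 : ℝ) < 2 ^ m := by positivity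
  refine max_le (by positivity) ?_
  rcases le_total s (5 / 4 * 2 ^ m) with h | h
  · exact (min_le_left _ _).trans (by linarith)
  · exact (min_le_right _ _).trans (by linarith)

lemma eta_ne {m : ℤ} {s : ℝ} (h : eta m s ≠ 0) : 2 ^ (m - 1) < s ∧ s < 2 ^ (m + 1) := by
  unfold eta at h
  have h1 : 0 < min (s - 2 ^ (m - 1)) ((2 : ℝ) ^ (m + 1) - s) := by
    by_contra hcon
    push Not at hcon
    exact h (max_eq_left hcon)
  rw [lt_min_iff] at h1
  constructor <;> linarith [h1.1, h1.2]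

lemma eta_card (Z : Finset ℤ) (s : ℝ) : (Z.filter fun m => eta m s ≠ 0).card ≤ 2 := by
  by_cases hs : 0 < s
  · obtain ⟨n, hn1, hn2⟩ := exists_mem_Ico_zpow hs (by norm_num : (1 : ℝ) < 2)
    have hsub : (Z.filter fun m => eta m s ≠ 0) ⊆ {n, n + 1} := by
      intro m hm
      rw [Finset.mem_filter] at hm
      obtain ⟨h1, h2⟩ := eta_ne hm.2
      have h3 : m - 1 < n + 1 := by
        rw [← zpow_lt_zpow_iff_right₀ (by norm_num : (1 : ℝ) < 2)]
        exact h1.trans hn2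
      have h4 : n < m + 1 := by
        rw [← zpow_lt_zpow_iff_right₀ (by norm_num : (1 : ℝ) < 2)]
        exact lt_of_le_of_lt hn1 h2
      rw [Finset.mem_insert, Finset.mem_singleton]
      omega
    exact (Finset.card_le_card hsub).trans Finset.card_le_two
  · have : (Z.filter fun m => eta m s ≠ 0) = ∅ := by
      refine Finset.filter_eq_empty_iff.2 fun m _ h => ?_
      have := (eta_ne h).1
      have h2 : (0 : ℝ) < 2 ^ (m - 1) := by positivity
      linarith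
    rw [this]; simp

/-- squared distance of the localised features at scale `2^m` -/
noncomputable def qm (m : ℤ) (s s' d : ℝ) : ℝ :=
  (eta m s - eta m s') ^ 2 + 2 * eta m s * eta m s' * (1 - Real.exp (-(d ^ 2 / (2 ^ m) ^ 2)))

lemma qm_nonneg (m : ℤ) (s s' d : ℝ) : 0 ≤ qm m s s' d := by
  unfold qm
  have h1 : Real.exp (-(d ^ 2 / (2 ^ m) ^ 2)) ≤ 1 := by
    rw [Real.exp_le_one_iff]
    have : 0 ≤ d ^ 2 / ((2 : ℝ) ^ m) ^ 2 := by positivity
    linarith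
  have h2 := eta_nonneg m s
  have h3 := eta_nonneg m s'
  have h4 : 0 ≤ 1 - Real.exp (-(d ^ 2 / (2 ^ m) ^ 2)) := by linarith
  positivity

lemma qm_le (m : ℤ) (s s' d : ℝ) : qm m s s' d ≤ (s - s') ^ 2 + 9 / 8 * d ^ 2 := by
  unfold qm
  have hp : (0 : ℝ) < 2 ^ m := by positivity
  have h1 : (eta m s - eta m s') ^ 2 ≤ (s - s') ^ 2 := by
    rw [← sq_abs, ← sq_abs (s - s')]
    exact pow_le_pow_left₀ (abs_nonneg _) (eta_lip m s s') 2
  have h2 : 1 - Real.exp (-(d ^ 2 / (2 ^ m) ^ 2)) ≤ d ^ 2 / (2 ^ m) ^ 2 := by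
    have := Real.add_one_le_exp (-(d ^ 2 / ((2 : ℝ) ^ m) ^ 2))
    linarith
  have h3 := eta_nonneg m s
  have h4 := eta_nonneg m s'
  have h5 := eta_le m s
  have h6 := eta_le m s'
  have h7 : eta m s * eta m s' ≤ (3 / 4 * 2 ^ m) * (3 / 4 * 2 ^ m) :=
    mul_le_mul h5 h6 h4 (by positivity)
  have h8 : 2 * eta m s * eta m s' * (1 - Real.exp (-(d ^ 2 / (2 ^ m) ^ 2))) ≤
      2 * ((3 / 4 * 2 ^ m) * (3 / 4 * 2 ^ m)) * (d ^ 2 / (2 ^ m) ^ 2) := by
    have h9 : 0 ≤ d ^ 2 / ((2 : ℝ) ^ m) ^ 2 := by positivity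
    have h10 : 2 * eta m s * eta m s' * (1 - Real.exp (-(d ^ 2 / (2 ^ m) ^ 2))) ≤
        2 * eta m s * eta m s' * (d ^ 2 / (2 ^ m) ^ 2) :=
      mul_le_mul_of_nonneg_left h2 (by positivity)
    have h11 : 2 * eta m s * eta m s' * (d ^ 2 / (2 ^ m) ^ 2) ≤
        2 * ((3 / 4 * 2 ^ m) * (3 / 4 * 2 ^ m)) * (d ^ 2 / (2 ^ m) ^ 2) :=
      mul_le_mul_of_nonneg_right (by linarith) h9
    exact h10.trans h11
  have h12 : 2 * ((3 / 4 * 2 ^ m) * (3 / 4 * 2 ^ m)) * (d ^ 2 / ((2 : ℝ) ^ m) ^ 2) =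
      9 / 8 * d ^ 2 := by
    field_simp
    ring
  linarith

lemma qm_zero {m : ℤ} {s s' : ℝ} (h : eta m s = 0) (h' : eta m s' = 0) (d : ℝ) :
    qm m s s' d = 0 := by
  unfold qm; rw [h, h']; ring

lemma sum_qm_le (Z : Finset ℤ) (s s' d : ℝ) :
    ∑ m ∈ Z, qm m s s' d ≤ 4 * ((s - s') ^ 2 + 9 / 8 * d ^ 2) := by
  classical
  have hsub : ∑ m ∈ Z, qm m s s' d =
      ∑ m ∈ Z.filter (fun m => eta m s ≠ 0) ∪ Z.filter (fun m => eta m s' ≠ 0), qm m s s' d := by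
    refine (Finset.sum_subset ?_ ?_).symm
    · exact Finset.union_subset (Finset.filter_subset _ _) (Finset.filter_subset _ _)
    · intro m hm hm'
      rw [Finset.mem_union, Finset.mem_filter, Finset.mem_filter, not_or] at hm'
      have h1 : eta m s = 0 := by
        by_contra h; exact hm'.1 ⟨hm, h⟩
      have h2 : eta m s' = 0 := by
        by_contra h; exact hm'.2 ⟨hm, h⟩
      exact qm_zero h1 h2 d
  rw [hsub]
  refine (Finset.sum_le_card_nsmul _ _ _ fun m _ => qm_le m s s' d).trans ?_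
  rw [nsmul_eq_mul]
  have hc : (Z.filter (fun m => eta m s ≠ 0) ∪ Z.filter (fun m => eta m s' ≠ 0)).card ≤ 4 :=
    (Finset.card_union_le _ _).trans (by
      have := eta_card Z s; have := eta_card Z s'; omega)
  have hc' : ((Z.filter (fun m => eta m s ≠ 0) ∪ Z.filter (fun m => eta m s' ≠ 0)).card : ℝ) ≤ 4 :=
    by exact_mod_cast hc
  exact mul_le_mul_of_nonneg_right hc' (by positivity)

lemma one_sub_exp {v : ℝ} (hv : 0 ≤ v) : min 1 v / 2 ≤ 1 - Real.exp (-v) := by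
  have h1 : Real.exp (-v) ≤ 1 / (1 + v) := by
    rw [Real.exp_neg, ← one_div]
    apply one_div_le_one_div_of_le (by positivity)
    linarith [Real.add_one_le_exp v]
  have h2 : min 1 v / 2 ≤ 1 - 1 / (1 + v) := by
    have h3 : 1 - 1 / (1 + v) = v / (1 + v) := by field_simp; ring
    rw [h3, div_le_div_iff₀ (by norm_num) (by positivity)]
    rcases le_total 1 v with h | h
    · rw [min_eq_left h]; linarith
    · rw [min_eq_right h]; nlinarith
  linarith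

/-- for every positive `s` there is a good scale -/
lemma exists_scale {s : ℝ} (hs : 0 < s) :
    ∃ m : ℤ, ∀ s' d : ℝ, 0 ≤ d → 1 / 64 * (min s d) ^ 2 ≤ qm m s s' d := by
  obtain ⟨m, hm1, hm2⟩ : ∃ m : ℤ, s / 4 ≤ eta m s ∧ (2 : ℝ) ^ m ≤ 2 * s := by
    obtain ⟨n, hn1, hn2⟩ := exists_mem_Ico_zpow hs (by norm_num : (1 : ℝ) < 2)
    have h1 := two_zpow_succ n
    have h2 := two_zpow_pred n
    have hp : (0 : ℝ) < 2 ^ n := by positivity
    rcases le_total s (3 / 2 * 2 ^ n) with h | h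
    · refine ⟨n, ?_, by linarith⟩
      unfold eta
      refine le_max_of_le_right (le_min ?_ ?_)
      · linarith
      · linarith
    · refine ⟨n + 1, ?_, by linarith⟩
      unfold eta
      have h3 := two_zpow_succ (n + 1)
      refine le_max_of_le_right (le_min ?_ ?_)
      · rw [add_sub_cancel_right]; linarith
      · linarith
  refine ⟨m, fun s' d hd => ?_⟩
  set κ := Real.exp (-(d ^ 2 / ((2 : ℝ) ^ m) ^ 2)) with hκ
  have hp : (0 : ℝ) < 2 ^ m := by positivity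
  have h1 : qm m s s' d = eta m s ^ 2 + eta m s' ^ 2 - 2 * eta m s * eta m s' * κ := by
    unfold qm; rw [← hκ]; ring
  have h2 : eta m s ^ 2 * (1 - κ ^ 2) ≤ qm m s s' d := by
    rw [h1]; nlinarith [sq_nonneg (eta m s' - eta m s * κ)]
  have h3 : κ ^ 2 = Real.exp (-(2 * d ^ 2 / ((2 : ℝ) ^ m) ^ 2)) := by
    rw [hκ, ← Real.exp_nat_mul]; congr 1; push_cast; ring
  have h4 : d ^ 2 / (2 * s ^ 2) ≤ 2 * d ^ 2 / ((2 : ℝ) ^ m) ^ 2 := by
    rw [div_le_div_iff₀ (by positivity) (by positivity)]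
    have : ((2 : ℝ) ^ m) ^ 2 ≤ (2 * s) ^ 2 := pow_le_pow_left₀ hp.le hm2 2
    nlinarith [sq_nonneg d]
  have h5 : min 1 (d ^ 2 / (2 * s ^ 2)) / 2 ≤ 1 - κ ^ 2 := by
    rw [h3]
    refine le_trans ?_ (one_sub_exp (by positivity : 0 ≤ 2 * d ^ 2 / ((2 : ℝ) ^ m) ^ 2))
    have := min_le_min_left (1 : ℝ) h4
    linarith
  have h6 : (s / 4) ^ 2 ≤ eta m s ^ 2 := pow_le_pow_left₀ (by positivity) hm1 2
  have h7 : 0 ≤ min 1 (d ^ 2 / (2 * s ^ 2)) / 2 := by
    have : 0 ≤ d ^ 2 / (2 * s ^ 2) := by positivity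
    have : 0 ≤ min 1 (d ^ 2 / (2 * s ^ 2)) := le_min (by norm_num) this
    positivity
  have h8 : (s / 4) ^ 2 * (min 1 (d ^ 2 / (2 * s ^ 2)) / 2) ≤ eta m s ^ 2 * (1 - κ ^ 2) :=
    mul_le_mul h6 h5 h7 (by positivity)
  refine le_trans ?_ (h8.trans h2)
  have h9 : 0 ≤ min s d := le_min hs.le hd
  rcases le_total 1 (d ^ 2 / (2 * s ^ 2)) with h | h
  · rw [min_eq_left h]
    have : (min s d) ^ 2 ≤ s ^ 2 := pow_le_pow_left₀ h9 (min_le_left _ _) 2
    nlinarith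
  · rw [min_eq_right h]
    have h10 : (min s d) ^ 2 ≤ d ^ 2 := pow_le_pow_left₀ h9 (min_le_right _ _) 2
    have h11 : (s / 4) ^ 2 * (d ^ 2 / (2 * s ^ 2) / 2) = d ^ 2 / 64 := by
      field_simp; ring
    rw [h11]; linarith

end Pool.Agent.H80U
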