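import Mathlib

/-!
Random subsets: weights `p^|I| (1-p)^(k-|I|)`, and distance-rank thresholds.
-/

open Finset

namespace Pool.Agent.H80U

/-- weight of a random subset -/
noncomputable def wt (k : ℕ) (p : ℝ) (I : Finset (Fin k)) : ℝ :=
  p ^ I.card * (1 - p) ^ (k - I.card)

lemma wt_sum (k : ℕ) (p : ℝ) : ∑ I, wt k p I = 1 := by
  have := Fintype.sum_pow_mul_eq_add_pow (Fin k) p (1 - p)
  rw [Fintype.card_fin] at this
  unfold wt
  rw [this]; simp

lemma wt_nonneg (k : ℕ) {p : ℝ} (hp0 : 0 ≤ p) (hp1 : p ≤ 1) (I : Finset (Fin k)) :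
    0 ≤ wt k p I := by
  unfold wt
  have : 0 ≤ 1 - p := by linarith
  positivity

/-- the sampling lemma -/
lemma sample {k : ℕ} (t : ℕ) (W S : Finset (Fin k)) (hSW : S ⊆ W) (hS : 2 ^ t ≤ S.card)
    (hW : W.card < 2 ^ (t + 1)) (Q : Finset (Fin k) → ℝ) (hQ : ∀ I, 0 ≤ Q I) (c : ℝ) (hc : 0 ≤ c)
    (h : ∀ J ⊆ Wᶜ, c ≤ Q J ∨ ∀ i ∈ S, c ≤ Q (insert i J)) :
    c / 8 ≤ ∑ I, wt k (1 / 2 ^ (t + 1)) I * Q I := by
  set p : ℝ := 1 / 2 ^ (t + 1) with hp
  have hp0 : 0 < p := by positivity
  have hp2 : p ≤ 1 / 2 := by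
    rw [hp]
    apply one_div_le_one_div_of_le (by norm_num)
    calc (2 : ℝ) = 2 ^ 1 := by norm_num
      _ ≤ 2 ^ (t + 1) := pow_le_pow_right₀ (by norm_num) (by omega)
  have hp1 : p ≤ 1 := by linarith
  have hq0 : 0 ≤ 1 - p := by linarith
  have hq1 : 1 - p ≤ 1 := by linarith
  have hkey : ∀ n : ℕ, n ≤ 2 ^ (t + 1) → 1 / 4 ≤ (1 - p) ^ n := by
    intro n hn
    have h1 : (1 : ℝ) / 2 ≤ (1 - p) ^ (2 ^ t) := by
      have h2 := one_add_mul_le_pow (a := -p) (by linarith) (2 ^ t)
      have h3 : (1 : ℝ) + ((2 ^ t : ℕ) : ℝ) * (-p) = 1 / 2 := by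
        rw [hp]; push_cast; rw [pow_succ]; field_simp; norm_num
      rw [h3] at h2
      simpa [sub_eq_add_neg] using h2
    have h4 : (1 - p) ^ (2 ^ (t + 1)) = (1 - p) ^ (2 ^ t) * (1 - p) ^ (2 ^ t) := by
      rw [← pow_add]; congr 1; rw [pow_succ]; ring
    have h5 : (1 - p) ^ (2 ^ (t + 1)) ≤ (1 - p) ^ n := pow_le_pow_of_le_one hq0 hq1 hn
    nlinarith
  set V := Wᶜ with hV
  have hcard : W.card + V.card = k := by
    rw [hV, Finset.card_compl, Fintype.card_fin]
    have := Finset.card_le_univ W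
    rw [Fintype.card_fin] at this
    omega
  have hSpos : 0 < S.card := lt_of_lt_of_le (by positivity) hS
  have hWS : S.card ≤ W.card := Finset.card_le_card hSW
  -- the block of `J`
  let T : Finset (Fin k) → Finset (Finset (Fin k)) := fun J =>
    insert J (S.image fun i => insert i J)
  have hTV : ∀ J ∈ V.powerset, ∀ I ∈ T J, I ∩ V = J := by
    intro J hJ I hI
    rw [Finset.mem_powerset] at hJ
    rw [Finset.mem_insert, Finset.mem_image] at hI
    rcases hI with rfl | ⟨i, hi, rfl⟩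
    · exact Finset.inter_eq_left.2 hJ
    · have hiV : i ∉ V := by
        rw [hV, Finset.mem_compl, not_not]; exact hSW hi
      rw [Finset.insert_inter_of_notMem hiV, Finset.inter_eq_left.2 hJ]
  have hdisj : (V.powerset : Set (Finset (Fin k))).PairwiseDisjoint T := by
    intro J hJ J' hJ' hne
    show Disjoint _ _
    rw [Finset.disjoint_left]
    intro I h1 h2
    exact hne ((hTV J hJ I h1).symm.trans (hTV J' hJ' I h2))
  have hle : ∑ J ∈ V.powerset, ∑ I ∈ T J, wt k p I * Q I ≤ ∑ I, wt k p I * Q I := by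
    rw [← Finset.sum_biUnion hdisj]
    exact Finset.sum_le_sum_of_subset_of_nonneg (Finset.subset_univ _)
      (fun I _ _ => mul_nonneg (wt_nonneg k hp0.le hp1 I) (hQ I))
  refine le_trans ?_ hle
  have hV1 := Finset.sum_pow_mul_eq_add_pow p (1 - p) V
  have hV2 : ∑ J ∈ V.powerset, p ^ J.card * (1 - p) ^ (V.card - J.card) = 1 := by
    rw [hV1]; simp
  have hblock : ∀ J ∈ V.powerset, c / 8 * (p ^ J.card * (1 - p) ^ (V.card - J.card)) ≤
      ∑ I ∈ T J, wt k p I * Q I := by
    intro J hJ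
    have hJV : J ⊆ V := Finset.mem_powerset.1 hJ
    have hJc : J.card ≤ V.card := Finset.card_le_card hJV
    set w' := p ^ J.card * (1 - p) ^ (V.card - J.card) with hw'
    have hw'0 : 0 ≤ w' := by positivity
    rcases h J hJV with h1 | h1
    · have h2 : wt k p J * Q J ≤ ∑ I ∈ T J, wt k p I * Q I :=
        Finset.single_le_sum (f := fun I => wt k p I * Q I)
          (fun I _ => mul_nonneg (wt_nonneg k hp0.le hp1 I) (hQ I))
          (Finset.mem_insert_self _ _)
      have h3 : wt k p J = w' * (1 - p) ^ W.card := by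
        unfold wt
        rw [hw', mul_assoc, ← pow_add]
        congr 2
        omega
      have h4 := hkey W.card hW.le
      rw [h3] at h2
      refine le_trans ?_ h2
      have h5 : w' * (1 / 4) ≤ w' * (1 - p) ^ W.card := mul_le_mul_of_nonneg_left h4 hw'0
      have h6 : w' * (1 / 4) * c ≤ w' * (1 - p) ^ W.card * Q J :=
        mul_le_mul h5 h1 hc (by positivity)
      nlinarith [mul_nonneg hw'0 hc]
    · have hnotin : ∀ i ∈ S, i ∉ J := by
        intro i hi hiJ
        have := hJV hiJ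
        rw [hV, Finset.mem_compl] at this
        exact this (hSW hi)
      have hinj : Set.InjOn (fun i => insert i J) (S : Set (Fin k)) := by
        intro i hi j hj hij
        have h2 : i ∈ insert j J := by
          have : i ∈ insert i J := Finset.mem_insert_self _ _
          have hij' : insert i J = insert j J := hij
          rwa [hij'] at this
        rcases Finset.mem_insert.1 h2 with h3 | h3
        · exact h3
        · exact absurd h3 (hnotin i hi)
      have h2 : ∑ i ∈ S, wt k p (insert i J) * Q (insert i J) ≤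
          ∑ I ∈ T J, wt k p I * Q I := by
        rw [← Finset.sum_image (f := fun I => wt k p I * Q I) hinj]
        exact Finset.sum_le_sum_of_subset_of_nonneg (Finset.subset_insert _ _)
          (fun I _ _ => mul_nonneg (wt_nonneg k hp0.le hp1 I) (hQ I))
      refine le_trans ?_ h2
      have h3 : ∀ i ∈ S, w' * (p * (1 / 4)) * c ≤ wt k p (insert i J) * Q (insert i J) := by
        intro i hi
        have h4 : wt k p (insert i J) = w' * (p * (1 - p) ^ (W.card - 1)) := by
          unfold wt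
          rw [Finset.card_insert_of_notMem (hnotin i hi), hw', pow_succ]
          have : k - (J.card + 1) = (V.card - J.card) + (W.card - 1) := by omega
          rw [this, pow_add]
          ring
        rw [h4]
        have h5 := hkey (W.card - 1) (by omega)
        refine mul_le_mul ?_ (h1 i hi) hc (by positivity)
        apply mul_le_mul_of_nonneg_left _ hw'0
        exact mul_le_mul_of_nonneg_left h5 hp0.le
      refine le_trans ?_ (Finset.card_nsmul_le_sum S _ _ h3)
      rw [nsmul_eq_mul]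
      have h6 : (1 : ℝ) / 2 ≤ S.card * p := by
        have h7 : ((2 : ℝ) ^ t) ≤ S.card := by exact_mod_cast hS
        have h8 : (2 : ℝ) ^ t * p = 1 / 2 := by rw [hp, pow_succ]; field_simp
        nlinarith
      have h9 : 0 ≤ w' * c := mul_nonneg hw'0 hc
      nlinarith [mul_le_mul_of_nonneg_right h6 h9]
  calc c / 8 = c / 8 * ∑ J ∈ V.powerset, p ^ J.card * (1 - p) ^ (V.card - J.card) := by
        rw [hV2, mul_one]
    _ = ∑ J ∈ V.powerset, c / 8 * (p ^ J.card * (1 - p) ^ (V.card - J.card)) := by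
        rw [Finset.mul_sum]
    _ ≤ _ := Finset.sum_le_sum hblock

/-- rank thresholds -/
noncomputable def tau {k : ℕ} (d : Fin k → ℝ) (e : ℝ) (t : ℕ) : ℝ :=
  (Finset.univ.filter fun i => 2 ^ t ≤ (Finset.univ.filter fun j => d j ≤ d i).card).fold min e d

section tau

variable {k : ℕ} (d : Fin k → ℝ) (e : ℝ)

lemma tau_le (t : ℕ) : tau d e t ≤ e := by
  unfold tau; rw [Finset.fold_min_le]; exact Or.inl le_rfl

lemma tau_nonneg (hd : ∀ i, 0 ≤ d i) (he : 0 ≤ e) (t : ℕ) : 0 ≤ tau d e t := by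
  unfold tau; rw [Finset.le_fold_min]; exact ⟨he, fun i _ => hd i⟩

lemma tau_mono (t : ℕ) : tau d e t ≤ tau d e (t + 1) := by
  unfold tau
  rw [Finset.le_fold_min]
  refine ⟨by rw [Finset.fold_min_le]; exact Or.inl le_rfl, fun i hi => ?_⟩
  rw [Finset.fold_min_le]
  right
  rw [Finset.mem_filter] at hi
  refine ⟨i, ?_, le_rfl⟩
  rw [Finset.mem_filter]
  refine ⟨hi.1, le_trans ?_ hi.2⟩
  exact Nat.pow_le_pow_right (by norm_num) (by omega)

lemma tau_card (t : ℕ) (ht : tau d e t < e) :
    2 ^ t ≤ (Finset.univ.filter fun i => d i ≤ tau d e t).card := by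
  have h1 : tau d e t ≤ tau d e t := le_rfl
  conv_lhs at h1 => unfold tau
  rw [Finset.fold_min_le] at h1
  rcases h1 with h1 | ⟨i, hi, hle⟩
  · exact absurd h1 (not_le.2 ht)
  · rw [Finset.mem_filter] at hi
    refine hi.2.trans (Finset.card_le_card fun j hj => ?_)
    rw [Finset.mem_filter] at hj ⊢
    exact ⟨hj.1, hj.2.trans hle⟩

lemma tau_card_lt (t : ℕ) :
    (Finset.univ.filter fun i => d i < tau d e t).card < 2 ^ t := by
  by_contra hcon
  push Not at hcon
  set W := Finset.univ.filter fun i => d i < tau d e t with hW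
  have hne : W.Nonempty := Finset.card_pos.1 (lt_of_lt_of_le (by positivity) hcon)
  obtain ⟨i, hi, hmax⟩ := Finset.exists_max_image W d hne
  have h1 : tau d e t ≤ d i := by
    unfold tau
    rw [Finset.fold_min_le]
    right
    refine ⟨i, ?_, le_rfl⟩
    rw [Finset.mem_filter]
    refine ⟨Finset.mem_univ _, hcon.trans (Finset.card_le_card fun j hj => ?_)⟩
    rw [Finset.mem_filter]
    exact ⟨Finset.mem_univ _, hmax j hj⟩
  rw [hW, Finset.mem_filter] at hi
  linarith [hi.2]

lemma tau_zero (hd : ∀ i, 0 ≤ d i) (he : 0 ≤ e) {i : Fin k} (hi : d i = 0) :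
    tau d e 0 = 0 := by
  refine le_antisymm ?_ (tau_nonneg d e hd he 0)
  unfold tau
  rw [Finset.fold_min_le]
  right
  refine ⟨i, ?_, hi.le⟩
  rw [Finset.mem_filter]
  refine ⟨Finset.mem_univ _, ?_⟩
  rw [pow_zero]
  exact Finset.card_pos.2 ⟨i, by simp⟩

lemma tau_top (t : ℕ) (ht : k < 2 ^ t) : tau d e t = e := by
  unfold tau
  rw [Finset.filter_eq_empty_iff.2]
  · rfl
  · intro i _ h
    have h2 := Finset.card_le_univ (Finset.univ.filter fun j => d j ≤ d i)
    rw [Fintype.card_fin] at h2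
    omega

end tau

/-- Cauchy-Schwarz with truncation -/
lemma sum_min_sq (T : ℕ) (a : ℕ → ℝ) (ha : ∀ t, 0 ≤ a t) (s b : ℝ) (hb : 0 ≤ b)
    (hs : ∑ t ∈ Finset.range (T + 1), a t = s) (hs0 : 0 ≤ s) :
    min (s ^ 2 / (T + 1)) (b ^ 2) ≤ ∑ t ∈ Finset.range (T + 1), (min (a t) b) ^ 2 := by
  by_cases h : ∃ t ∈ Finset.range (T + 1), b ≤ a t
  · obtain ⟨t, ht, hbt⟩ := h
    refine (min_le_right _ _).trans ?_
    have h1 := Finset.single_le_sum (f := fun t => (min (a t) b) ^ 2)
      (fun t _ => sq_nonneg _) ht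
    simp only [min_eq_right hbt] at h1
    exact h1
  · push Not at h
    refine (min_le_left _ _).trans ?_
    have h1 : ∑ t ∈ Finset.range (T + 1), (min (a t) b) ^ 2 =
        ∑ t ∈ Finset.range (T + 1), (a t) ^ 2 :=
      Finset.sum_congr rfl fun t ht => by rw [min_eq_left (h t ht).le]
    rw [h1]
    have h2 := sq_sum_le_card_mul_sum_sq (s := Finset.range (T + 1)) (f := a)
    rw [hs, Finset.card_range] at h2
    rw [div_le_iff₀ (by positivity)]
    push_cast at h2
    linarith

end Pool.Agent.H80U
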