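import Pool.Agent.H80U.Extend
import Pool.Agent.H80U.Feat
import Pool.Agent.H80U.Sample

/-!
The embedding of finite unions of Euclidean pieces.
-/

open Finset

namespace Pool.Agent.H80U

set_option linter.unusedSectionVars false
set_option linter.unusedVariables false

section

variable {X : Type} [Fintype X] [MetricSpace X] {k : ℕ} (A : Fin k → Set X)

/-- truncated distance to the union of the classes in `J` -/
noncomputable def md (B : ℝ) (J : Finset (Fin k)) (x : X) : ℝ :=
  J.fold min B (fun j => Metric.infDist x (A j))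

lemma md_sub_le (B : ℝ) (J : Finset (Fin k)) (x y : X) : md A B J x - dist x y ≤ md A B J y := by
  have h1 : md A B J x ≤ md A B J x := le_rfl
  conv_rhs at h1 => unfold md
  rw [Finset.le_fold_min] at h1
  unfold md
  rw [Finset.le_fold_min]
  have hd := dist_nonneg (x := x) (y := y)
  refine ⟨by have := h1.1; unfold md at this; linarith, fun j hj => ?_⟩
  have h2 := h1.2 j hj
  have h3 := Metric.infDist_le_infDist_add_dist (s := A j) (x := x) (y := y)
  unfold md at h2
  linarith

lemma md_lip (B : ℝ) (J : Finset (Fin k)) (x y : X) : |md A B J x - md A B J y| ≤ dist x y := by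
  rw [abs_le]
  have h1 := md_sub_le A B J x y
  have h2 := md_sub_le A B J y x
  rw [dist_comm] at h2
  constructor <;> linarith

lemma md_le {B : ℝ} {J : Finset (Fin k)} {j : Fin k} (hj : j ∈ J) (x : X) :
    md A B J x ≤ Metric.infDist x (A j) := by
  unfold md; rw [Finset.fold_min_le]; exact Or.inr ⟨j, hj, le_rfl⟩

lemma le_md {B c : ℝ} {J : Finset (Fin k)} {x : X} (hB : c ≤ B)
    (h : ∀ j ∈ J, c ≤ Metric.infDist x (A j)) : c ≤ md A B J x := by
  unfold md; rw [Finset.le_fold_min]; exact ⟨hB, h⟩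

/-- the local scale of the class `i` inside the sample `I` -/
noncomputable def psi (B : ℝ) (I : Finset (Fin k)) (i : Fin k) (x : X) : ℝ :=
  if i ∈ I then max 0 (md A B (I.erase i) x - Metric.infDist x (A i)) else 0

lemma psi_lip (B : ℝ) (I : Finset (Fin k)) (i : Fin k) (x y : X) :
    |psi A B I i x - psi A B I i y| ≤ 2 * dist x y := by
  unfold psi
  have hd := dist_nonneg (x := x) (y := y)
  split_ifs with h
  · rw [max_comm 0, max_comm 0]
    refine (abs_max_sub_max_le_abs _ _ _).trans ?_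
    have h1 := md_lip A B (I.erase i) x y
    have h2 := Metric.infDist_le_infDist_add_dist (s := A i) (x := x) (y := y)
    have h3 := Metric.infDist_le_infDist_add_dist (s := A i) (x := y) (y := x)
    rw [dist_comm y x] at h3
    rw [abs_le] at h1 ⊢
    constructor <;> linarith [h1.1, h1.2]
  · simp

lemma psi_card (B : ℝ) (I : Finset (Fin k)) (x : X) :
    (Finset.univ.filter fun i => psi A B I i x ≠ 0).card ≤ 1 := by
  rw [Finset.card_le_one]
  have key : ∀ i, psi A B I i x ≠ 0 → i ∈ I ∧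
      ∀ j ∈ I, j ≠ i → Metric.infDist x (A i) < Metric.infDist x (A j) := by
    intro i hi
    unfold psi at hi
    by_cases hI : i ∈ I
    · rw [if_pos hI] at hi
      refine ⟨hI, fun j hj hji => ?_⟩
      have h1 : 0 < md A B (I.erase i) x - Metric.infDist x (A i) := by
        by_contra hcon
        push Not at hcon
        exact hi (max_eq_left hcon)
      have h2 := md_le A (B := B) (Finset.mem_erase.2 ⟨hji, hj⟩) x
      linarith
    · rw [if_neg hI] at hi; exact absurd rfl hi
  intro a ha b hb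
  rw [Finset.mem_filter] at ha hb
  by_contra hab
  have h1 := (key a ha.2).2 b (key b hb.2).1 (Ne.symm hab)
  have h2 := (key b hb.2).2 a (key a ha.2).1 hab
  linarith

lemma eta_zero (m : ℤ) : eta m 0 = 0 := by
  by_contra h
  have := (eta_ne h).1
  have h2 : (0 : ℝ) < 2 ^ (m - 1) := by positivity
  linarith

variable {H : Type} [NormedAddCommGroup H] [InnerProductSpace ℝ H]

/-- squared distance of the coordinates attached to the sample `I` -/
noncomputable def QQ (B L : ℝ) (Z : Finset ℤ) (F : Fin k → X → H) (I : Finset (Fin k))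
    (x y : X) : ℝ :=
  (md A B I x - md A B I y) ^ 2 +
    ∑ i, ∑ m ∈ Z, qm m (psi A B I i x) (psi A B I i y) (‖F i x - F i y‖ / L)

lemma QQ_nonneg (B L : ℝ) (Z : Finset ℤ) (F : Fin k → X → H) (I : Finset (Fin k)) (x y : X) :
    0 ≤ QQ A B L Z F I x y := by
  unfold QQ
  refine add_nonneg (sq_nonneg _) (Finset.sum_nonneg fun i _ => Finset.sum_nonneg fun m _ =>
    qm_nonneg _ _ _ _)

lemma QQ_le (B L : ℝ) (hL : 0 < L) (Z : Finset ℤ) (F : Fin k → X → H)
    (hF : ∀ i x y, ‖F i x - F i y‖ ≤ L * dist x y) (I : Finset (Fin k)) (x y : X) :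
    QQ A B L Z F I x y ≤ 42 * dist x y ^ 2 := by
  classical
  unfold QQ
  have h1 : (md A B I x - md A B I y) ^ 2 ≤ dist x y ^ 2 := by
    rw [← sq_abs]
    exact pow_le_pow_left₀ (abs_nonneg _) (md_lip A B I x y) 2
  have h2 : ∀ i, ∑ m ∈ Z, qm m (psi A B I i x) (psi A B I i y) (‖F i x - F i y‖ / L) ≤
      41 / 2 * dist x y ^ 2 := by
    intro i
    refine (sum_qm_le Z _ _ _).trans ?_
    have h3 : (psi A B I i x - psi A B I i y) ^ 2 ≤ (2 * dist x y) ^ 2 := by
      rw [← sq_abs]
      exact pow_le_pow_left₀ (abs_nonneg _) (psi_lip A B I i x y) 2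
    have h4 : (‖F i x - F i y‖ / L) ^ 2 ≤ dist x y ^ 2 := by
      refine pow_le_pow_left₀ (by positivity) ?_ 2
      rw [div_le_iff₀ hL]; linarith [hF i x y, mul_comm L (dist x y)]
    linarith
  set Sx := Finset.univ.filter fun i => psi A B I i x ≠ 0 with hSx
  set Sy := Finset.univ.filter fun i => psi A B I i y ≠ 0 with hSy
  have h5 : ∑ i, ∑ m ∈ Z, qm m (psi A B I i x) (psi A B I i y) (‖F i x - F i y‖ / L) =
      ∑ i ∈ Sx ∪ Sy, ∑ m ∈ Z, qm m (psi A B I i x) (psi A B I i y) (‖F i x - F i y‖ / L) := by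
    refine (Finset.sum_subset (Finset.subset_univ _) ?_).symm
    intro i _ hi
    rw [Finset.mem_union, hSx, hSy, Finset.mem_filter, Finset.mem_filter, not_or] at hi
    have e1 : psi A B I i x = 0 := by
      by_contra h; exact hi.1 ⟨Finset.mem_univ _, h⟩
    have e2 : psi A B I i y = 0 := by
      by_contra h; exact hi.2 ⟨Finset.mem_univ _, h⟩
    refine Finset.sum_eq_zero fun m _ => ?_
    rw [e1, e2]
    exact qm_zero (eta_zero m) (eta_zero m) _
  rw [h5]
  have h6 := Finset.sum_le_card_nsmul (Sx ∪ Sy) (fun i => ∑ m ∈ Z,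
    qm m (psi A B I i x) (psi A B I i y) (‖F i x - F i y‖ / L)) _ (fun i _ => h2 i)
  rw [nsmul_eq_mul] at h6
  have hcx : Sx.card ≤ 1 := psi_card A B I x
  have hcy : Sy.card ≤ 1 := psi_card A B I y
  have h7 : (Sx ∪ Sy).card ≤ 2 := (Finset.card_union_le _ _).trans (by omega)
  have h8 : ((Sx ∪ Sy).card : ℝ) ≤ 2 := by exact_mod_cast h7
  have h9 : ((Sx ∪ Sy).card : ℝ) * (41 / 2 * dist x y ^ 2) ≤ 2 * (41 / 2 * dist x y ^ 2) :=
    mul_le_mul_of_nonneg_right h8 (by positivity)
  linarith

lemma QQ_HD (B L : ℝ) (hL : 0 < L) (Z : Finset ℤ) (F : Fin k → X → H) (I : Finset (Fin k)) :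
    HD (fun x y => QQ A B L Z F I x y) := by
  unfold QQ
  refine HD.add (HD.real (md A B I)) (HD.sum _ fun i => ?_)
  have h1 : (fun x y => ∑ m ∈ Z, qm m (psi A B I i x) (psi A B I i y) (‖F i x - F i y‖ / L)) =
      fun x y => ∑ m : Z, qm m (psi A B I i x) (psi A B I i y) (‖F i x - F i y‖ / L) := by
    funext x y
    rw [Finset.sum_coe_sort Z (fun m => qm m (psi A B I i x) (psi A B I i y)
      (‖F i x - F i y‖ / L))]
  rw [h1]
  refine HD.sum _ fun m => ?_
  have h2 := HD.gauss (fun x => eta m (psi A B I i x)) (fun x => L⁻¹ • F i x)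
    (((2 : ℝ) ^ (m : ℤ)) ^ 2) (by positivity)
  convert h2 using 1
  funext x y
  unfold qm
  rw [← smul_sub, norm_smul, Real.norm_of_nonneg (by positivity)]
  congr 5
  ring

/-- the local lower bound -/
lemma QQ_dichotomy (B L : ℝ) (hL : 0 < L) (Z : Finset ℤ) (F : Fin k → X → H) (x y : X)
    (hZ : ∀ I i, 0 < psi A B I i x → ∃ m ∈ Z, ∀ s' d : ℝ, 0 ≤ d →
      1 / 64 * (min (psi A B I i x) d) ^ 2 ≤ qm m (psi A B I i x) s' d)
    (e a b v : ℝ) (hab : a < b) (hbe : b ≤ e) (heB : e ≤ B) (hv : 0 ≤ v)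
    (hlow : ∀ i, Metric.infDist x (A i) ≤ e → Metric.infDist y (A i) ≤ e →
      v * L ≤ ‖F i x - F i y‖)
    (J : Finset (Fin k)) (hJ : J ⊆ (Finset.univ.filter fun i => Metric.infDist x (A i) < b)ᶜ) :
    1 / 64 * (min (b - a) v) ^ 2 ≤ QQ A B L Z F J x y ∨
      ∀ i ∈ Finset.univ.filter (fun i => Metric.infDist x (A i) ≤ a),
        1 / 64 * (min (b - a) v) ^ 2 ≤ QQ A B L Z F (insert i J) x y := by
  classical
  have hmin0 : 0 ≤ min (b - a) v := le_min (by linarith) hv
  have hminsq : (min (b - a) v) ^ 2 ≤ (b - a) ^ 2 :=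
    pow_le_pow_left₀ hmin0 (min_le_left _ _) 2
  have hdist : ∀ (I : Finset (Fin k)), (b - a) / 2 ≤ |md A B I x - md A B I y| →
      1 / 64 * (min (b - a) v) ^ 2 ≤ QQ A B L Z F I x y := by
    intro I hI
    have h1 : ((b - a) / 2) ^ 2 ≤ (md A B I x - md A B I y) ^ 2 := by
      rw [← sq_abs (md A B I x - md A B I y)]
      exact pow_le_pow_left₀ (by linarith) hI 2
    have h2 : 0 ≤ ∑ i, ∑ m ∈ Z, qm m (psi A B I i x) (psi A B I i y) (‖F i x - F i y‖ / L) :=
      Finset.sum_nonneg fun i _ => Finset.sum_nonneg fun m _ => qm_nonneg _ _ _ _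
    unfold QQ
    nlinarith
  have hJb : ∀ j ∈ J, b ≤ Metric.infDist x (A j) := by
    intro j hj
    have := hJ hj
    rw [Finset.mem_compl, Finset.mem_filter] at this
    by_contra hcon
    push Not at hcon
    exact this ⟨Finset.mem_univ _, hcon⟩
  have hmdx : b ≤ md A B J x := le_md A (hbe.trans heB) hJb
  by_cases hy : md A B J y ≤ (a + b) / 2
  · left
    apply hdist
    rw [le_abs]
    left; linarith
  · right
    push Not at hy
    intro i hi
    rw [Finset.mem_filter] at hi
    have hia := hi.2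
    have hiJ : i ∉ J := fun h => by have := hJb i h; linarith
    have hmx : md A B (insert i J) x ≤ a := (md_le A (Finset.mem_insert_self i J) x).trans hia
    by_cases hiy : (a + b) / 2 ≤ Metric.infDist y (A i)
    · apply hdist
      rw [le_abs]
      right
      have h1 : (a + b) / 2 ≤ md A B (insert i J) y := by
        have h2 : md A B J y ≤ md A B J y := le_rfl
        conv_rhs at h2 => unfold md
        rw [Finset.le_fold_min] at h2
        refine le_md A (by linarith) fun j hj => ?_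
        rcases Finset.mem_insert.1 hj with rfl | hj
        · exact hiy
        · exact hy.le.trans (h2.2 j hj)
      linarith
    · push Not at hiy
      have hF := hlow i (by linarith) (by linarith)
      have hpsi : b - a ≤ psi A B (insert i J) i x := by
        unfold psi
        rw [if_pos (Finset.mem_insert_self i J), Finset.erase_insert hiJ]
        refine le_max_of_le_right ?_
        linarith
      obtain ⟨m, hm, hm2⟩ := hZ (insert i J) i (by linarith)
      have hd0 : 0 ≤ ‖F i x - F i y‖ / L := by positivity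
      have h1 := hm2 (psi A B (insert i J) i y) (‖F i x - F i y‖ / L) hd0
      have h2 : v ≤ ‖F i x - F i y‖ / L := by rwa [le_div_iff₀ hL]
      have h3 : (min (b - a) v) ^ 2 ≤
          (min (psi A B (insert i J) i x) (‖F i x - F i y‖ / L)) ^ 2 :=
        pow_le_pow_left₀ hmin0 (min_le_min hpsi h2) 2
      have h4 : qm m (psi A B (insert i J) i x) (psi A B (insert i J) i y)
          (‖F i x - F i y‖ / L) ≤ ∑ m ∈ Z, qm m (psi A B (insert i J) i x)
            (psi A B (insert i J) i y) (‖F i x - F i y‖ / L) :=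
        Finset.single_le_sum (f := fun m => qm m (psi A B (insert i J) i x)
            (psi A B (insert i J) i y) (‖F i x - F i y‖ / L)) (fun m _ => qm_nonneg _ _ _ _) hm
      have h5 : ∑ m ∈ Z, qm m (psi A B (insert i J) i x)
            (psi A B (insert i J) i y) (‖F i x - F i y‖ / L) ≤
          ∑ i', ∑ m ∈ Z, qm m (psi A B (insert i J) i' x)
            (psi A B (insert i J) i' y) (‖F i' x - F i' y‖ / L) :=
        Finset.single_le_sum (f := fun i' => ∑ m ∈ Z, qm m (psi A B (insert i J) i' x)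
            (psi A B (insert i J) i' y) (‖F i' x - F i' y‖ / L))
          (fun i' _ => Finset.sum_nonneg fun m _ => qm_nonneg _ _ _ _) (Finset.mem_univ i)
      unfold QQ
      have h6 := sq_nonneg (md A B (insert i J) x - md A B (insert i J) y)
      linarith

end

lemma hh_le (k : ℕ) (hk : 1 ≤ k) : hh k ≤ 2 * (1 + Real.log k) := by
  have h1 := harmonic_le_one_add_log k
  have h2 : ((harmonic k : ℚ) : ℝ) = ∑ j ∈ Finset.range k, (1 : ℝ) / (j + 1) := by
    unfold harmonic
    push_cast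
    refine Finset.sum_congr rfl fun j _ => ?_
    rw [one_div]
  rw [h2] at h1
  have h3 : 0 ≤ Real.log k := Real.log_nonneg (by exact_mod_cast hk)
  unfold hh
  linarith

lemma log2_le (k : ℕ) (hk : 1 ≤ k) : ((Nat.log 2 k : ℕ) : ℝ) + 1 ≤ 3 / 2 * (1 + Real.log k) := by
  have h1 : 2 ^ Nat.log 2 k ≤ k := Nat.pow_log_le_self 2 (by omega)
  have h2 : (Nat.log 2 k : ℝ) * Real.log 2 ≤ Real.log k := by
    rw [← Real.log_pow]
    apply Real.log_le_log (by positivity)
    exact_mod_cast h1
  have h3 := Real.log_two_gt_d9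
  have h4 : (0 : ℝ) ≤ Nat.log 2 k := Nat.cast_nonneg _
  nlinarith

/-- Finite unions of `k` Euclidean pieces embed into Hilbert space with distortion
`O(log² k)` -/
theorem finite_embed {X : Type} [Fintype X] [MetricSpace X] {k : ℕ} (A : Fin k → Set X)
    (hne : ∀ i, (A i).Nonempty) (hcov : ∀ x, ∃ i, x ∈ A i)
    {H : Type} [NormedAddCommGroup H] [InnerProductSpace ℝ H] (g : Fin k → X → H)
    (hg : ∀ i, ∀ x ∈ A i, ∀ y ∈ A i, ‖g i x - g i y‖ = dist x y) :
    ∃ (H' : Type) (_ : NormedAddCommGroup H') (_ : InnerProductSpace ℝ H') (f : X → H'),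
      ∀ x y, dist x y ≤ ‖f x - f y‖ ∧
        ‖f x - f y‖ ≤ 4000000 * (1 + Real.log k) ^ 2 * dist x y := by
  classical
  by_cases hX : IsEmpty X
  · exact ⟨ℝ, inferInstance, inferInstance, fun _ => 0, fun x => (hX.false x).elim⟩
  rw [not_isEmpty_iff] at hX
  obtain ⟨x0⟩ := hX
  have hk : 1 ≤ k := by
    obtain ⟨i, -⟩ := hcov x0
    have := i.2; omega
  choose F hF1 hF2 using extension A hne hcov g hg
  set h := hh k with hh_def
  have hh1 : 1 ≤ h := one_le_hh k
  have hhp : 0 < h := by linarith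
  have hsq1 : 1 ≤ √h := Real.one_le_sqrt.2 hh1
  have hsq2 : √h * √h = h := Real.mul_self_sqrt hhp.le
  set L : ℝ := 3171 * (h * √h) with hL
  have hLp : 0 < L := by positivity
  obtain ⟨B, hB⟩ : ∃ B : ℝ, ∀ x y : X, dist x y ≤ B := by
    obtain ⟨p, -, hmax⟩ := Finset.exists_max_image (Finset.univ : Finset (X × X))
      (fun p : X × X => dist p.1 p.2) ⟨(x0, x0), Finset.mem_univ _⟩
    exact ⟨dist p.1 p.2, fun x y => hmax (x, y) (Finset.mem_univ _)⟩
  -- scales
  have hsc : ∀ s : ℝ, ∃ m : ℤ, 0 < s → ∀ s' d : ℝ, 0 ≤ d →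
      1 / 64 * (min s d) ^ 2 ≤ qm m s s' d := by
    intro s
    by_cases hs : 0 < s
    · obtain ⟨m, hm⟩ := exists_scale hs
      exact ⟨m, fun _ => hm⟩
    · exact ⟨0, fun h => absurd h hs⟩
  choose mm hmm using hsc
  set Z : Finset ℤ := Finset.univ.image
    (fun p : Finset (Fin k) × Fin k × X => mm (psi A B p.1 p.2.1 p.2.2)) with hZ
  set T := Nat.log 2 k with hT
  have hkT : k < 2 ^ (T + 1) := Nat.lt_pow_succ_log_self (by norm_num) k
  set q : X → X → ℝ := fun x y => ∑ t : Fin (T + 1), ∑ I, wt k (1 / 2 ^ ((t : ℕ) + 1)) I *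
    QQ A B L Z F I x y with hq
  have hp01 : ∀ t : ℕ, (0 : ℝ) ≤ 1 / 2 ^ (t + 1) ∧ (1 : ℝ) / 2 ^ (t + 1) ≤ 1 := by
    intro t
    refine ⟨by positivity, ?_⟩
    rw [div_le_one (by positivity)]
    exact one_le_pow₀ (by norm_num)
  have hqHD : HD q := by
    refine HD.sum _ fun t => HD.sum _ fun I => ?_
    exact (QQ_HD A B L hLp Z F I).smul (wt_nonneg k (hp01 t).1 (hp01 t).2 I)
  have hup : ∀ x y, q x y ≤ 42 * (T + 1) * dist x y ^ 2 := by
    intro x y
    have h1 : ∀ t : Fin (T + 1), ∑ I, wt k (1 / 2 ^ ((t : ℕ) + 1)) I * QQ A B L Z F I x y ≤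
        42 * dist x y ^ 2 := by
      intro t
      calc _ ≤ ∑ I, wt k (1 / 2 ^ ((t : ℕ) + 1)) I * (42 * dist x y ^ 2) :=
            Finset.sum_le_sum fun I _ => mul_le_mul_of_nonneg_left
              (QQ_le A B L hLp Z F (fun i => hF1 i) I x y) (wt_nonneg k (hp01 t).1 (hp01 t).2 I)
        _ = 42 * dist x y ^ 2 := by rw [← Finset.sum_mul, wt_sum, one_mul]
    calc q x y ≤ ∑ _t : Fin (T + 1), 42 * dist x y ^ 2 := Finset.sum_le_sum fun t _ => h1 t
      _ = 42 * (T + 1) * dist x y ^ 2 := by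
        rw [Finset.sum_const, Finset.card_univ, Fintype.card_fin, nsmul_eq_mul]
        push_cast; ring
  -- lower bound
  have hlo : ∀ x y, 1 / 512 * min ((dist x y / 460) ^ 2 / (T + 1)) ((dist x y / (2 * L)) ^ 2) ≤
      q x y := by
    intro x y
    set ρ := dist x y with hρ
    have hρ0 : 0 ≤ ρ := dist_nonneg
    set e := ρ / 460 with he
    have he0 : 0 ≤ e := by positivity
    set v := ρ / (2 * L) with hv
    have hv0 : 0 ≤ v := by positivity
    set d : Fin k → ℝ := fun i => Metric.infDist x (A i) with hd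
    have hd0 : ∀ i, 0 ≤ d i := fun i => Metric.infDist_nonneg
    have heB : e ≤ B := by
      have := hB x y
      have : e ≤ ρ := by rw [he]; linarith
      linarith
    have hlow : ∀ i, Metric.infDist x (A i) ≤ e → Metric.infDist y (A i) ≤ e →
        v * L ≤ ‖F i x - F i y‖ := by
      intro i hx hy
      obtain ⟨s, hs, hsd⟩ := (Set.toFinite (A i)).isCompact.exists_infDist_eq_dist (hne i) x
      obtain ⟨s', hs', hsd'⟩ := (Set.toFinite (A i)).isCompact.exists_infDist_eq_dist (hne i) y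
      have a1 := hF2 i x s hs
      have a2 := hF2 i y s' hs'
      have a3 := hg i s hs s' hs'
      have a4 : dist x s ≤ e := by rw [← hsd]; exact hx
      have a5 : dist y s' ≤ e := by rw [← hsd']; exact hy
      have a6 : ρ ≤ dist x s + dist s s' + dist y s' := by
        have := dist_triangle4 x s s' y
        rw [dist_comm s' y] at this
        exact this
      have a7 : ‖g i s - g i s'‖ ≤ ‖F i x - g i s‖ + ‖F i x - F i y‖ + ‖F i y - g i s'‖ := by
        have : g i s - g i s' = -(F i x - g i s) + (F i x - F i y) + (F i y - g i s') := by abel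
        rw [this]
        refine (norm_add_le _ _).trans (add_le_add_left ((norm_add_le _ _).trans ?_) _)
        rw [norm_neg]
      have a8 : v * L = ρ / 2 := by rw [hv]; field_simp
      rw [a8]
      have : 460 * e = ρ := by rw [he]; field_simp
      linarith
    have hlev : ∀ t ∈ Finset.range (T + 1), 1 / 512 * (min (tau d e (t + 1) - tau d e t) v) ^ 2 ≤
        ∑ I, wt k (1 / 2 ^ (t + 1)) I * QQ A B L Z F I x y := by
      intro t _
      rcases eq_or_lt_of_le (tau_mono d e t) with h1 | h1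
      · rw [h1, sub_self, min_eq_left hv0]
        have : 0 ≤ ∑ I, wt k (1 / 2 ^ (t + 1)) I * QQ A B L Z F I x y :=
          Finset.sum_nonneg fun I _ => mul_nonneg (wt_nonneg k (hp01 t).1 (hp01 t).2 I)
            (QQ_nonneg A B L Z F I x y)
        simpa using this
      · have h2 := sample t (Finset.univ.filter fun i => Metric.infDist x (A i) < tau d e (t + 1))
          (Finset.univ.filter fun i => Metric.infDist x (A i) ≤ tau d e t)
          (fun i hi => by
            rw [Finset.mem_filter] at hi ⊢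
            exact ⟨hi.1, lt_of_le_of_lt hi.2 h1⟩)
          (tau_card d e t (lt_of_lt_of_le h1 (tau_le d e (t + 1))))
          (tau_card_lt d e (t + 1))
          (fun I => QQ A B L Z F I x y) (fun I => QQ_nonneg A B L Z F I x y)
          (1 / 64 * (min (tau d e (t + 1) - tau d e t) v) ^ 2) (by positivity)
          (fun J hJ => QQ_dichotomy A B L hLp Z F x y
            (fun I i hpos => ⟨mm (psi A B I i x), by
              rw [hZ, Finset.mem_image]
              exact ⟨(I, i, x), Finset.mem_univ _, rfl⟩, fun s' d' hd' => hmm _ hpos s' d' hd'⟩)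
            e (tau d e t) (tau d e (t + 1)) v h1 (tau_le d e (t + 1)) heB hv0 hlow J hJ)
        refine le_trans (le_of_eq ?_) h2
        ring
    have hsum : ∑ t ∈ Finset.range (T + 1), (tau d e (t + 1) - tau d e t) = e := by
      rw [Finset.sum_range_sub (tau d e), tau_top d e (T + 1) hkT]
      obtain ⟨i, hi⟩ := hcov x
      rw [tau_zero d e hd0 he0 (i := i) (Metric.infDist_zero_of_mem hi), sub_zero]
    have hcs := sum_min_sq T (fun t => tau d e (t + 1) - tau d e t)
      (fun t => by linarith [tau_mono d e t]) e v hv0 hsum he0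
    have hqsum : q x y = ∑ t ∈ Finset.range (T + 1), ∑ I, wt k (1 / 2 ^ (t + 1)) I *
        QQ A B L Z F I x y := by
      rw [hq]
      exact Fin.sum_univ_eq_sum_range (fun t => ∑ I, wt k (1 / 2 ^ (t + 1)) I *
        QQ A B L Z F I x y) (T + 1)
    rw [hqsum]
    calc 1 / 512 * min (e ^ 2 / (T + 1)) (v ^ 2)
        ≤ 1 / 512 * ∑ t ∈ Finset.range (T + 1), (min (tau d e (t + 1) - tau d e t) v) ^ 2 :=
          mul_le_mul_of_nonneg_left hcs (by norm_num)
      _ = ∑ t ∈ Finset.range (T + 1), 1 / 512 * (min (tau d e (t + 1) - tau d e t) v) ^ 2 := by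
          rw [Finset.mul_sum]
      _ ≤ _ := Finset.sum_le_sum hlev
  -- rescaling
  set Λ : ℝ := 512 * (460 ^ 2 * (T + 1) + 4 * L ^ 2) with hΛ
  have hΛ0 : 0 ≤ Λ := by positivity
  obtain ⟨H', i1, i2, f, hf⟩ := hqHD.smul hΛ0
  refine ⟨H', i1, i2, f, fun x y => ?_⟩
  have hρ0 : 0 ≤ dist x y := dist_nonneg
  have hlow : dist x y ^ 2 ≤ ‖f x - f y‖ ^ 2 := by
    rw [hf]
    refine le_trans ?_ (mul_le_mul_of_nonneg_left (hlo x y) hΛ0)
    have e1 : Λ * (1 / 512 * min ((dist x y / 460) ^ 2 / (T + 1)) ((dist x y / (2 * L)) ^ 2)) =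
        (460 ^ 2 * (T + 1) + 4 * L ^ 2) *
          min ((dist x y / 460) ^ 2 / (T + 1)) ((dist x y / (2 * L)) ^ 2) := by
      rw [hΛ]; ring
    rw [e1]
    rcases min_choice ((dist x y / 460) ^ 2 / ((T : ℝ) + 1)) ((dist x y / (2 * L)) ^ 2) with h1 | h1
    · rw [h1]
      have e2 : 460 ^ 2 * ((T : ℝ) + 1) * ((dist x y / 460) ^ 2 / (T + 1)) = dist x y ^ 2 := by
        field_simp
      have e3 : 0 ≤ 4 * L ^ 2 * ((dist x y / 460) ^ 2 / (T + 1)) := by positivity
      linarith
    · rw [h1]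
      have e2 : 4 * L ^ 2 * (dist x y / (2 * L)) ^ 2 = dist x y ^ 2 := by
        field_simp
        ring
      have e3 : 0 ≤ 460 ^ 2 * ((T : ℝ) + 1) * (dist x y / (2 * L)) ^ 2 := by positivity
      linarith
  have hupp : ‖f x - f y‖ ^ 2 ≤ (4000000 * (1 + Real.log k) ^ 2 * dist x y) ^ 2 := by
    rw [hf]
    refine (mul_le_mul_of_nonneg_left (hup x y) hΛ0).trans ?_
    set lam := 1 + Real.log k with hlam
    have hlam1 : 1 ≤ lam := by
      have : 0 ≤ Real.log k := Real.log_nonneg (by exact_mod_cast hk)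
      linarith
    have hT1 : (T : ℝ) + 1 ≤ 3 / 2 * lam := log2_le k hk
    have hh2 : h ≤ 2 * lam := hh_le k hk
    have hL2 : L ^ 2 = 10055241 * h ^ 3 := by
      rw [hL, mul_pow, mul_pow, Real.sq_sqrt hhp.le]; ring
    have hh3 : h ^ 3 ≤ 8 * lam ^ 3 := by
      calc h ^ 3 ≤ (2 * lam) ^ 3 := pow_le_pow_left₀ hhp.le hh2 3
        _ = 8 * lam ^ 3 := by ring
    have hT0 : (0 : ℝ) ≤ (T : ℝ) + 1 := by positivity
    have hΛ1 : Λ ≤ 512 * (460 ^ 2 * (3 / 2 * lam) + 4 * (10055241 * (8 * lam ^ 3))) := by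
      rw [hΛ, hL2]
      gcongr
    have hlam3 : lam ≤ lam ^ 3 := by nlinarith [sq_nonneg lam, mul_self_nonneg (lam - 1)]
    have hΛ2 : Λ ≤ 512 * 322085112 * lam ^ 3 := by nlinarith
    have h42 : 42 * ((T : ℝ) + 1) ≤ 63 * lam := by linarith
    have hprod : Λ * (42 * ((T : ℝ) + 1)) ≤ (512 * 322085112 * lam ^ 3) * (63 * lam) :=
      mul_le_mul hΛ2 h42 (by positivity) (by positivity)
    have hd2 : 0 ≤ dist x y ^ 2 := by positivity
    calc Λ * (42 * (T + 1) * dist x y ^ 2) = Λ * (42 * ((T : ℝ) + 1)) * dist x y ^ 2 := by ring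
      _ ≤ (512 * 322085112 * lam ^ 3) * (63 * lam) * dist x y ^ 2 :=
          mul_le_mul_of_nonneg_right hprod hd2
      _ = (512 * 322085112 * 63) * (lam ^ 4 * dist x y ^ 2) := by ring
      _ ≤ 16000000000000 * (lam ^ 4 * dist x y ^ 2) := by
          apply mul_le_mul_of_nonneg_right _ (by positivity)
          norm_num
      _ = (4000000 * lam ^ 2 * dist x y) ^ 2 := by ring
  constructor
  · exact le_of_sq_le_sq hlow (norm_nonneg _)
  · exact le_of_sq_le_sq hupp (by positivity)

end Pool.Agent.H80U
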