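import Mathlib

/-!
Quadratic energies of finite weighted networks with values in a Hilbert space, and the
elimination of vertices (star-mesh transform).
-/

open Finset

namespace Pool.Agent.H80U

set_option linter.unusedSectionVars false

/-- Quadratic energy of a vector valued function on a finite weighted network. -/
def En {V : Type*} [Fintype V] {H : Type*} [NormedAddCommGroup H] (c : V → V → ℝ) (h : V → H) : ℝ :=
  ∑ x, ∑ y, c x y * ‖h x - h y‖ ^ 2

lemma En_nonneg {V : Type*} [Fintype V] {H : Type*} [NormedAddCommGroup H] {c : V → V → ℝ}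
    (hc : ∀ x y, 0 ≤ c x y) (h : V → H) : 0 ≤ En c h := by
  unfold En
  exact Finset.sum_nonneg fun x _ => Finset.sum_nonneg fun y _ => mul_nonneg (hc x y) (sq_nonneg _)

lemma En_add {V : Type*} [Fintype V] {H : Type*} [NormedAddCommGroup H] (c d : V → V → ℝ)
    (h : V → H) : En (fun x y => c x y + d x y) h = En c h + En d h := by
  simp only [En, add_mul, Finset.sum_add_distrib]

lemma En_sum {V : Type*} [Fintype V] {H : Type*} [NormedAddCommGroup H] {J : Type*} [Fintype J]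
    (c : J → V → V → ℝ) (h : V → H) : En (fun x y => ∑ j, c j x y) h = ∑ j, En (c j) h := by
  simp only [En, Finset.sum_mul]
  have : ∀ x, ∑ y, ∑ j, c j x y * ‖h x - h y‖ ^ 2 = ∑ j, ∑ y, c j x y * ‖h x - h y‖ ^ 2 :=
    fun x => Finset.sum_comm
  rw [Finset.sum_congr rfl fun x _ => this x]
  exact Finset.sum_comm

section variance

variable {V : Type*} [Fintype V] {H : Type*} [NormedAddCommGroup H] [InnerProductSpace ℝ H]

/-- `∑ p ‖h - z‖² = ∑ p ‖h - m‖² + (∑ p) ‖m - z‖²` for the weighted mean `m`. -/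
lemma var_identity (p : V → ℝ) (hp : ∑ x, p x ≠ 0) (h : V → H) (z : H) :
    ∑ x, p x * ‖h x - z‖ ^ 2 =
      ∑ x, p x * ‖h x - (∑ y, p y)⁻¹ • ∑ y, p y • h y‖ ^ 2 +
        (∑ x, p x) * ‖(∑ y, p y)⁻¹ • ∑ y, p y • h y - z‖ ^ 2 := by
  set m : H := (∑ y, p y)⁻¹ • ∑ y, p y • h y with hm
  have hCm : (∑ y, p y) • m = ∑ y, p y • h y := by
    rw [hm, smul_smul, mul_inv_cancel₀ hp, one_smul]
  have key : ∑ x, p x • (h x - m) = 0 := by
    simp only [smul_sub, Finset.sum_sub_distrib, ← Finset.sum_smul]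
    rw [hCm, sub_self]
  have h1 : ∀ x, p x * ‖h x - z‖ ^ 2 =
      p x * ‖h x - m‖ ^ 2 + (p x * ‖m - z‖ ^ 2 + 2 * inner ℝ (p x • (h x - m)) (m - z)) := by
    intro x
    have : h x - z = (h x - m) + (m - z) := by abel
    rw [this, norm_add_sq_real, inner_smul_left]
    simp
    ring
  rw [Finset.sum_congr rfl fun x _ => h1 x, Finset.sum_add_distrib, Finset.sum_add_distrib,
    ← Finset.mul_sum, ← sum_inner, key, inner_zero_left, Finset.sum_mul]
  ring

/-- `∑∑ p x p y ‖h x - h y‖² = 2 (∑ p) ∑ p ‖h - m‖²`. -/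
lemma var_double (p : V → ℝ) (hp : ∑ x, p x ≠ 0) (h : V → H) :
    ∑ x, ∑ y, p x * p y * ‖h x - h y‖ ^ 2 =
      2 * (∑ x, p x) * ∑ x, p x * ‖h x - (∑ y, p y)⁻¹ • ∑ y, p y • h y‖ ^ 2 := by
  set m : H := (∑ y, p y)⁻¹ • ∑ y, p y • h y with hm
  have h1 : ∀ y, ∑ x, p x * p y * ‖h x - h y‖ ^ 2 =
      p y * (∑ x, p x * ‖h x - m‖ ^ 2) + (∑ x, p x) * (p y * ‖h y - m‖ ^ 2) := by
    intro y
    have := var_identity p hp h (h y)
    rw [← hm] at this
    have e : ∑ x, p x * p y * ‖h x - h y‖ ^ 2 = p y * ∑ x, p x * ‖h x - h y‖ ^ 2 := by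
      rw [Finset.mul_sum]
      exact Finset.sum_congr rfl fun x _ => by ring
    rw [e, this, norm_sub_rev m (h y)]
    ring
  rw [Finset.sum_comm, Finset.sum_congr rfl fun y _ => h1 y, Finset.sum_add_distrib,
    ← Finset.sum_mul, ← Finset.mul_sum]
  ring

end variance

section mesh

variable {V : Type*} [Fintype V] [DecidableEq V]

/-- weights of the edges from `u` to the other vertices -/
def stw (c : V → V → ℝ) (u x : V) : ℝ := if x = u then 0 else c x u

/-- star-mesh transform: the network obtained by eliminating the vertex `u` -/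
noncomputable def sm (c : V → V → ℝ) (u x y : V) : ℝ :=
  (if x = u ∨ y = u then 0 else c x y) + stw c u x * stw c u y * (∑ z, stw c u z)⁻¹

variable {H : Type*} [NormedAddCommGroup H] [InnerProductSpace ℝ H]

lemma En_split (c : V → V → ℝ) (hs : ∀ x y, c x y = c y x) (u : V) (h : V → H) :
    En c h = (∑ x, ∑ y, (if x = u ∨ y = u then 0 else c x y) * ‖h x - h y‖ ^ 2) +
      2 * ∑ x, stw c u x * ‖h x - h u‖ ^ 2 := by
  have h1 : ∀ x y, c x y * ‖h x - h y‖ ^ 2 =
      (if x = u ∨ y = u then 0 else c x y) * ‖h x - h y‖ ^ 2 +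
        ((if y = u then stw c u x * ‖h x - h u‖ ^ 2 else 0) +
          (if x = u then stw c u y * ‖h y - h u‖ ^ 2 else 0)) := by
    intro x y
    by_cases hx : x = u <;> by_cases hy : y = u
    · subst hx; subst hy; simp [stw]
    · subst hx; simp [stw, hy, norm_sub_rev, hs x y]
    · subst hy; simp [stw, hx]
    · simp [hx, hy]
  have h2 : En c h = ∑ x, ∑ y, ((if x = u ∨ y = u then 0 else c x y) * ‖h x - h y‖ ^ 2 +
        ((if y = u then stw c u x * ‖h x - h u‖ ^ 2 else 0) +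
          (if x = u then stw c u y * ‖h y - h u‖ ^ 2 else 0))) :=
    Finset.sum_congr rfl fun x _ => Finset.sum_congr rfl fun y _ => h1 x y
  rw [h2]
  simp only [Finset.sum_add_distrib]
  have h3 : ∑ x, ∑ y, (if y = u then stw c u x * ‖h x - h u‖ ^ 2 else 0) =
      ∑ x, stw c u x * ‖h x - h u‖ ^ 2 := by
    refine Finset.sum_congr rfl fun x _ => ?_
    simp
  have h4 : ∑ x, ∑ y, (if x = u then stw c u y * ‖h y - h u‖ ^ 2 else 0) =
      ∑ x, stw c u x * ‖h x - h u‖ ^ 2 := by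
    rw [Finset.sum_comm]
    refine Finset.sum_congr rfl fun x _ => ?_
    simp
  rw [h3, h4]
  ring

lemma En_sm (c : V → V → ℝ) (u : V) (h : V → H) :
    En (sm c u) h = (∑ x, ∑ y, (if x = u ∨ y = u then 0 else c x y) * ‖h x - h y‖ ^ 2) +
      (∑ z, stw c u z)⁻¹ * ∑ x, ∑ y, stw c u x * stw c u y * ‖h x - h y‖ ^ 2 := by
  unfold En sm
  simp only [add_mul, Finset.sum_add_distrib, Finset.mul_sum]
  congr 1
  refine Finset.sum_congr rfl fun x _ => Finset.sum_congr rfl fun y _ => ?_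
  ring

lemma stw_nonneg {c : V → V → ℝ} (h0 : ∀ x y, 0 ≤ c x y) (u x : V) : 0 ≤ stw c u x := by
  unfold stw; split_ifs
  · exact le_rfl
  · exact h0 _ _

lemma sm_nonneg {c : V → V → ℝ} (h0 : ∀ x y, 0 ≤ c x y) (u x y : V) : 0 ≤ sm c u x y := by
  unfold sm
  refine add_nonneg ?_ (mul_nonneg (mul_nonneg (stw_nonneg h0 _ _) (stw_nonneg h0 _ _))
    (inv_nonneg.2 (Finset.sum_nonneg fun z _ => stw_nonneg h0 _ _)))
  split_ifs
  · exact le_rfl
  · exact h0 _ _

lemma sm_symm {c : V → V → ℝ} (hs : ∀ x y, c x y = c y x) (u x y : V) :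
    sm c u x y = sm c u y x := by
  unfold sm
  rw [hs x y, mul_comm (stw c u x)]
  by_cases hx : x = u <;> by_cases hy : y = u <;> simp [hx, hy]

lemma sm_self (c : V → V → ℝ) (u y : V) : sm c u u y = 0 := by
  simp [sm, stw]

lemma stw_zero_of_sum {c : V → V → ℝ} (h0 : ∀ x y, 0 ≤ c x y) (u : V)
    (hC : ∑ z, stw c u z = 0) (x : V) : stw c u x = 0 :=
  (Finset.sum_eq_zero_iff_of_nonneg fun z _ => stw_nonneg h0 u z).1 hC x (Finset.mem_univ x)

/-- elimination of one vertex: the minimal extension -/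
lemma sm_ext {c : V → V → ℝ} (hs : ∀ x y, c x y = c y x) (h0 : ∀ x y, 0 ≤ c x y) (u : V)
    (h : V → H) : ∃ F : V → H, (∀ x, x ≠ u → F x = h x) ∧ En c F ≤ En (sm c u) h := by
  set C := ∑ z, stw c u z with hC
  by_cases hC0 : C = 0
  · refine ⟨h, fun x _ => rfl, ?_⟩
    have hz := stw_zero_of_sum h0 u (hC ▸ hC0)
    rw [En_split c hs u, En_sm]
    simp [hz]
  · set m : H := C⁻¹ • ∑ y, stw c u y • h y with hm
    refine ⟨Function.update h u m, fun x hx => by simp [hx], ?_⟩
    rw [En_split c hs u, En_sm]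
    have e1 : ∑ x, ∑ y, (if x = u ∨ y = u then 0 else c x y) *
        ‖Function.update h u m x - Function.update h u m y‖ ^ 2 =
        ∑ x, ∑ y, (if x = u ∨ y = u then 0 else c x y) * ‖h x - h y‖ ^ 2 := by
      refine Finset.sum_congr rfl fun x _ => Finset.sum_congr rfl fun y _ => ?_
      by_cases hx : x = u
      · simp [hx]
      by_cases hy : y = u
      · simp [hy]
      simp [hx, hy]
    have e2 : ∑ x, stw c u x *
        ‖Function.update h u m x - Function.update h u m u‖ ^ 2 =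
        ∑ x, stw c u x * ‖h x - m‖ ^ 2 := by
      refine Finset.sum_congr rfl fun x _ => ?_
      by_cases hx : x = u
      · simp [hx, stw]
      · simp [hx]
    rw [e1, e2, var_double (stw c u) hC0 h, ← hC, ← hm]
    have : C⁻¹ * (2 * C * ∑ x, stw c u x * ‖h x - m‖ ^ 2) =
        2 * ∑ x, stw c u x * ‖h x - m‖ ^ 2 := by
      field_simp
    rw [this]

/-- elimination of one vertex decreases energy -/
lemma sm_le {c : V → V → ℝ} (hs : ∀ x y, c x y = c y x) (h0 : ∀ x y, 0 ≤ c x y) (u : V)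
    (F : V → H) : En (sm c u) F ≤ En c F := by
  set C := ∑ z, stw c u z with hC
  rw [En_split c hs u, En_sm]
  by_cases hC0 : C = 0
  · have hz := stw_zero_of_sum h0 u (hC ▸ hC0)
    simp [hz]
  · have hCn : 0 ≤ C := Finset.sum_nonneg fun z _ => stw_nonneg h0 u z
    rw [var_double (stw c u) hC0 F, ← hC]
    have : C⁻¹ * (2 * C * ∑ x, stw c u x * ‖F x - C⁻¹ • ∑ y, stw c u y • F y‖ ^ 2) =
        2 * ∑ x, stw c u x * ‖F x - C⁻¹ • ∑ y, stw c u y • F y‖ ^ 2 := by
      field_simp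
    rw [this]
    have h2 := var_identity (stw c u) hC0 F (F u)
    rw [← hC] at h2
    have h3 : 0 ≤ C * ‖C⁻¹ • ∑ y, stw c u y • F y - F u‖ ^ 2 := mul_nonneg hCn (sq_nonneg _)
    linarith

/-- elimination of a set of vertices -/
theorem elim (c : V → V → ℝ) (hs : ∀ x y, c x y = c y x) (h0 : ∀ x y, 0 ≤ c x y)
    (P : Finset V) :
    ∃ c' : V → V → ℝ, (∀ x y, c' x y = c' y x) ∧ (∀ x y, 0 ≤ c' x y) ∧
      (∀ x ∈ P, ∀ y, c' x y = 0) ∧
      (∀ (H : Type) [NormedAddCommGroup H] [InnerProductSpace ℝ H] (h : V → H),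
        ∃ F : V → H, (∀ x, x ∉ P → F x = h x) ∧ En c F ≤ En c' h) ∧
      (∀ (H : Type) [NormedAddCommGroup H] [InnerProductSpace ℝ H] (F : V → H),
        En c' F ≤ En c F) := by
  induction P using Finset.induction_on with
  | empty =>
    exact ⟨c, hs, h0, by simp, fun H _ _ h => ⟨h, fun x _ => rfl, le_rfl⟩,
      fun H _ _ F => le_rfl⟩
  | insert u P hu ih =>
    obtain ⟨c1, s1, n1, z1, e1, m1⟩ := ih
    refine ⟨sm c1 u, fun x y => sm_symm s1 u x y, fun x y => sm_nonneg n1 u x y, ?_, ?_, ?_⟩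
    · intro x hx y
      rcases Finset.mem_insert.1 hx with rfl | hx
      · exact sm_self _ _ _
      · have hxy := z1 x hx
        unfold sm stw
        simp [hxy]
    · intro H _ _ h
      obtain ⟨F1, hF1, hE1⟩ := sm_ext s1 n1 u h
      obtain ⟨F, hF, hE⟩ := e1 H F1
      refine ⟨F, fun x hx => ?_, hE.trans hE1⟩
      rw [Finset.mem_insert, not_or] at hx
      rw [hF x hx.2, hF1 x hx.1]
    · intro H _ _ F
      exact (sm_le s1 n1 u F).trans (m1 H F)

end mesh

end Pool.Agent.H80U
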