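import Pool.Agent.H80U.Chain

/-!
The extension theorem: averaging the chain maps over random priorities and radii.
-/

open Finset

namespace Pool.Agent.H80U

set_option linter.unusedSectionVars false
set_option linter.unusedVariables false

section root

variable {X : Type} [MetricSpace X] {ι : Type} [DecidableEq ι]
variable {H : Type} [NormedAddCommGroup H] [InnerProductSpace ℝ H]
variable (A : ι → Set X) (i : ℕ → X → ι) (z : ℕ → X → X) (R : ℕ → ℝ) (n : ℕ) (r : ι)
  (G : List ι → X → H) (ε : ℝ)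

theorem root_det (hR : ∀ j, R (j + 1) = R j / 4) (hRp : ∀ j, 0 < R j)
    (hi0 : ∀ x, i 0 x = r) (hz1 : ∀ j x, z j x ∈ A (i j x)) (hz2 : ∀ j x, dist x (z j x) ≤ R j)
    (hε : 0 < ε)
    (hG1 : ∀ l : List ι, l.length ≤ n → ∀ x ∈ A (cls r l), ∀ y ∈ A (cls r l),
        ‖G l x - G l y‖ ≤ 2 * dist x y + ε)
    (hG2 : ∀ l : List ι, l.length + 1 ≤ n → ∀ i, ∀ y ∈ A (cls r l), ∀ u ∈ A i,
        ‖G l y - G (l ++ [i]) u‖ ≤ 5 * ((l.length : ℝ) + 2) * dist y u + ε)
    (hG0 : ∀ x ∈ A r, ∀ y ∈ A r, ‖G [] x - G [] y‖ = dist x y)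
    (D : ι → X → ℝ) (hroot : ∀ j x, D r x ≤ R j → i j x = r)
    (hzn : ∀ x, z n x = x) (x s : X) (hs : s ∈ A r) (hD0 : D r x ≤ R 0)
    (hDs : D r x ≤ dist x s) :
    ‖PP i z G n x - G [] s‖ ≤ 113 * dist x s + n * ε := by
  have hn0 : (0 : ℝ) ≤ n := Nat.cast_nonneg n
  have hanti : ∀ a b, a ≤ b → R b ≤ R a := by
    intro a b hab
    induction b, hab using Nat.le_induction with
    | base => exact le_rfl
    | succ b _ ih => rw [hR b]; linarith [hRp b]
  have hnil : ∀ p, D r x ≤ R p → lst i p x = [] := by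
    intro p
    induction p with
    | zero => intro _; rfl
    | succ p ih =>
      intro hp
      have h1 : D r x ≤ R p := hp.trans (hanti p (p + 1) (Nat.le_succ p))
      unfold lst
      rw [hroot (p + 1) x hp, hroot p x h1]
      simpa using ih h1
  by_cases hn : D r x ≤ R n
  · unfold PP
    rw [hnil n hn, hzn]
    have hx : x ∈ A r := by
      have := hz1 n x
      rwa [hzn, hroot n x hn] at this
    rw [hG0 x hx s hs]
    nlinarith [dist_nonneg (x := x) (y := s)]
  · push Not at hn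
    have hex : ∃ j, R j < D r x := ⟨n, hn⟩
    set j0 := Nat.find hex with hj0
    have h1 : R j0 < D r x := Nat.find_spec hex
    have h2 : j0 ≤ n := Nat.find_min' hex hn
    obtain ⟨p, hp⟩ : ∃ p, j0 = p + 1 := by
      cases h : j0 with
      | zero => rw [h] at h1; linarith
      | succ p => exact ⟨p, rfl⟩
    have h3 : D r x ≤ R p := by
      by_contra hcon
      push Not at hcon
      exact Nat.find_min hex (by omega : p < j0) hcon
    rw [hp] at h1 h2
    have hl := hnil p h3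
    have tx := tail A i z R n r G ε hR hRp hi0 hz1 hz2 hε (fun t => 5 * ((t : ℝ) + 2))
      (fun t => 9 * ((t : ℝ) + 3)) (fun t => by
        have : (0 : ℝ) ≤ t := Nat.cast_nonneg t
        show 2 ≤ 5 * ((t : ℝ) + 2)
        linarith) (fun t => by positivity)
      (fun t => by push_cast; linarith) (fun t => by
        have : (0 : ℝ) ≤ t := Nat.cast_nonneg t
        push_cast; linarith) hG1 hG2 x (n - p) p (by omega)
    rw [hl] at tx
    simp only [List.length_nil, Nat.cast_zero, zero_add] at tx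
    have hz : z p x ∈ A r := by
      have := hz1 p x
      rwa [hroot p x h3] at this
    have e1 : ‖PP i z G p x - G [] s‖ = dist (z p x) s := by
      unfold PP
      rw [hl, hG0 _ hz s hs]
    have e2 : dist (z p x) s ≤ R p + dist x s := by
      have a1 := hz2 p x
      have a2 := dist_triangle (z p x) x s
      rw [dist_comm (z p x) x] at a2
      linarith
    have e3 : R p < 4 * dist x s := by
      have := hR p
      linarith
    have e4 : ‖PP i z G n x - G [] s‖ ≤ ‖PP i z G n x - PP i z G p x‖ +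
        ‖PP i z G p x - G [] s‖ := norm_sub_le_norm_sub_add_norm_sub _ _ _
    have hnp : ((n - p : ℕ) : ℝ) ≤ n := by
      have : n - p ≤ n := Nat.sub_le _ _
      exact_mod_cast this
    have hne' : ((n - p : ℕ) : ℝ) * ε ≤ n * ε := mul_le_mul_of_nonneg_right hnp hε.le
    nlinarith

end root

lemma count_le (N : ℕ) (u L : ℝ) (hL : 0 ≤ L) :
    ((Finset.univ.filter (fun b : Fin N => u ≤ (b : ℝ) ∧ (b : ℝ) < u + L)).card : ℝ) ≤ L + 1 := by
  have h1 : (Finset.univ.filter (fun b : Fin N => u ≤ (b : ℝ) ∧ (b : ℝ) < u + L)).card ≤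
      (Finset.Ico ⌈u⌉ ⌈u + L⌉).card := by
    refine Finset.card_le_card_of_injOn (fun b : Fin N => ((b : ℕ) : ℤ)) ?_ ?_
    · intro b hb
      rw [Finset.mem_coe, Finset.mem_filter] at hb
      rw [Finset.mem_coe, Finset.mem_Ico, Int.ceil_le, Int.lt_ceil]
      exact ⟨by exact_mod_cast hb.2.1, by exact_mod_cast hb.2.2⟩
    · intro a _ b _ h
      have h' : ((a : ℕ) : ℤ) = ((b : ℕ) : ℤ) := h
      exact Fin.ext (by exact_mod_cast h')
  have h2 : ((Finset.Ico ⌈u⌉ ⌈u + L⌉).card : ℝ) ≤ L + 1 := by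
    rw [Int.card_Ico]
    have h3 : (⌈u⌉ : ℤ) ≤ ⌈u + L⌉ := Int.ceil_mono (by linarith)
    have h4 : (((⌈u + L⌉ - ⌈u⌉).toNat : ℕ) : ℝ) = ((⌈u + L⌉ - ⌈u⌉ : ℤ) : ℝ) := by
      have : ((⌈u + L⌉ - ⌈u⌉).toNat : ℤ) = ⌈u + L⌉ - ⌈u⌉ := Int.toNat_of_nonneg (by linarith)
      exact_mod_cast this
    rw [h4]
    push_cast
    have := Int.ceil_lt_add_one (u + L)
    have := Int.le_ceil u
    linarith
  exact le_trans (by exact_mod_cast h1) h2

/-- scale at level `j` -/
noncomputable def sc (s0 : ℝ) (j : ℕ) : ℝ := s0 / 4 ^ j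

open Classical in
/-- the radius average -/
lemma radius_avg (N n : ℕ) (hN : 0 < N) (s0 m δ : ℝ) (hs0 : 0 < s0) (hδ : 0 < δ)
    (hNδ : s0 ≤ N * δ) :
    ∑ b : Fin N, ∑ p ∈ Finset.range n,
      (if δ ≤ sc s0 (p + 1) ∧ m ≤ (1 + (b : ℝ) / N) * sc s0 (p + 1) ∧
        (1 + (b : ℝ) / N) * sc s0 (p + 1) < m + δ then (1 + (b : ℝ) / N) * sc s0 (p + 1) else 0)
      ≤ 4 * δ * N := by
  have hN' : (0 : ℝ) < N := by exact_mod_cast hN
  have hβ : ∀ b : Fin N, (b : ℝ) / N < 1 := by
    intro b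
    rw [div_lt_one hN']
    exact_mod_cast b.2
  have hβ0 : ∀ b : Fin N, (0 : ℝ) ≤ (b : ℝ) / N := fun b => by positivity
  have hsp : ∀ j, 0 < sc s0 j := fun j => by unfold sc; positivity
  rw [Finset.sum_comm]
  set f : ℕ → ℝ := fun p => ∑ b : Fin N,
      (if δ ≤ sc s0 (p + 1) ∧ m ≤ (1 + (b : ℝ) / N) * sc s0 (p + 1) ∧
        (1 + (b : ℝ) / N) * sc s0 (p + 1) < m + δ then (1 + (b : ℝ) / N) * sc s0 (p + 1) else 0)
    with hf
  -- each level
  have hlev : ∀ p, f p ≤ 4 * δ * N := by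
    intro p
    set s := sc s0 (p + 1) with hs
    have hsp' : 0 < s := hsp _
    by_cases hδs : δ ≤ s
    swap
    · have : f p = 0 := by
        simp only [hf]
        refine Finset.sum_eq_zero fun b _ => ?_
        rw [if_neg]; exact fun h => hδs h.1
      rw [this]; positivity
    have hss0 : s ≤ s0 := by
      rw [hs]; unfold sc
      exact div_le_self hs0.le (one_le_pow₀ (by norm_num))
    have h1 : f p ≤ ∑ b : Fin N,
        (if ((m / s - 1) * N ≤ (b : ℝ) ∧ (b : ℝ) < (m / s - 1) * N + δ * N / s)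
          then 2 * s else 0) := by
      refine Finset.sum_le_sum fun b _ => ?_
      by_cases hc : δ ≤ s ∧ m ≤ (1 + (b : ℝ) / N) * s ∧ (1 + (b : ℝ) / N) * s < m + δ
      · rw [if_pos hc, if_pos]
        · nlinarith [hβ b]
        · obtain ⟨-, c2, c3⟩ := hc
          have e1 : m / s ≤ 1 + (b : ℝ) / N := by rwa [div_le_iff₀ hsp']
          have e2 : 1 + (b : ℝ) / N < (m + δ) / s := by rwa [lt_div_iff₀ hsp']
          have e3 : (b : ℝ) / N * N = b := by field_simp
          constructor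
          · have : (m / s - 1) * N ≤ (b : ℝ) / N * N := by
              apply mul_le_mul_of_nonneg_right _ hN'.le
              linarith
            linarith
          · have h4 : (b : ℝ) / N * N < ((m + δ) / s - 1) * N := by
              apply mul_lt_mul_of_pos_right _ hN'
              linarith
            have h5 : ((m + δ) / s - 1) * N = (m / s - 1) * N + δ * N / s := by
              field_simp
              ring
            linarith
      · rw [if_neg hc]
        split_ifs <;> positivity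
    refine h1.trans ?_
    rw [← Finset.sum_filter, Finset.sum_const, nsmul_eq_mul]
    have h2 := count_le N ((m / s - 1) * N) (δ * N / s) (by positivity)
    have h3 : 1 ≤ δ * N / s := by
      rw [le_div_iff₀ hsp']; linarith [mul_comm δ (N : ℝ)]
    calc _ ≤ (δ * N / s + 1) * (2 * s) := by gcongr
      _ ≤ (δ * N / s + δ * N / s) * (2 * s) := by gcongr
      _ = 4 * δ * N := by field_simp; ring
  -- at most one level
  have hone : ∀ p q, p < q → f p ≠ 0 → f q = 0 := by
    intro p q hpq hp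
    have hex : ∃ b : Fin N, (δ ≤ sc s0 (p + 1) ∧ m ≤ (1 + (b : ℝ) / N) * sc s0 (p + 1) ∧
        (1 + (b : ℝ) / N) * sc s0 (p + 1) < m + δ) := by
      by_contra hcon
      push Not at hcon
      apply hp
      simp only [hf]
      refine Finset.sum_eq_zero fun b _ => ?_
      rw [if_neg]
      rintro ⟨a1, a2, a3⟩
      exact absurd a3 (not_lt.2 (hcon b a1 a2))
    obtain ⟨b, b1, b2, b3⟩ := hex
    simp only [hf]
    refine Finset.sum_eq_zero fun b' _ => ?_
    rw [if_neg]
    rintro ⟨c1, c2, c3⟩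
    have hq : sc s0 (q + 1) ≤ sc s0 (p + 1) / 4 := by
      unfold sc
      rw [div_div]
      apply div_le_div_of_nonneg_left hs0.le (by positivity)
      calc (4 : ℝ) ^ (p + 1) * 4 = 4 ^ (p + 1 + 1) := by ring
        _ ≤ 4 ^ (q + 1) := pow_le_pow_right₀ (by norm_num) (by omega)
    have a1 := hβ b'
    have a2 := hβ0 b
    have a3 := hsp (p + 1)
    have a4 := hsp (q + 1)
    -- s_p ≤ β s_p < m + δ, m ≤ β' s_q < 2 s_q ≤ s_p / 2, δ ≤ s_q ≤ s_p/4
    nlinarith
  -- conclusion
  by_cases hall : ∀ p ∈ Finset.range n, f p = 0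
  · rw [Finset.sum_eq_zero hall]; positivity
  · push Not at hall
    obtain ⟨p, hp, hfp⟩ := hall
    rw [Finset.sum_eq_single_of_mem p hp]
    · exact hlev p
    · intro q _ hqp
      rcases lt_or_gt_of_ne hqp with h | h
      · by_contra hq
        exact hfp (hone q p h hq)
      · exact hone p q h hfp

open Classical in
/-- choice of the classes at all levels -/
lemma exists_chain {X : Type} [Fintype X] [MetricSpace X] {k : ℕ} (A : Fin k → Set X)
    (hne : ∀ i, (A i).Nonempty) (hcov : ∀ x, ∃ i, x ∈ A i) (R : ℕ → ℝ) (hRp : ∀ j, 0 < R j)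
    (pr : Fin k → ℕ) :
    ∃ (i : ℕ → X → Fin k) (z : ℕ → X → X),
      (∀ j x, Metric.infDist x (A (i j x)) ≤ R j) ∧
      (∀ j x c, Metric.infDist x (A c) ≤ R j → pr (i j x) ≤ pr c) ∧
      (∀ j x, z j x ∈ A (i j x)) ∧ (∀ j x, dist x (z j x) ≤ R j) := by
  have h1 : ∀ (j : ℕ) (x : X), ∃ c : Fin k, Metric.infDist x (A c) ≤ R j ∧
      ∀ c', Metric.infDist x (A c') ≤ R j → pr c ≤ pr c' := by
    intro j x
    obtain ⟨c0, hc0⟩ := hcov x
    have hne' : (Finset.univ.filter fun c => Metric.infDist x (A c) ≤ R j).Nonempty :=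
      ⟨c0, by
        rw [Finset.mem_filter]
        exact ⟨Finset.mem_univ _, by rw [Metric.infDist_zero_of_mem hc0]; exact (hRp j).le⟩⟩
    obtain ⟨c, hc, hmin⟩ := Finset.exists_min_image _ pr hne'
    rw [Finset.mem_filter] at hc
    exact ⟨c, hc.2, fun c' hc' => hmin c' (by rw [Finset.mem_filter]; exact ⟨Finset.mem_univ _, hc'⟩)⟩
  choose i hi1 hi2 using h1
  have h2 : ∀ (j : ℕ) (x : X), ∃ y : X, y ∈ A (i j x) ∧ dist x y ≤ R j := by
    intro j x
    obtain ⟨y, hy, hd⟩ := (Set.toFinite (A (i j x))).isCompact.exists_infDist_eq_dist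
      (hne (i j x)) x
    exact ⟨y, hy, hd ▸ hi1 j x⟩
  choose z hz1 hz2 using h2
  exact ⟨i, z, hi1, hi2, hz1, hz2⟩

lemma sum_shape {W : Type*} [Fintype W] (a K d b : ℝ) (S T : W → ℝ) :
    ∑ ω, (a + K * (d * (b + S ω) + T ω)) =
      ∑ _ω : W, a + K * (d * (∑ _ω : W, b + ∑ ω, S ω) + ∑ ω, T ω) := by
  rw [Finset.sum_add_distrib, ← Finset.mul_sum, Finset.sum_add_distrib, ← Finset.mul_sum,
    Finset.sum_add_distrib]

/-- The extension theorem for unions of `k` Euclidean pieces (finite metric spaces). -/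
theorem extension {X : Type} [Fintype X] [MetricSpace X] {k : ℕ} (A : Fin k → Set X)
    (hne : ∀ i, (A i).Nonempty) (hcov : ∀ x, ∃ i, x ∈ A i)
    {H : Type} [NormedAddCommGroup H] [InnerProductSpace ℝ H] (g : Fin k → X → H)
    (hg : ∀ i, ∀ x ∈ A i, ∀ y ∈ A i, ‖g i x - g i y‖ = dist x y) (r : Fin k) :
    ∃ F : X → H, (∀ x y, ‖F x - F y‖ ≤ 3171 * (hh k * √(hh k)) * dist x y) ∧
      (∀ x, ∀ s ∈ A r, ‖F x - g r s‖ ≤ 114 * dist x s) := by
  classical
  by_cases hsub : Subsingleton X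
  · refine ⟨g r, fun x y => ?_, fun x s _ => ?_⟩
    · rw [Subsingleton.elim x y]; simp
    · rw [Subsingleton.elim x s]; simp
  -- parameters
  rw [not_subsingleton_iff_nontrivial] at hsub
  obtain ⟨x0, y0, hxy0⟩ := hsub
  obtain ⟨δ0, hδ0, hδ0'⟩ : ∃ δ0 > 0, ∀ x y : X, x ≠ y → δ0 ≤ dist x y := by
    have hfin : (Finset.univ.filter fun p : X × X => p.1 ≠ p.2).Nonempty :=
      ⟨(x0, y0), by simp [hxy0]⟩
    obtain ⟨p, hp, hmin⟩ := Finset.exists_min_image _ (fun p : X × X => dist p.1 p.2) hfin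
    rw [Finset.mem_filter] at hp
    exact ⟨dist p.1 p.2, dist_pos.2 hp.2, fun x y hxy => hmin (x, y) (by simp [hxy])⟩
  obtain ⟨s0, hs0, hs0'⟩ : ∃ s0 > 0, ∀ x y : X, dist x y ≤ s0 := by
    obtain ⟨p, -, hmax⟩ := Finset.exists_max_image (Finset.univ : Finset (X × X))
      (fun p : X × X => dist p.1 p.2) ⟨(x0, y0), Finset.mem_univ _⟩
    have h1 := hmax (x0, y0) (Finset.mem_univ _)
    exact ⟨dist p.1 p.2, (dist_pos.2 hxy0).trans_le h1, fun x y => hmax (x, y) (Finset.mem_univ _)⟩
  obtain ⟨n, hn⟩ : ∃ n : ℕ, 2 * s0 / 4 ^ n < δ0 := by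
    obtain ⟨n, hn⟩ := exists_nat_gt (2 * s0 / δ0)
    refine ⟨n, ?_⟩
    have h1 : (n : ℝ) < 4 ^ n := by exact_mod_cast Nat.lt_pow_self (by norm_num)
    rw [div_lt_iff₀ (by positivity)]
    rw [div_lt_iff₀ hδ0] at hn
    nlinarith
  obtain ⟨N, hN, hNδ⟩ : ∃ N : ℕ, 0 < N ∧ s0 ≤ N * δ0 := by
    obtain ⟨N, hN⟩ := exists_nat_gt (s0 / δ0)
    refine ⟨N, ?_, ?_⟩
    · have : (0 : ℝ) < N := lt_trans (by positivity) hN
      exact_mod_cast this
    · rw [div_lt_iff₀ hδ0] at hN; exact hN.le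
  have hN' : (0 : ℝ) < N := by exact_mod_cast hN
  set h : ℝ := hh k with hh_def
  have hh1 : 1 ≤ h := one_le_hh k
  have hhp : 0 < h := by linarith
  have hsq : 0 < √h := Real.sqrt_pos.2 hhp
  have hsq2 : √h * √h = h := Real.mul_self_sqrt hhp.le
  have hsq1 : 1 ≤ √h := Real.one_le_sqrt.2 hh1
  set ε : ℝ := δ0 / (2 * n + 1) with hε_def
  have hε : 0 < ε := by positivity
  have hε2 : (2 * n + 1) * ε = δ0 := by rw [hε_def]; field_simp
  have hε3 : n * ε ≤ δ0 := by
    rw [← hε2]; nlinarith [Nat.cast_nonneg (α := ℝ) n]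
  obtain ⟨G, hG0, hG1, hG2⟩ := treeLip2 A g hg hh1 r n ε hε
  have hG2a : ∀ l : List (Fin k), l.length + 1 ≤ n → ∀ i, ∀ y ∈ A (cls r l), ∀ u ∈ A i,
      ‖G l y - G (l ++ [i]) u‖ ≤ (fun t : ℕ => 5 * ((t : ℝ) + 2)) l.length * dist y u + ε :=
    fun l hl i y hy u hu => (hG2 l hl i y hy u hu).1
  have hG2b : ∀ l : List (Fin k), l.length + 1 ≤ n → ∀ i, ∀ y ∈ A (cls r l), ∀ u ∈ A i,
      ‖G l y - G (l ++ [i]) u‖ ≤ (fun t : ℕ => 5 * (h + t + 1) / √h) l.length * dist y u + ε :=
    fun l hl i y hy u hu => (hG2 l hl i y hy u hu).2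
  -- radii
  let Rb : Fin N → ℕ → ℝ := fun b j => (1 + (b : ℝ) / N) * sc s0 j
  have hβ0 : ∀ b : Fin N, (0 : ℝ) ≤ (b : ℝ) / N := fun b => by positivity
  have hβ1 : ∀ b : Fin N, (b : ℝ) / N < 1 := by
    intro b
    rw [div_lt_one hN']
    exact_mod_cast b.2
  have hscp : ∀ j, 0 < sc s0 j := fun j => by unfold sc; positivity
  have hRbp : ∀ b j, 0 < Rb b j := fun b j => mul_pos (by linarith [hβ0 b]) (hscp j)
  have hRb4 : ∀ b j, Rb b (j + 1) = Rb b j / 4 := by
    intro b j
    simp only [Rb, sc]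
    rw [pow_succ]
    field_simp
  have hRb0 : ∀ b, s0 ≤ Rb b 0 := by
    intro b
    simp only [Rb, sc, pow_zero, div_one]
    nlinarith [hβ0 b]
  have hRbn : ∀ b, Rb b n < δ0 := by
    intro b
    refine lt_of_le_of_lt ?_ hn
    simp only [Rb, sc]
    rw [mul_div_assoc']
    apply div_le_div_of_nonneg_right _ (by positivity)
    nlinarith [hβ1 b]
  have hch := fun (ω : Equiv.Perm (Fin k) × Fin N) =>
    exists_chain A hne hcov (Rb ω.2) (hRbp ω.2) (pri r ω.1)
  choose i z hi1 hi2 hz1 hz2 using hch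
  have hzn : ∀ ω x, z ω n x = x := by
    intro ω x
    by_contra hne'
    have h1 := hδ0' _ _ (Ne.symm hne')
    have h2 := hz2 ω n x
    have h3 := hRbn ω.2
    linarith
  have hinf : ∀ x c, Metric.infDist x (A c) ≤ s0 := by
    intro x c
    obtain ⟨y, hy⟩ := hne c
    exact (Metric.infDist_le_dist_of_mem hy).trans (hs0' x y)
  have hroot : ∀ ω j x, Metric.infDist x (A r) ≤ Rb ω.2 j → i ω j x = r := by
    intro ω j x hx
    exact pri_inj r ω.1 (le_antisymm (hi2 ω j x r hx) (pri_root r ω.1 _))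
  have hi0 : ∀ ω x, i ω 0 x = r := fun ω x =>
    hroot ω 0 x ((hinf x r).trans (hRb0 ω.2))
  set P : Equiv.Perm (Fin k) × Fin N → X → H := fun ω x => PP (i ω) (z ω) G n x with hP
  have hcardΩ : (Fintype.card (Equiv.Perm (Fin k) × Fin N) : ℝ) =
      Fintype.card (Equiv.Perm (Fin k)) * N := by
    rw [Fintype.card_prod, Fintype.card_fin]; push_cast; ring
  have hcP : (0 : ℝ) < Fintype.card (Equiv.Perm (Fin k)) := by
    exact_mod_cast Fintype.card_pos
  have hcΩ : (0 : ℝ) < Fintype.card (Equiv.Perm (Fin k) × Fin N) := by rw [hcardΩ]; positivity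
  refine ⟨fun x => (Fintype.card (Equiv.Perm (Fin k) × Fin N) : ℝ)⁻¹ • ∑ ω, P ω x, ?_, ?_⟩
  · intro x y
    by_cases hxy : x = y
    · subst hxy; simp
    have hδ := hδ0' x y hxy
    set δ := dist x y with hδdef
    have hδp : 0 < δ := by linarith
    set m : Fin k → ℝ := fun c => min (Metric.infDist x (A c)) (Metric.infDist y (A c)) with hm
    -- reduction to the sum of norms
    have hred : ‖(Fintype.card (Equiv.Perm (Fin k) × Fin N) : ℝ)⁻¹ • ∑ ω, P ω x - (Fintype.card (Equiv.Perm (Fin k) × Fin N) : ℝ)⁻¹ • ∑ ω, P ω y‖ ≤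
        (Fintype.card (Equiv.Perm (Fin k) × Fin N) : ℝ)⁻¹ * ∑ ω, ‖P ω x - P ω y‖ := by
      rw [← smul_sub, norm_smul, ← Finset.sum_sub_distrib, Real.norm_of_nonneg (by positivity)]
      exact mul_le_mul_of_nonneg_left (norm_sum_le _ _) (by positivity)
    refine hred.trans ?_
    rw [inv_mul_le_iff₀ hcΩ]
    -- pointwise bound
    let rc : Equiv.Perm (Fin k) → Fin k → ℝ := fun σ c => if rec' r m σ c then 1 else 0
    let rc2 : Equiv.Perm (Fin k) → Fin k → Fin k → ℝ := fun σ c c' =>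
      if rec' r m σ c ∧ rec' r m σ c' ∧ m c < m c' then 1 else 0
    let J : Fin N → Fin k → ℝ := fun b c => ∑ p ∈ Finset.range n,
      (if δ ≤ sc s0 (p + 1) ∧ m c ≤ (1 + (b : ℝ) / N) * sc s0 (p + 1) ∧
        (1 + (b : ℝ) / N) * sc s0 (p + 1) < m c + δ then (1 + (b : ℝ) / N) * sc s0 (p + 1) else 0)
    have hJ0 : ∀ b c, 0 ≤ J b c := by
      intro b c
      refine Finset.sum_nonneg fun p _ => ?_
      split_ifs
      · exact (hRbp b (p + 1)).le
      · exact le_rfl
    have hrc0 : ∀ σ c, 0 ≤ rc σ c := fun σ c => by simp only [rc]; split_ifs <;> norm_num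
    have hrc20 : ∀ σ c c', 0 ≤ rc2 σ c c' := fun σ c c' => by
      simp only [rc2]; split_ifs <;> norm_num
    have hpt : ∀ ω : Equiv.Perm (Fin k) × Fin N, ‖P ω x - P ω y‖ ≤ 3 * δ + 88 / √h * (2 * δ * (h + 4 + ∑ c, rc ω.1 c) +
        ∑ c, J ω.2 c * (rc ω.1 c * (h + 4) + ∑ c', rc2 ω.1 c c')) := by
      intro ω
      have hrest : 0 ≤ 88 / √h * (2 * δ * (h + 4 + ∑ c, rc ω.1 c) +
        ∑ c, J ω.2 c * (rc ω.1 c * (h + 4) + ∑ c', rc2 ω.1 c c')) := by
        have h1 : 0 ≤ ∑ c, rc ω.1 c := Finset.sum_nonneg fun c _ => hrc0 _ c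
        have h2 : 0 ≤ ∑ c, J ω.2 c * (rc ω.1 c * (h + 4) + ∑ c', rc2 ω.1 c c') := by
          refine Finset.sum_nonneg fun c _ => mul_nonneg (hJ0 _ c) (add_nonneg
            (mul_nonneg (hrc0 _ c) (by linarith)) (Finset.sum_nonneg fun c' _ => hrc20 _ c c'))
        positivity
      rcases pair_det A (i ω) (z ω) (Rb ω.2) n r G ε (hRb4 ω.2) (hRbp ω.2) (hi0 ω) (hz1 ω)
        (hz2 ω) hε (fun t : ℕ => 5 * (h + t + 1) / √h) (fun t : ℕ => 9 * (h + t + 3) / √h)
        (fun t => by
          have ht : (0 : ℝ) ≤ t := Nat.cast_nonneg t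
          show 2 ≤ 5 * (h + t + 1) / √h
          rw [le_div_iff₀ hsq]; nlinarith)
        (fun t => by positivity)
        (fun t => by
          push_cast
          apply div_le_div_of_nonneg_right _ hsq.le
          linarith)
        (fun t => by
          have ht : (0 : ℝ) ≤ t := Nat.cast_nonneg t
          push_cast
          rw [div_mul_eq_mul_div, div_div, ← sub_nonneg]
          have : 9 * (h + t + 3) / √h - (5 * (h + t + 1) * (5 / 4) / √h +
              9 * (h + (t + 1) + 3) / (√h * 4)) =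
              (9 * (h + t + 3) - 5 * (h + t + 1) * (5 / 4) - 9 * (h + (t + 1) + 3) / 4) / √h := by
            field_simp
            ring
          rw [this]
          apply div_nonneg _ hsq.le
          linarith)
        hG1 hG2b (pri r ω.1) (pri_inj r ω.1) (fun c x => Metric.infDist x (A c))
        (fun c x y => by
          have := Metric.infDist_le_infDist_add_dist (s := A c) (x := y) (y := x)
          rwa [dist_comm y x] at this)
        (hi1 ω) (hi2 ω) (hzn ω) x y m (fun c => rfl) with hcase | hcase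
      · rw [hε2] at hcase
        have hcase' : ‖P ω x - P ω y‖ ≤ 2 * δ + δ0 := hcase
        linarith
      · obtain ⟨p, hp, c, hc1, hc2, hc3, hc4⟩ := hcase
        rw [hε2] at hc4
        set Fc := (Finset.univ.filter fun c' =>
          (∀ c'', m c'' ≤ m c' → pri r ω.1 c' ≤ pri r ω.1 c'') ∧ m c < m c') with hFc
        have hrcc : rc ω.1 c = 1 := by
          simp only [rc]; rw [if_pos]; exact hc1
        have hFcr : (Fc.card : ℝ) = ∑ c', rc2 ω.1 c c' := by
          rw [hFc, Finset.card_filter]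
          push_cast
          refine Finset.sum_congr rfl fun c' _ => ?_
          simp only [rc2]
          by_cases hh : rec' r m ω.1 c' ∧ m c < m c'
          · rw [if_pos (show (∀ c'', m c'' ≤ m c' → pri r ω.1 c' ≤ pri r ω.1 c'') ∧
              m c < m c' from hh), if_pos (show rec' r m ω.1 c ∧ rec' r m ω.1 c' ∧ m c < m c'
              from ⟨hc1, hh⟩)]
          · rw [if_neg (show ¬ ((∀ c'', m c'' ≤ m c' → pri r ω.1 c' ≤ pri r ω.1 c'') ∧
              m c < m c') from hh), if_neg (fun h => hh h.2)]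
        have hFcle : (Fc.card : ℝ) ≤ ∑ c', rc ω.1 c' := by
          rw [hFcr]
          refine Finset.sum_le_sum fun c' _ => ?_
          simp only [rc2, rc]
          by_cases hh : rec' r m ω.1 c'
          · rw [if_pos hh]; split_ifs <;> norm_num
          · rw [if_neg hh, if_neg (fun h => hh h.2.1)]
        have hFc0 : (0 : ℝ) ≤ Fc.card := Nat.cast_nonneg _
        have hbound : Rb ω.2 (p + 1) *
            (8 * (9 * (h + ((Fc.card + 1 : ℕ) : ℝ) + 3) / √h) + 16) ≤
            88 / √h * (Rb ω.2 (p + 1) * (h + 4 + Fc.card)) := by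
          have h1 : 8 * (9 * (h + ((Fc.card + 1 : ℕ) : ℝ) + 3) / √h) + 16 ≤
              88 / √h * (h + 4 + Fc.card) := by
            push_cast
            rw [← sub_nonneg]
            have : 88 / √h * (h + 4 + (Fc.card : ℝ)) -
                (8 * (9 * (h + ((Fc.card : ℝ) + 1) + 3) / √h) + 16) =
                (16 * (h + 4 + Fc.card) - 16 * √h) / √h := by
              field_simp
              ring
            rw [this]
            apply div_nonneg _ hsq.le
            nlinarith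
          calc _ ≤ Rb ω.2 (p + 1) * (88 / √h * (h + 4 + Fc.card)) :=
                mul_le_mul_of_nonneg_left h1 (hRbp _ _).le
            _ = _ := by ring
        have hmain : Rb ω.2 (p + 1) * (h + 4 + Fc.card) ≤
            2 * δ * (h + 4 + ∑ c, rc ω.1 c) +
            ∑ c, J ω.2 c * (rc ω.1 c * (h + 4) + ∑ c', rc2 ω.1 c c') := by
          have hn1 : 0 ≤ 2 * δ * (h + 4 + ∑ c, rc ω.1 c) := by
            have h1 : 0 ≤ ∑ c, rc ω.1 c := Finset.sum_nonneg fun c _ => hrc0 _ c
            positivity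
          have hn2 : ∀ c, 0 ≤ J ω.2 c * (rc ω.1 c * (h + 4) + ∑ c', rc2 ω.1 c c') :=
            fun c => mul_nonneg (hJ0 _ c) (add_nonneg
              (mul_nonneg (hrc0 _ c) (by linarith)) (Finset.sum_nonneg fun c' _ => hrc20 _ c c'))
          by_cases hs : δ ≤ sc s0 (p + 1)
          · have h1 : Rb ω.2 (p + 1) ≤ J ω.2 c := by
              have h2 := Finset.single_le_sum (f := fun p => (if δ ≤ sc s0 (p + 1) ∧
                m c ≤ (1 + (ω.2 : ℝ) / N) * sc s0 (p + 1) ∧
                (1 + (ω.2 : ℝ) / N) * sc s0 (p + 1) < m c + δ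
                then (1 + (ω.2 : ℝ) / N) * sc s0 (p + 1) else 0)) (s := Finset.range n)
                (fun p _ => by
                  show (0 : ℝ) ≤ (if δ ≤ sc s0 (p + 1) ∧
                    m c ≤ (1 + (ω.2 : ℝ) / N) * sc s0 (p + 1) ∧
                    (1 + (ω.2 : ℝ) / N) * sc s0 (p + 1) < m c + δ
                    then (1 + (ω.2 : ℝ) / N) * sc s0 (p + 1) else 0)
                  split_ifs
                  · exact (hRbp ω.2 (p + 1)).le
                  · exact le_rfl) (Finset.mem_range.2 hp)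
              rw [if_pos ⟨hs, hc2, hc3⟩] at h2
              exact h2
            have h3 : J ω.2 c * (rc ω.1 c * (h + 4) + ∑ c', rc2 ω.1 c c') ≤
                ∑ c, J ω.2 c * (rc ω.1 c * (h + 4) + ∑ c', rc2 ω.1 c c') :=
              Finset.single_le_sum (f := fun c => J ω.2 c *
                (rc ω.1 c * (h + 4) + ∑ c', rc2 ω.1 c c')) (fun c _ => hn2 c)
                (Finset.mem_univ c)
            rw [hrcc, one_mul, ← hFcr] at h3
            have h4 : Rb ω.2 (p + 1) * (h + 4 + Fc.card) ≤ J ω.2 c * (h + 4 + Fc.card) :=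
              mul_le_mul_of_nonneg_right h1 (by positivity)
            linarith
          · push Not at hs
            have h1 : Rb ω.2 (p + 1) ≤ 2 * δ := by
              simp only [Rb]
              nlinarith [hβ1 ω.2, hscp (p + 1)]
            have h2 : 0 ≤ ∑ c, J ω.2 c * (rc ω.1 c * (h + 4) + ∑ c', rc2 ω.1 c c') :=
              Finset.sum_nonneg fun c _ => hn2 c
            have h3 : Rb ω.2 (p + 1) * (h + 4 + Fc.card) ≤ 2 * δ * (h + 4 + ∑ c, rc ω.1 c) := by
              apply mul_le_mul h1 _ (by positivity) (by positivity)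
              linarith
            linarith
        have h88 : (0 : ℝ) ≤ 88 / √h := by positivity
        have hfin := mul_le_mul_of_nonneg_left hmain h88
        have hc4' : ‖P ω x - P ω y‖ ≤ 2 * δ + δ0 + Rb ω.2 (p + 1) *
            (8 * (9 * (h + ((Fc.card + 1 : ℕ) : ℝ) + 3) / √h) + 16) := by convert hc4
        linarith
    refine (Finset.sum_le_sum fun ω _ => hpt ω).trans ?_
    -- summation
    set Pc : ℝ := (Fintype.card (Equiv.Perm (Fin k)) : ℝ) with hPc
    have hsrc : ∀ c, ∑ σ, rc σ c ≤ qq r m c * Pc := by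
      intro c
      have := rec_card r m c
      rw [Finset.card_filter] at this
      push_cast at this
      exact this
    have hsrc2 : ∀ c c', ∑ σ, rc2 σ c c' ≤ qq r m c * qq r m c' * Pc := by
      intro c c'
      by_cases hcc : m c < m c'
      · have := rec_card2 r m c c' hcc
        rw [Finset.card_filter] at this
        push_cast at this
        refine le_trans (le_of_eq (Finset.sum_congr rfl fun σ _ => ?_)) this
        simp only [rc2, hcc, and_true]
      · have : ∀ σ, rc2 σ c c' = 0 := by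
          intro σ; simp [rc2, hcc]
        simp only [this, Finset.sum_const_zero]
        exact mul_nonneg (mul_nonneg (qq_nonneg _ _ _) (qq_nonneg _ _ _)) hcP.le
    have hsJ : ∀ c, ∑ b, J b c ≤ 4 * δ * N := by
      intro c
      exact radius_avg N n hN s0 (m c) δ hs0 hδp (by nlinarith)
    have hq := sum_qq r m
    rw [← hh_def] at hq
    have hq0 : 0 ≤ ∑ c, qq r m c := Finset.sum_nonneg fun c _ => qq_nonneg _ _ _
    have S1 : ∑ ω : Equiv.Perm (Fin k) × Fin N, (3 * δ + 88 / √h * (2 * δ * (h + 4 + ∑ c, rc ω.1 c) +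
        ∑ c, J ω.2 c * (rc ω.1 c * (h + 4) + ∑ c', rc2 ω.1 c c'))) =
        Pc * N * (3 * δ) + 88 / √h * (2 * δ * (Pc * N * (h + 4) + N * ∑ c, ∑ σ, rc σ c) +
          ∑ c, (∑ b, J b c) * ((∑ σ, rc σ c) * (h + 4) + ∑ c', ∑ σ, rc2 σ c c')) := by
      rw [sum_shape (3 * δ) (88 / √h) (2 * δ) (h + 4)
        (fun ω : Equiv.Perm (Fin k) × Fin N => ∑ c, rc ω.1 c)
        (fun ω => ∑ c, J ω.2 c * (rc ω.1 c * (h + 4) + ∑ c', rc2 ω.1 c c'))]
      have a1 : ∑ _ω : Equiv.Perm (Fin k) × Fin N, 3 * δ = Pc * N * (3 * δ) := by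
        rw [Finset.sum_const, Finset.card_univ, nsmul_eq_mul, hcardΩ]
      have a2 : ∑ _ω : Equiv.Perm (Fin k) × Fin N, (h + 4) = Pc * N * (h + 4) := by
        rw [Finset.sum_const, Finset.card_univ, nsmul_eq_mul, hcardΩ]
      have a3 : ∑ ω : Equiv.Perm (Fin k) × Fin N, ∑ c, rc ω.1 c = N * ∑ c, ∑ σ, rc σ c := by
        rw [Fintype.sum_prod_type]
        have : ∀ σ : Equiv.Perm (Fin k), ∑ _b : Fin N, ∑ c, rc σ c = N * ∑ c, rc σ c := by
          intro σ
          rw [Finset.sum_const, Finset.card_univ, nsmul_eq_mul, Fintype.card_fin]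
        simp only [this]
        rw [← Finset.mul_sum, Finset.sum_comm]
      have a4 : ∑ ω : Equiv.Perm (Fin k) × Fin N, ∑ c, J ω.2 c * (rc ω.1 c * (h + 4) + ∑ c', rc2 ω.1 c c') =
          ∑ c, (∑ b, J b c) * ((∑ σ, rc σ c) * (h + 4) + ∑ c', ∑ σ, rc2 σ c c') := by
        rw [Finset.sum_comm]
        refine Finset.sum_congr rfl fun c _ => ?_
        rw [Fintype.sum_prod_type]
        have b1 : ∀ σ : Equiv.Perm (Fin k), ∑ b : Fin N,
            J b c * (rc σ c * (h + 4) + ∑ c', rc2 σ c c') =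
            (∑ b, J b c) * (rc σ c * (h + 4) + ∑ c', rc2 σ c c') := by
          intro σ
          rw [Finset.sum_mul]
        simp only [b1]
        rw [← Finset.mul_sum, Finset.sum_add_distrib, ← Finset.sum_mul]
        congr 2
        exact Finset.sum_comm
      rw [a1, a2, a3, a4]
    rw [S1]
    have S2 : ∑ c, ∑ σ, rc σ c ≤ h * Pc := by
      refine (Finset.sum_le_sum fun c _ => hsrc c).trans ?_
      rw [← Finset.sum_mul]
      exact mul_le_mul_of_nonneg_right hq hcP.le
    have S3 : ∀ c, (∑ b, J b c) * ((∑ σ, rc σ c) * (h + 4) + ∑ c', ∑ σ, rc2 σ c c') ≤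
        4 * δ * N * (qq r m c * Pc * (h + 4 + h)) := by
      intro c
      have hqc := qq_nonneg r m c
      have c1 : ∑ c', ∑ σ, rc2 σ c c' ≤ qq r m c * Pc * h := by
        refine (Finset.sum_le_sum fun c' _ => hsrc2 c c').trans ?_
        have : ∀ c', qq r m c * qq r m c' * Pc = qq r m c * Pc * qq r m c' := fun c' => by ring
        simp only [this]
        rw [← Finset.mul_sum]
        exact mul_le_mul_of_nonneg_left hq (by positivity)
      have c2 : (∑ σ, rc σ c) * (h + 4) ≤ qq r m c * Pc * (h + 4) :=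
        mul_le_mul_of_nonneg_right (hsrc c) (by linarith)
      have c3 : 0 ≤ (∑ σ, rc σ c) * (h + 4) + ∑ c', ∑ σ, rc2 σ c c' :=
        add_nonneg (mul_nonneg (Finset.sum_nonneg fun σ _ => hrc0 σ c) (by linarith))
          (Finset.sum_nonneg fun c' _ => Finset.sum_nonneg fun σ _ => hrc20 σ c c')
      apply mul_le_mul (hsJ c) _ c3 (by positivity)
      linarith
    have S4 : ∑ c, (∑ b, J b c) * ((∑ σ, rc σ c) * (h + 4) + ∑ c', ∑ σ, rc2 σ c c') ≤
        4 * δ * N * (h * Pc * (h + 4 + h)) := by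
      refine (Finset.sum_le_sum fun c _ => S3 c).trans ?_
      rw [← Finset.mul_sum]
      apply mul_le_mul_of_nonneg_left _ (by positivity)
      rw [← Finset.sum_mul, ← Finset.sum_mul]
      gcongr
    have h88 : (0 : ℝ) ≤ 88 / √h := by positivity
    have S5 : 2 * δ * (Pc * N * (h + 4) + N * ∑ c, ∑ σ, rc σ c) ≤
        2 * δ * (Pc * N * (h + 4) + N * (h * Pc)) := by gcongr
    have S6 := mul_le_mul_of_nonneg_left (add_le_add S5 S4) h88
    refine (add_le_add le_rfl S6).trans ?_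
    rw [hcardΩ]
    have S7 : 88 / √h * (2 * δ * (Pc * N * (h + 4) + N * (h * Pc)) +
        4 * δ * N * (h * Pc * (h + 4 + h))) = Pc * N * δ *
          (88 / √h * ((2 + 4 * h) * (2 * h + 4))) := by ring
    rw [S7]
    have S8 : 88 / √h * ((2 + 4 * h) * (2 * h + 4)) ≤ 3168 * (h * √h) := by
      rw [div_mul_eq_mul_div, div_le_iff₀ hsq]
      have : 3168 * (h * √h) * √h = 3168 * (h * h) := by
        rw [mul_assoc, mul_assoc, hsq2]
      rw [this]
      nlinarith
    have S9 : Pc * N * δ * (88 / √h * ((2 + 4 * h) * (2 * h + 4))) ≤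
        Pc * N * δ * (3168 * (h * √h)) := mul_le_mul_of_nonneg_left S8 (by positivity)
    have S10 : (1 : ℝ) ≤ h * √h := by nlinarith
    have S11 : Pc * N * (3 * δ) ≤ Pc * N * δ * (3 * (h * √h)) := by
      have : Pc * N * (3 * δ) = Pc * N * δ * 3 := by ring
      rw [this]
      apply mul_le_mul_of_nonneg_left _ (by positivity)
      linarith
    calc _ ≤ Pc * N * δ * (3 * (h * √h)) + Pc * N * δ * (3168 * (h * √h)) := add_le_add S11 S9
      _ = _ := by ring
  · intro x s hs
    have hx : ∀ ω : Equiv.Perm (Fin k) × Fin N, ‖P ω x - g r s‖ ≤ 114 * dist x s := by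
      intro ω
      by_cases hxs : x = s
      · subst hxs
        have h0 : Metric.infDist x (A r) = 0 := Metric.infDist_zero_of_mem hs
        have hnil : ∀ p, lst (i ω) p x = [] := by
          intro p
          induction p with
          | zero => rfl
          | succ p ih =>
            unfold lst
            rw [hroot ω (p + 1) x (by rw [h0]; exact (hRbp _ _).le),
              hroot ω p x (by rw [h0]; exact (hRbp _ _).le)]
            simpa using ih
        simp only [hP]
        unfold PP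
        rw [hnil n, hzn, hG0]
        simp
      have hδ := hδ0' x s hxs
      have h1 := root_det A (i ω) (z ω) (Rb ω.2) n r G ε (hRb4 ω.2) (hRbp ω.2) (hi0 ω) (hz1 ω)
        (hz2 ω) hε hG1 hG2a (fun x hx y hy => by rw [hG0]; exact hg r x hx y hy)
        (fun c x => Metric.infDist x (A c)) (hroot ω) (hzn ω) x s hs
        ((hinf x r).trans (hRb0 ω.2)) (Metric.infDist_le_dist_of_mem hs)
      rw [hG0] at h1
      have h1' : ‖P ω x - g r s‖ ≤ 113 * dist x s + n * ε := h1
      linarith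
    have e1 : (Fintype.card (Equiv.Perm (Fin k) × Fin N) : ℝ)⁻¹ • ∑ ω, P ω x - g r s =
        (Fintype.card (Equiv.Perm (Fin k) × Fin N) : ℝ)⁻¹ • ∑ ω, (P ω x - g r s) := by
      rw [Finset.sum_sub_distrib, Finset.sum_const, Finset.card_univ, smul_sub,
        ← Nat.cast_smul_eq_nsmul ℝ, smul_smul, inv_mul_cancel₀ hcΩ.ne', one_smul]
    show ‖(Fintype.card (Equiv.Perm (Fin k) × Fin N) : ℝ)⁻¹ • ∑ ω, P ω x - g r s‖ ≤ 114 * dist x s
    rw [e1, norm_smul, Real.norm_of_nonneg (by positivity), inv_mul_le_iff₀ hcΩ]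
    refine (norm_sum_le _ _).trans ((Finset.sum_le_sum fun ω _ => hx ω).trans ?_)
    rw [Finset.sum_const, Finset.card_univ, nsmul_eq_mul]

end Pool.Agent.H80U
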