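import Pool.Agent.H80U.Gauss

/-!
From finite subsets to the whole space, and from separable Hilbert spaces to `ℓ²(ℕ)`.
-/

open Finset Filter Topology

namespace Pool.Agent.H80U

/-- compactness for bi-Lipschitz embeddings into Hilbert space -/
theorem finite_to_all.{u} {X : Type u} [MetricSpace X] (D : ℝ)
    (hfin : ∀ S : Finset X, ∃ (H : Type) (_ : NormedAddCommGroup H) (_ : InnerProductSpace ℝ H)
      (f : X → H), ∀ x ∈ S, ∀ y ∈ S, dist x y ≤ ‖f x - f y‖ ∧ ‖f x - f y‖ ≤ D * dist x y) :
    ∃ (H : Type u) (_ : NormedAddCommGroup H) (_ : InnerProductSpace ℝ H) (_ : CompleteSpace H)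
      (f : X → H), ∀ x y, dist x y ≤ ‖f x - f y‖ ∧ ‖f x - f y‖ ≤ D * dist x y := by
  classical
  by_cases hX : IsEmpty X
  · obtain ⟨H, i1, i2, i3, f, -⟩ := exists_gram (X := X) (fun _ _ => 0) (fun _ _ => rfl)
      (fun c => by simp)
    exact ⟨H, i1, i2, i3, f, fun x => (hX.false x).elim⟩
  rw [not_isEmpty_iff] at hX
  obtain ⟨x0⟩ := hX
  choose H i1 i2 f hf using hfin
  set K : Finset X → X → X → ℝ := fun S x y =>
    (inner ℝ (f S x - f S x0) (f S y - f S x0) : ℝ) with hK
  let U : Ultrafilter (Finset X) := Ultrafilter.of atTop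
  have hU : (U : Filter (Finset X)) ≤ atTop := Ultrafilter.of_le atTop
  have hmem : ∀ x : X, ∀ᶠ S in (U : Filter (Finset X)), x ∈ S := fun x =>
    hU (by
      filter_upwards [mem_atTop ({x} : Finset X)] with S hS
      exact hS (Finset.mem_singleton_self x))
  have hbd : ∀ x y, ∀ᶠ S in (U : Filter (Finset X)),
      K S x y ∈ Set.Icc (-(D * dist x x0 * (D * dist y x0))) (D * dist x x0 * (D * dist y x0)) := by
    intro x y
    filter_upwards [hmem x, hmem y, hmem x0] with S hx hy h0
    rw [Set.mem_Icc, ← abs_le]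
    refine (abs_real_inner_le_norm _ _).trans ?_
    have h1 := (hf S x hx x0 h0).2
    have h2 := (hf S y hy x0 h0).2
    have h3 : 0 ≤ D * dist x x0 := (norm_nonneg _).trans h1
    exact mul_le_mul h1 h2 (norm_nonneg _) h3
  have hlim : ∀ x y, ∃ k : ℝ, Tendsto (fun S => K S x y) (U : Filter (Finset X)) (𝓝 k) := by
    intro x y
    have hc : IsCompact (Set.Icc (-(D * dist x x0 * (D * dist y x0)))
      (D * dist x x0 * (D * dist y x0))) := isCompact_Icc
    obtain ⟨k, -, hk⟩ := hc.ultrafilter_le_nhds (U.map fun S => K S x y)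
      (by
        rw [le_principal_iff]
        exact hbd x y)
    exact ⟨k, hk⟩
  choose k hk using hlim
  have hks : ∀ x y, k x y = k y x := by
    intro x y
    refine tendsto_nhds_unique (hk x y) ((hk y x).congr fun S => ?_)
    exact real_inner_comm _ _
  obtain ⟨H', j1, j2, j3, g, hg⟩ := exists_gram k hks (fun c => by
    have h1 : Tendsto (fun S => c.sum fun x a => c.sum fun y b => a * b * K S x y)
        (U : Filter (Finset X)) (𝓝 (c.sum fun x a => c.sum fun y b => a * b * k x y)) := by
      unfold Finsupp.sum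
      exact tendsto_finset_sum _ fun x _ => tendsto_finset_sum _ fun y _ =>
        (hk x y).const_mul _
    refine ge_of_tendsto h1 (Eventually.of_forall fun S => ?_)
    have h2 : (c.sum fun x a => c.sum fun y b => a * b * K S x y) =
        inner ℝ (c.sum fun x a => a • (f S x - f S x0)) (c.sum fun y b => b • (f S y - f S x0)) := by
      unfold Finsupp.sum
      rw [sum_inner]
      refine Finset.sum_congr rfl fun x _ => ?_
      rw [inner_sum]
      refine Finset.sum_congr rfl fun y _ => ?_
      rw [real_inner_smul_left, real_inner_smul_right, hK]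
      ring
    rw [h2]
    exact real_inner_self_nonneg)
  refine ⟨H', j1, j2, j3, g, fun x y => ?_⟩
  have hsq : Tendsto (fun S => ‖f S x - f S y‖ ^ 2) (U : Filter (Finset X))
      (𝓝 (‖g x - g y‖ ^ 2)) := by
    have e1 : ‖g x - g y‖ ^ 2 = k x x - 2 * k x y + k y y := by
      rw [norm_sub_sq_real, ← real_inner_self_eq_norm_sq, ← real_inner_self_eq_norm_sq,
        hg, hg, hg]
    have e2 : ∀ S, ‖f S x - f S y‖ ^ 2 = K S x x - 2 * K S x y + K S y y := by
      intro S
      have : f S x - f S y = (f S x - f S x0) - (f S y - f S x0) := by abel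
      rw [this, norm_sub_sq_real, ← real_inner_self_eq_norm_sq, ← real_inner_self_eq_norm_sq]
    rw [e1]
    simp only [e2]
    exact ((hk x x).sub ((hk x y).const_mul 2)).add (hk y y)
  have hn : Tendsto (fun S => ‖f S x - f S y‖) (U : Filter (Finset X)) (𝓝 ‖g x - g y‖) := by
    have := hsq.sqrt
    simpa [Real.sqrt_sq (norm_nonneg _)] using this
  constructor
  · refine ge_of_tendsto hn ?_
    filter_upwards [hmem x, hmem y] with S hx hy
    exact (hf S x hx y hy).1
  · refine le_of_tendsto hn ?_
    filter_upwards [hmem x, hmem y] with S hx hy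
    exact (hf S x hx y hy).2

/-- an orthonormal family in a separable space is countable -/
lemma orthonormal_countable {E ι : Type*} [NormedAddCommGroup E] [InnerProductSpace ℝ E]
    [TopologicalSpace.SeparableSpace E] {v : ι → E} (hv : Orthonormal ℝ v) : Countable ι := by
  refine Pairwise.countable_of_isOpen_disjoint (s := fun i => Metric.ball (v i) (1 / 2)) ?_
    (fun i => Metric.isOpen_ball) (fun i => ⟨v i, Metric.mem_ball_self (by norm_num)⟩)
  intro i j hij
  show Disjoint _ _
  refine Metric.ball_disjoint_ball ?_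
  have h1 : ‖v i - v j‖ ^ 2 = 2 := by
    rw [norm_sub_sq_real, hv.1 i, hv.1 j, hv.2 hij]; norm_num
  rw [dist_eq_norm]
  nlinarith [norm_nonneg (v i - v j)]

/-- `ℓ²(ℕ)` is separable -/
lemma l2_separable : TopologicalSpace.SeparableSpace (lp (fun _ : ℕ => ℝ) 2) := by
  have b : HilbertBasis ℕ ℝ (lp (fun _ : ℕ => ℝ) 2) :=
    HilbertBasis.ofRepr (LinearIsometryEquiv.refl ℝ _)
  have h1 := b.dense_span
  have h2 : TopologicalSpace.IsSeparable (Set.range b) := (Set.countable_range b).isSeparable
  have h3 := (h2.span (R := ℝ)).closure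
  rw [← Submodule.topologicalClosure_coe, h1, Submodule.top_coe] at h3
  exact TopologicalSpace.isSeparable_univ_iff.1 h3

/-- a separable subset of a Hilbert space embeds isometrically into `ℓ²(ℕ)` -/
theorem to_l2 {X : Type*} {H : Type*} [NormedAddCommGroup H] [InnerProductSpace ℝ H]
    [CompleteSpace H] (f : X → H) (hf : TopologicalSpace.IsSeparable (Set.range f)) :
    ∃ F : X → lp (fun _ : ℕ => ℝ) 2, ∀ x y, ‖F x - F y‖ = ‖f x - f y‖ := by
  classical
  set E : Submodule ℝ H := (Submodule.span ℝ (Set.range f)).topologicalClosure with hE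
  have hsep : TopologicalSpace.IsSeparable (E : Set H) := by
    rw [hE, Submodule.topologicalClosure_coe]
    exact (hf.span (R := ℝ)).closure
  haveI : TopologicalSpace.SeparableSpace E := hsep.separableSpace
  haveI : CompleteSpace E :=
    (Submodule.isClosed_topologicalClosure (Submodule.span ℝ (Set.range f))).completeSpace_coe
  obtain ⟨w, b, hb⟩ := exists_hilbertBasis ℝ E
  haveI : Countable w := orthonormal_countable b.orthonormal
  obtain ⟨e, he⟩ := exists_injective_nat w
  have b0 : HilbertBasis ℕ ℝ (lp (fun _ : ℕ => ℝ) 2) :=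
    HilbertBasis.ofRepr (LinearIsometryEquiv.refl ℝ _)
  have ho : Orthonormal ℝ (fun i : w => b0 (e i)) := b0.orthonormal.comp e he
  let T : E →ₗᵢ[ℝ] lp (fun _ : ℕ => ℝ) 2 :=
    ho.orthogonalFamily.linearIsometry.comp b.repr.toLinearIsometry
  have hmem : ∀ x, f x ∈ E := fun x =>
    Submodule.le_topologicalClosure _ (Submodule.subset_span ⟨x, rfl⟩)
  refine ⟨fun x => T ⟨f x, hmem x⟩, fun x y => ?_⟩
  rw [← map_sub, LinearIsometry.norm_map]
  rfl

end Pool.Agent.H80U
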