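import Pool.Agent.H80U.Embed
import Pool.Agent.H80U.Limit

/-!
The polylogarithmic bound for arbitrary metric spaces.
-/

open Finset

namespace Pool.Agent.H80U

/-- points of a finite subset, in `Type` -/
def Pt (n : ℕ) : Type := Fin n

instance (n : ℕ) : Fintype (Pt n) := inferInstanceAs (Fintype (Fin n))

theorem finite_subset_embed.{u} {k : ℕ} {X : Type u} [MetricSpace X] (A : Fin k → Set X)
    (hcov : ∀ x, ∃ i, x ∈ A i) {H : Type} [NormedAddCommGroup H] [InnerProductSpace ℝ H]
    (g : Fin k → X → H) (hg : ∀ i, ∀ x ∈ A i, ∀ y ∈ A i, ‖g i x - g i y‖ = dist x y)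
    (S : Finset X) :
    ∃ (H' : Type) (_ : NormedAddCommGroup H') (_ : InnerProductSpace ℝ H')
      (f : X → H'), ∀ x ∈ S, ∀ y ∈ S, dist x y ≤ ‖f x - f y‖ ∧
        ‖f x - f y‖ ≤ 4000000 * (1 + Real.log k) ^ 2 * dist x y := by
  classical
  by_cases hS : S = ∅
  · subst hS
    exact ⟨ℝ, inferInstance, inferInstance, fun _ => 0, fun x hx => by simp at hx⟩
  obtain ⟨x0, hx0⟩ := Finset.nonempty_iff_ne_empty.2 hS
  obtain ⟨e⟩ : Nonempty (Pt S.card ≃ S) := ⟨(S.equivFin.symm : Fin S.card ≃ S)⟩
  let emb : Pt S.card → X := fun j => (e j : X)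
  have hemb : Function.Injective emb := fun a b h => e.injective (Subtype.ext h)
  let : MetricSpace (Pt S.card) := MetricSpace.induced emb hemb inferInstance
  have hd : ∀ a b : Pt S.card, dist a b = dist (emb a) (emb b) := fun a b => rfl
  obtain ⟨i0, hi0⟩ := hcov x0
  -- index replacement for classes missing `S`
  let s : Fin k → Fin k := fun i => if ∃ x ∈ S, x ∈ A i then i else i0
  obtain ⟨H', j1, j2, f, hf⟩ := finite_embed (X := Pt S.card) (fun i => emb ⁻¹' (A (s i)))
    (fun i => by
      by_cases h : ∃ x ∈ S, x ∈ A i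
      · obtain ⟨x, hx, hxA⟩ := h
        refine ⟨e.symm ⟨x, hx⟩, ?_⟩
        have hs : s i = i := if_pos ⟨x, hx, hxA⟩
        show emb (e.symm ⟨x, hx⟩) ∈ A (s i)
        rw [hs]
        simpa [emb] using hxA
      · refine ⟨e.symm ⟨x0, hx0⟩, ?_⟩
        have hs : s i = i0 := if_neg h
        show emb (e.symm ⟨x0, hx0⟩) ∈ A (s i)
        rw [hs]
        simpa [emb] using hi0)
    (fun a => by
      obtain ⟨i, hi⟩ := hcov (emb a)
      refine ⟨i, ?_⟩
      have hs : s i = i := if_pos ⟨emb a, (e a).2, hi⟩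
      show emb a ∈ A (s i)
      rw [hs]; exact hi)
    (fun i a => g (s i) (emb a))
    (fun i a ha b hb => hg (s i) _ ha _ hb)
  refine ⟨H', j1, j2, fun x => if hx : x ∈ S then f (e.symm ⟨x, hx⟩) else 0, ?_⟩
  intro x hx y hy
  have h1 := hf (e.symm ⟨x, hx⟩) (e.symm ⟨y, hy⟩)
  have h2 : dist (e.symm ⟨x, hx⟩) (e.symm ⟨y, hy⟩) = dist x y := by
    rw [hd]
    simp [emb]
  rw [h2] at h1
  simp only [dif_pos hx, dif_pos hy]
  exact h1

theorem main.{u} (k : ℕ) (X : Type u) [MetricSpace X] (A : Fin k → Set X)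
    (hcov : ⋃ i, A i = Set.univ)
    (hA : ∀ i, ∃ g : A i → lp (fun _ : ℕ => ℝ) 2, Isometry g) :
    ∃ f : X → lp (fun _ : ℕ => ℝ) 2, ∀ x y, dist x y ≤ ‖f x - f y‖ ∧
      ‖f x - f y‖ ≤ 4000000 * (1 + Real.log k) ^ 2 * dist x y := by
  classical
  have hcov' : ∀ x, ∃ i, x ∈ A i := by
    intro x
    have : x ∈ ⋃ i, A i := by rw [hcov]; exact Set.mem_univ x
    simpa using this
  choose g hg using hA
  let G : Fin k → X → lp (fun _ : ℕ => ℝ) 2 := fun i x => if hx : x ∈ A i then g i ⟨x, hx⟩ else 0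
  have hG : ∀ i, ∀ x ∈ A i, ∀ y ∈ A i, ‖G i x - G i y‖ = dist x y := by
    intro i x hx y hy
    simp only [G, dif_pos hx, dif_pos hy]
    rw [← dist_eq_norm, (hg i).dist_eq]
    rfl
  obtain ⟨H, i1, i2, i3, f, hf⟩ := finite_to_all (4000000 * (1 + Real.log k) ^ 2)
    (fun S => finite_subset_embed A hcov' G hG S)
  -- separability
  have := l2_separable
  have hsepA : ∀ i, TopologicalSpace.IsSeparable (A i) := by
    intro i
    have h1 : TopologicalSpace.IsSeparable (Set.range (g i)) :=
      TopologicalSpace.IsSeparable.of_separableSpace _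
    have h2 : Topology.IsInducing (g i) := (hg i).isUniformInducing.isInducing
    have h3 : TopologicalSpace.SeparableSpace (A i) := by
      have : SecondCountableTopology (A i) := by
        have : SecondCountableTopology (lp (fun _ : ℕ => ℝ) 2) :=
          UniformSpace.secondCountable_of_separable _
        exact h2.secondCountableTopology
      infer_instance
    exact TopologicalSpace.IsSeparable.of_subtype _
  have hsepX : TopologicalSpace.SeparableSpace X := by
    rw [← TopologicalSpace.isSeparable_univ_iff, ← hcov]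
    exact TopologicalSpace.IsSeparable.iUnion hsepA
  have hcont : Continuous f := by
    have : LipschitzWith (Real.toNNReal (4000000 * (1 + Real.log k) ^ 2)) f := by
      refine LipschitzWith.of_dist_le_mul fun x y => ?_
      rw [dist_eq_norm, Real.coe_toNNReal _ (by positivity)]
      exact (hf x y).2
    exact this.continuous
  obtain ⟨F, hF⟩ := to_l2 f (TopologicalSpace.isSeparable_range hcont)
  exact ⟨F, fun x y => by rw [hF]; exact hf x y⟩

end Pool.Agent.H80U
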