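import Mathlib

/-!
Positive semidefinite kernels, their Hilbert spaces, and Gaussian features.
-/

open Finset

namespace Pool.Agent.H80U

/-- Moore's theorem for real kernels. -/
theorem exists_gram.{u} {X : Type u} (K : X → X → ℝ) (hs : ∀ x y, K x y = K y x)
    (hp : ∀ c : X →₀ ℝ, 0 ≤ c.sum fun x a => c.sum fun y b => a * b * K x y) :
    ∃ (H : Type u) (_ : NormedAddCommGroup H) (_ : InnerProductSpace ℝ H) (_ : CompleteSpace H)
      (f : X → H), ∀ x y, inner ℝ (f x) (f y) = K x y := by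
  set KM : Matrix X X (ℝ →L[ℝ] ℝ) := Matrix.of fun x y => K x y • ContinuousLinearMap.id ℝ ℝ
    with hKM
  have hherm : KM.IsHermitian := by
    ext x y
    simp only [Matrix.conjTranspose_apply, hKM, Matrix.of_apply]
    rw [star_smul]
    simp [ContinuousLinearMap.star_eq_adjoint, ContinuousLinearMap.adjoint_id, hs x y]
  have hps : KM.PosSemidef := by
    have ht := (RKHS.posSemidef_tfae (K := KM)).out 0 2
    refine ht.2 ⟨hherm, fun vv => ?_⟩
    have h1 := hp vv
    refine le_of_le_of_eq h1 ?_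
    simp only [RCLike.re_to_real]
    unfold Finsupp.sum
    rw [Finset.sum_comm]
    refine Finset.sum_congr rfl fun x _ => Finset.sum_congr rfl fun y _ => ?_
    simp [hKM]
    ring
  have : Fact KM.PosSemidef := ⟨hps⟩
  refine ⟨RKHS.OfKernel KM, inferInstance, inferInstance, inferInstance,
    fun x => RKHS.kerFun (RKHS.OfKernel KM) x 1, fun x y => ?_⟩
  rw [← RKHS.kernel_inner, RKHS.OfKernel.kernel_ofKernel]
  simp [hKM, hs x y]

lemma pow_psd {X : Type*} [Fintype X] {H : Type*} [NormedAddCommGroup H]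
    [InnerProductSpace ℝ H] (u : X → H) (n : ℕ) (c : X → ℝ) :
    0 ≤ ∑ x, ∑ y, c x * c y * (inner ℝ (u x) (u y)) ^ n := by
  have hM : ∀ n : ℕ, (Matrix.of fun x y => (inner ℝ (u x) (u y) : ℝ) ^ n).PosSemidef := by
    intro n
    induction n with
    | zero =>
      have e : (Matrix.of fun x y => (inner ℝ (u x) (u y) : ℝ) ^ 0) =
          Matrix.gram ℝ (fun _ : X => (1 : ℝ)) := by
        ext x y
        simp
      rw [e]
      exact Matrix.posSemidef_gram ℝ (fun _ : X => (1 : ℝ))
    | succ n ih =>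
      have e : (Matrix.of fun x y => (inner ℝ (u x) (u y) : ℝ) ^ (n + 1)) =
          (Matrix.gram ℝ u).hadamard (Matrix.of fun x y => (inner ℝ (u x) (u y) : ℝ) ^ n) := by
        ext x y
        simp only [Matrix.of_apply, Matrix.hadamard, Matrix.gram_apply, pow_succ']
      rw [e]
      exact (Matrix.posSemidef_gram ℝ u).hadamard ih
  have h3 := (hM n).dotProduct_mulVec_nonneg c
  simp only [dotProduct, Matrix.mulVec, Pi.star_apply, star_trivial, Matrix.of_apply] at h3
  refine le_of_le_of_eq h3 ?_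
  refine Finset.sum_congr rfl fun x _ => ?_
  rw [Finset.mul_sum]
  refine Finset.sum_congr rfl fun y _ => ?_
  ring

lemma exp_psd {X : Type*} [Fintype X] {H : Type*} [NormedAddCommGroup H]
    [InnerProductSpace ℝ H] (u : X → H) (t : ℝ) (ht : 0 ≤ t) (c : X → ℝ) :
    0 ≤ ∑ x, ∑ y, c x * c y * Real.exp (t * inner ℝ (u x) (u y)) := by
  have h1 : ∀ x y, HasSum (fun n : ℕ => c x * c y *
      ((t * inner ℝ (u x) (u y)) ^ n / (n.factorial : ℝ)))
      (c x * c y * Real.exp (t * inner ℝ (u x) (u y))) := by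
    intro x y
    refine HasSum.mul_left _ ?_
    have h := NormedSpace.expSeries_div_hasSum_exp (𝔸 := ℝ) (t * inner ℝ (u x) (u y))
    rwa [← Real.exp_eq_exp_ℝ] at h
  have h2 : HasSum (fun n : ℕ => ∑ x, ∑ y, c x * c y *
      ((t * inner ℝ (u x) (u y)) ^ n / (n.factorial : ℝ)))
      (∑ x, ∑ y, c x * c y * Real.exp (t * inner ℝ (u x) (u y))) :=
    hasSum_sum fun x _ => hasSum_sum fun y _ => h1 x y
  refine h2.nonneg fun n => ?_
  have h3 := pow_psd u n c
  have h4 : ∑ x, ∑ y, c x * c y * ((t * inner ℝ (u x) (u y)) ^ n / (n.factorial : ℝ)) =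
      t ^ n / n.factorial * ∑ x, ∑ y, c x * c y * (inner ℝ (u x) (u y)) ^ n := by
    rw [Finset.mul_sum]
    refine Finset.sum_congr rfl fun x _ => ?_
    rw [Finset.mul_sum]
    refine Finset.sum_congr rfl fun y _ => ?_
    rw [mul_pow]; ring
  rw [h4]
  positivity

/-- Gaussian features on a finite set -/
theorem gauss_feat.{u} {X : Type u} [Fintype X] {H : Type*} [NormedAddCommGroup H]
    [InnerProductSpace ℝ H] (u : X → H) (a : ℝ) (ha : 0 < a) :
    ∃ (H' : Type u) (_ : NormedAddCommGroup H') (_ : InnerProductSpace ℝ H')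
      (f : X → H'), ∀ x y, inner ℝ (f x) (f y) = Real.exp (-(‖u x - u y‖ ^ 2 / a)) := by
  have hK : ∀ x y, Real.exp (-(‖u x - u y‖ ^ 2 / a)) =
      Real.exp (-(‖u x‖ ^ 2 / a)) * Real.exp (-(‖u y‖ ^ 2 / a)) *
        Real.exp (2 / a * inner ℝ (u x) (u y)) := by
    intro x y
    rw [← Real.exp_add, ← Real.exp_add, norm_sub_sq_real]
    congr 1
    field_simp
    ring
  obtain ⟨H', i1, i2, -, f, hf⟩ := exists_gram
    (fun x y => Real.exp (-(‖u x - u y‖ ^ 2 / a)))
    (fun x y => by rw [norm_sub_rev]) (fun c => by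
      rw [Finsupp.sum_fintype _ _ (by intro x; simp)]
      have h1 : ∀ x, (c.sum fun y b => c x * b * Real.exp (-(‖u x - u y‖ ^ 2 / a))) =
          ∑ y, c x * c y * Real.exp (-(‖u x - u y‖ ^ 2 / a)) := by
        intro x
        rw [Finsupp.sum_fintype _ _ (by intro x; simp)]
      rw [Finset.sum_congr rfl fun x _ => h1 x]
      have h2 := exp_psd u (2 / a) (by positivity)
        (fun x => c x * Real.exp (-(‖u x‖ ^ 2 / a)))
      refine le_of_le_of_eq h2 ?_
      refine Finset.sum_congr rfl fun x _ => Finset.sum_congr rfl fun y _ => ?_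
      rw [hK x y]; ring)
  exact ⟨H', i1, i2, f, hf⟩

end Pool.Agent.H80U
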