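import Pool.Agent.H80U.Energy

/-!
Response networks: the network on one class seen from the outside through weighted terminals,
and its lift to the points of the parent class.
-/

open Finset

namespace Pool.Agent.H80U

set_option linter.unusedSectionVars false

section response

variable {P : Type*} [Fintype P] [DecidableEq P]

/-- network with a terminal (`inr u`) attached to each vertex `u` with weight `α u` -/
def tnet (c : P → P → ℝ) (α : P → ℝ) : P ⊕ P → P ⊕ P → ℝ
  | .inl u, .inl v => c u v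
  | .inl u, .inr v => if u = v then α u else 0
  | .inr u, .inl v => if u = v then α u else 0
  | .inr _, .inr _ => 0

lemma tnet_symm {c : P → P → ℝ} (hs : ∀ x y, c x y = c y x) (α : P → ℝ) :
    ∀ x y, tnet c α x y = tnet c α y x := by
  rintro (u | u) (v | v)
  · simp [tnet, hs u v]
  · by_cases h : u = v
    · subst h; simp [tnet]
    · simp [tnet, h, Ne.symm h]
  · by_cases h : u = v
    · subst h; simp [tnet]
    · simp [tnet, h, Ne.symm h]
  · simp [tnet]

lemma tnet_nonneg {c : P → P → ℝ} (h0 : ∀ x y, 0 ≤ c x y) {α : P → ℝ} (ha : ∀ u, 0 ≤ α u) :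
    ∀ x y, 0 ≤ tnet c α x y := by
  rintro (u | u) (v | v)
  · simpa [tnet] using h0 u v
  · simp only [tnet]; split_ifs
    · exact ha u
    · exact le_rfl
  · simp only [tnet]; split_ifs
    · exact ha u
    · exact le_rfl
  · simp [tnet]

lemma En_tnet {H : Type*} [NormedAddCommGroup H] (c : P → P → ℝ) (α : P → ℝ)
    (F : P ⊕ P → H) :
    En (tnet c α) F = En c (fun u => F (.inl u)) +
      2 * ∑ u, α u * ‖F (.inr u) - F (.inl u)‖ ^ 2 := by
  unfold En
  simp only [Fintype.sum_sum_type, tnet, zero_mul, Finset.sum_const_zero, add_zero,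
    Finset.sum_add_distrib]
  have h1 : ∑ u, ∑ v, (if u = v then α u else 0) * ‖F (.inl u) - F (.inr v)‖ ^ 2 =
      ∑ u, α u * ‖F (.inr u) - F (.inl u)‖ ^ 2 := by
    refine Finset.sum_congr rfl fun u _ => ?_
    simp [norm_sub_rev]
  have h2 : ∑ u, ∑ v, (if u = v then α u else 0) * ‖F (.inr u) - F (.inl v)‖ ^ 2 =
      ∑ u, α u * ‖F (.inr u) - F (.inl u)‖ ^ 2 := by
    refine Finset.sum_congr rfl fun u _ => ?_
    simp
  rw [h1, h2]
  ring

/-- The response network: `κ` with row sums `α`. -/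
theorem response (c : P → P → ℝ) (hs : ∀ x y, c x y = c y x) (h0 : ∀ x y, 0 ≤ c x y)
    (α : P → ℝ) (ha : ∀ u, 0 ≤ α u) :
    ∃ κ : P → P → ℝ, (∀ x y, κ x y = κ y x) ∧ (∀ x y, 0 ≤ κ x y) ∧ (∀ u, ∑ v, κ u v = α u) ∧
      (∀ (H : Type) [NormedAddCommGroup H] [InnerProductSpace ℝ H] (h : P → H),
        ∃ F : P → H, 2 * ∑ u, α u * ‖h u - F u‖ ^ 2 + En c F ≤ En κ h) ∧
      (∀ (H : Type) [NormedAddCommGroup H] [InnerProductSpace ℝ H] (g : P → H),
        En κ g ≤ En c g) := by
  obtain ⟨c', s', n', z', e', m'⟩ := elim (tnet c α) (tnet_symm hs α) (tnet_nonneg h0 ha)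
    (Finset.univ.image (Sum.inl : P → P ⊕ P))
  have zl : ∀ u y, c' (.inl u) y = 0 := fun u y => z' _ (by simp) y
  have zr : ∀ u y, c' y (.inl u) = 0 := fun u y => by rw [s', zl]
  have En' : ∀ (H : Type) [NormedAddCommGroup H] (F : P ⊕ P → H),
      En c' F = ∑ u, ∑ v, c' (.inr u) (.inr v) * ‖F (.inr u) - F (.inr v)‖ ^ 2 := by
    intro H _ F
    unfold En
    simp [Fintype.sum_sum_type, zl, zr]
  -- off diagonal row sums
  have row : ∀ u, ∑ v, (if v = u then 0 else c' (.inr u) (.inr v)) ≤ α u := by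
    intro u
    have h1 := m' ℝ (Sum.elim (fun _ => (0 : ℝ)) (fun v => if v = u then (1 : ℝ) else 0))
    rw [En' ℝ, En_tnet] at h1
    have e1 : En c (fun v => Sum.elim (fun _ => (0 : ℝ))
        (fun v => if v = u then (1 : ℝ) else 0) (Sum.inl v : P ⊕ P)) = 0 := by
      simp [En]
    have e2 : ∑ w, α w * ‖Sum.elim (fun _ => (0 : ℝ)) (fun v => if v = u then (1 : ℝ) else 0)
        (Sum.inr w : P ⊕ P) - Sum.elim (fun _ => (0 : ℝ))
          (fun v => if v = u then (1 : ℝ) else 0) (Sum.inl w : P ⊕ P)‖ ^ 2 = α u := by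
      have : ∀ w, α w * ‖Sum.elim (fun _ => (0 : ℝ)) (fun v => if v = u then (1 : ℝ) else 0)
        (Sum.inr w : P ⊕ P) - Sum.elim (fun _ => (0 : ℝ))
          (fun v => if v = u then (1 : ℝ) else 0) (Sum.inl w : P ⊕ P)‖ ^ 2 =
          if w = u then α w else 0 := by
        intro w
        by_cases hw : w = u <;> simp [hw]
      rw [Finset.sum_congr rfl fun w _ => this w]
      simp
    have e3 : ∑ w, ∑ v, c' (.inr w) (.inr v) * ‖Sum.elim (fun _ => (0 : ℝ))
        (fun v => if v = u then (1 : ℝ) else 0) (Sum.inr w : P ⊕ P) -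
        Sum.elim (fun _ => (0 : ℝ)) (fun v => if v = u then (1 : ℝ) else 0)
          (Sum.inr v : P ⊕ P)‖ ^ 2 =
        2 * ∑ v, (if v = u then 0 else c' (.inr u) (.inr v)) := by
      have : ∀ w v, c' (.inr w) (.inr v) * ‖Sum.elim (fun _ => (0 : ℝ))
        (fun v => if v = u then (1 : ℝ) else 0) (Sum.inr w : P ⊕ P) -
        Sum.elim (fun _ => (0 : ℝ)) (fun v => if v = u then (1 : ℝ) else 0)
          (Sum.inr v : P ⊕ P)‖ ^ 2 =
          (if w = u then (if v = u then 0 else c' (.inr u) (.inr v)) else 0) +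
          (if v = u then (if w = u then 0 else c' (.inr u) (.inr w)) else 0) := by
        intro w v
        by_cases hw : w = u <;> by_cases hv : v = u
        · simp [hw, hv]
        · simp [hw, hv]
        · subst hv; simp [hw, s' (.inr v) (.inr w)]
        · simp [hw, hv]
      rw [Finset.sum_congr rfl fun w _ => Finset.sum_congr rfl fun v _ => this w v]
      simp only [Finset.sum_add_distrib]
      have a1 : ∑ w, ∑ v, (if w = u then (if v = u then 0 else c' (.inr u) (.inr v)) else 0) =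
          ∑ v, (if v = u then 0 else c' (.inr u) (.inr v)) := by
        rw [Finset.sum_comm]
        refine Finset.sum_congr rfl fun v _ => ?_
        simp
      have a2 : ∑ w, ∑ v, (if v = u then (if w = u then 0 else c' (.inr u) (.inr w)) else 0) =
          ∑ v, (if v = u then 0 else c' (.inr u) (.inr v)) := by
        refine Finset.sum_congr rfl fun v _ => ?_
        simp
      rw [a1, a2]; ring
    rw [e1, e2, e3] at h1
    linarith
  -- the response
  let κ : P → P → ℝ := fun u v =>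
    if v = u then α u - ∑ w, (if w = u then 0 else c' (.inr u) (.inr w))
    else c' (.inr u) (.inr v)
  have Enκ : ∀ (H : Type) [NormedAddCommGroup H] (h : P → H),
      En κ h = ∑ u, ∑ v, c' (.inr u) (.inr v) * ‖h u - h v‖ ^ 2 := by
    intro H _ h
    unfold En
    refine Finset.sum_congr rfl fun u _ => Finset.sum_congr rfl fun v _ => ?_
    by_cases hv : v = u
    · subst hv; simp
    · simp [κ, hv]
  refine ⟨κ, ?_, ?_, ?_, ?_, ?_⟩
  · intro u v
    by_cases hv : v = u
    · subst hv; rfl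
    · simp [κ, hv, Ne.symm hv, s' (.inr u) (.inr v)]
  · intro u v
    by_cases hv : v = u
    · subst hv; simp only [κ, if_true]
      linarith [row v]
    · simp only [κ, hv, if_false]; exact n' _ _
  · intro u
    have : ∀ v, κ u v = (if v = u then α u - ∑ w, (if w = u then 0 else c' (.inr u) (.inr w))
        else 0) + (if v = u then 0 else c' (.inr u) (.inr v)) := by
      intro v
      by_cases hv : v = u
      · simp [κ, hv]
      · simp [κ, hv]
    rw [Finset.sum_congr rfl fun v _ => this v, Finset.sum_add_distrib]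
    simp
  · intro H _ _ h
    obtain ⟨F, hF, hE⟩ := e' H (Sum.elim (fun _ => (0 : H)) h)
    refine ⟨fun u => F (.inl u), ?_⟩
    have hFr : ∀ u, F (.inr u) = h u := by
      intro u
      have := hF (.inr u) (by simp)
      simpa using this
    rw [En_tnet, En' H] at hE
    simp only [hFr] at hE
    rw [Enκ H]
    simp only [Sum.elim_inr] at hE
    linarith
  · intro H _ _ g
    have h1 := m' H (Sum.elim g g)
    rw [En' H, En_tnet] at h1
    rw [Enκ H]
    simp only [Sum.elim_inr, Sum.elim_inl, sub_self, norm_zero] at h1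
    simp at h1
    simpa using h1

end response

section lift

variable {Q P : Type*} [Fintype Q] [DecidableEq Q] [Fintype P] [DecidableEq P]

/-- swapping sums in the lifted network -/
lemma lift_swap (κ : P → P → ℝ) (a : Q → P → ℝ) (α : P → ℝ) (T : Q → Q → ℝ) :
    ∑ y, ∑ y', (∑ u, ∑ v, κ u v * (α u)⁻¹ * (α v)⁻¹ * (a y u * a y' v)) * T y y' =
      ∑ u, ∑ v, κ u v * (α u)⁻¹ * (α v)⁻¹ * ∑ y, ∑ y', a y u * a y' v * T y y' := by
  simp only [Finset.sum_mul, Finset.mul_sum]
  have h1 : ∀ y, ∑ y', ∑ u, ∑ v, κ u v * (α u)⁻¹ * (α v)⁻¹ * (a y u * a y' v) * T y y' =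
      ∑ u, ∑ v, ∑ y', κ u v * (α u)⁻¹ * (α v)⁻¹ * (a y u * a y' v) * T y y' := by
    intro y
    rw [Finset.sum_comm]
    exact Finset.sum_congr rfl fun u _ => Finset.sum_comm
  rw [Finset.sum_congr rfl fun y _ => h1 y, Finset.sum_comm]
  refine Finset.sum_congr rfl fun u _ => ?_
  rw [Finset.sum_comm]
  refine Finset.sum_congr rfl fun v _ => Finset.sum_congr rfl fun y _ =>
    Finset.sum_congr rfl fun y' _ => ?_
  ring

/-- Lift of the response of a child network to the parent's points. -/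
theorem lift (c : P → P → ℝ) (hs : ∀ x y, c x y = c y x) (h0 : ∀ x y, 0 ≤ c x y)
    (a : Q → P → ℝ) (ha : ∀ y u, 0 ≤ a y u) :
    ∃ c' : Q → Q → ℝ, (∀ x y, c' x y = c' y x) ∧ (∀ x y, 0 ≤ c' x y) ∧
      (∀ y y', c' y y' ≠ 0 → (∃ u, a y u ≠ 0) ∧ ∃ v, a y' v ≠ 0) ∧
      (∀ (H : Type) [NormedAddCommGroup H] [InnerProductSpace ℝ H] (h : Q → H),
        ∃ F : P → H, 2 * ∑ y, ∑ u, a y u * ‖h y - F u‖ ^ 2 + En c F ≤ En c' h) ∧
      (∀ (H : Type) [NormedAddCommGroup H] [InnerProductSpace ℝ H] (g : P → H)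
        (dQ : Q → Q → ℝ) (len : Q → P → ℝ) (lam : ℝ), 0 < lam → (∀ y y', 0 ≤ dQ y y') →
        (∀ y y' u v, a y u ≠ 0 → a y' v ≠ 0 → dQ y y' ≤ len y u + ‖g u - g v‖ + len y' v) →
        ∑ y, ∑ y', c' y y' * dQ y y' ^ 2 ≤
          (1 + lam) * En c g + 4 * (1 + lam⁻¹) * ∑ y, ∑ u, a y u * len y u ^ 2) := by
  set α : P → ℝ := fun u => ∑ y, a y u with hα
  have hα0 : ∀ u, 0 ≤ α u := fun u => Finset.sum_nonneg fun y _ => ha y u
  have hαz : ∀ u, α u = 0 → ∀ y, a y u = 0 := fun u hu y =>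
    (Finset.sum_eq_zero_iff_of_nonneg fun y _ => ha y u).1 hu y (Finset.mem_univ y)
  obtain ⟨κ, κs, κn, κr, κe, κm⟩ := response c hs h0 α hα0
  have κz : ∀ u, α u = 0 → ∀ v, κ u v = 0 := fun u hu v =>
    (Finset.sum_eq_zero_iff_of_nonneg fun v _ => κn u v).1 ((κr u).trans hu) v
      (Finset.mem_univ v)
  have κ1 : ∀ u v, κ u v * (α u)⁻¹ * α u = κ u v := by
    intro u v
    by_cases hu : α u = 0
    · simp [κz u hu v]
    · field_simp
  have κ2 : ∀ u v, κ u v * (α v)⁻¹ * α v = κ u v := by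
    intro u v
    by_cases hv : α v = 0
    · simp [κs u v, κz v hv u]
    · field_simp
  refine ⟨fun y y' => ∑ u, ∑ v, κ u v * (α u)⁻¹ * (α v)⁻¹ * (a y u * a y' v),
    ?_, ?_, ?_, ?_, ?_⟩
  · intro y y'
    show ∑ u, ∑ v, κ u v * (α u)⁻¹ * (α v)⁻¹ * (a y u * a y' v) =
      ∑ u, ∑ v, κ u v * (α u)⁻¹ * (α v)⁻¹ * (a y' u * a y v)
    rw [Finset.sum_comm]
    refine Finset.sum_congr rfl fun v _ => Finset.sum_congr rfl fun u _ => ?_
    rw [κs u v]; ring
  · intro y y'
    refine Finset.sum_nonneg fun u _ => Finset.sum_nonneg fun v _ => ?_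
    have := κn u v
    have := inv_nonneg.2 (hα0 u)
    have := inv_nonneg.2 (hα0 v)
    have := ha y u
    have := ha y' v
    positivity
  · intro y y' hne
    obtain ⟨u, -, hu⟩ := Finset.exists_ne_zero_of_sum_ne_zero hne
    obtain ⟨v, -, hv⟩ := Finset.exists_ne_zero_of_sum_ne_zero hu
    refine ⟨⟨u, fun h => hv ?_⟩, ⟨v, fun h => hv ?_⟩⟩ <;> simp [h]
  · intro H _ _ h
    set hb : P → H := fun u => (α u)⁻¹ • ∑ y, a y u • h y with hhb
    obtain ⟨F, hF⟩ := κe H hb
    refine ⟨F, ?_⟩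
    set Vr : P → ℝ := fun u => ∑ y, a y u * ‖h y - hb u‖ ^ 2 with hVr
    have I1 : ∀ u (z : H), ∑ y, a y u * ‖h y - z‖ ^ 2 = Vr u + α u * ‖hb u - z‖ ^ 2 := by
      intro u z
      by_cases hu : α u = 0
      · simp [hVr, hαz u hu, hu]
      · exact var_identity (fun y => a y u) hu h z
    have Vz : ∀ u, α u = 0 → Vr u = 0 := fun u hu => by simp [hVr, hαz u hu]
    have V1 : ∀ u, α u * (α u)⁻¹ * Vr u = Vr u := by
      intro u
      by_cases hu : α u = 0
      · simp [Vz u hu]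
      · field_simp
    have I2 : ∀ u v, κ u v * (α u)⁻¹ * (α v)⁻¹ *
        ∑ y, ∑ y', a y u * a y' v * ‖h y - h y'‖ ^ 2 =
        κ u v * (α u)⁻¹ * Vr u + κ u v * (α v)⁻¹ * Vr v + κ u v * ‖hb u - hb v‖ ^ 2 := by
      intro u v
      have e1 : ∑ y, ∑ y', a y u * a y' v * ‖h y - h y'‖ ^ 2 =
          α v * Vr u + α u * Vr v + α u * α v * ‖hb u - hb v‖ ^ 2 := by
        rw [Finset.sum_comm]
        have e2 : ∀ y', ∑ y, a y u * a y' v * ‖h y - h y'‖ ^ 2 =
            a y' v * Vr u + α u * (a y' v * ‖h y' - hb u‖ ^ 2) := by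
          intro y'
          have e3 : ∑ y, a y u * a y' v * ‖h y - h y'‖ ^ 2 =
              a y' v * ∑ y, a y u * ‖h y - h y'‖ ^ 2 := by
            rw [Finset.mul_sum]
            exact Finset.sum_congr rfl fun y _ => by ring
          rw [e3, I1, norm_sub_rev (hb u)]
          ring
        rw [Finset.sum_congr rfl fun y' _ => e2 y', Finset.sum_add_distrib, ← Finset.sum_mul,
          ← Finset.mul_sum, I1 v (hb u), norm_sub_rev (hb v)]
        ring
      rw [e1]
      have k1 := κ1 u v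
      have k2 := κ2 u v
      calc κ u v * (α u)⁻¹ * (α v)⁻¹ *
            (α v * Vr u + α u * Vr v + α u * α v * ‖hb u - hb v‖ ^ 2)
          = (κ u v * (α v)⁻¹ * α v) * (α u)⁻¹ * Vr u + (κ u v * (α u)⁻¹ * α u) * (α v)⁻¹ * Vr v
            + (κ u v * (α u)⁻¹ * α u) * (α v)⁻¹ * α v * ‖hb u - hb v‖ ^ 2 := by ring
        _ = _ := by rw [k1, k2]
    have I3 : En (fun y y' => ∑ u, ∑ v, κ u v * (α u)⁻¹ * (α v)⁻¹ * (a y u * a y' v)) h =
        En κ hb + 2 * ∑ u, Vr u := by
      unfold En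
      rw [lift_swap κ a α (fun y y' => ‖h y - h y'‖ ^ 2)]
      rw [Finset.sum_congr rfl fun u _ => Finset.sum_congr rfl fun v _ => I2 u v]
      simp only [Finset.sum_add_distrib]
      have j1 : ∑ u, ∑ v, κ u v * (α u)⁻¹ * Vr u = ∑ u, Vr u := by
        refine Finset.sum_congr rfl fun u _ => ?_
        rw [← Finset.sum_mul, ← Finset.sum_mul, κr, V1]
      have j2 : ∑ u, ∑ v, κ u v * (α v)⁻¹ * Vr v = ∑ u, Vr u := by
        rw [Finset.sum_comm, ← j1]
        refine Finset.sum_congr rfl fun u _ => Finset.sum_congr rfl fun v _ => ?_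
        rw [κs v u]
      rw [j1, j2]
      ring
    rw [I3]
    have I4 : ∑ y, ∑ u, a y u * ‖h y - F u‖ ^ 2 = ∑ u, Vr u + ∑ u, α u * ‖hb u - F u‖ ^ 2 := by
      rw [Finset.sum_comm, Finset.sum_congr rfl fun u _ => I1 u (F u), Finset.sum_add_distrib]
    rw [I4]
    linarith
  · intro H _ _ g dQ len lam hlam hd0 hd
    rw [lift_swap κ a α (fun y y' => dQ y y' ^ 2)]
    set A : P → ℝ := fun u => ∑ y, a y u * len y u ^ 2 with hA
    have A1 : ∀ u, α u * (α u)⁻¹ * A u = A u := by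
      intro u
      by_cases hu : α u = 0
      · simp [hA, hαz u hu]
      · field_simp
    have key : ∀ u v, κ u v * (α u)⁻¹ * (α v)⁻¹ *
        ∑ y, ∑ y', a y u * a y' v * dQ y y' ^ 2 ≤
        (1 + lam) * (κ u v * ‖g u - g v‖ ^ 2) + 2 * (1 + lam⁻¹) * (κ u v * (α u)⁻¹ * A u) +
          2 * (1 + lam⁻¹) * (κ u v * (α v)⁻¹ * A v) := by
      intro u v
      have b1 : ∀ y y', a y u * a y' v * dQ y y' ^ 2 ≤
          (1 + lam) * ‖g u - g v‖ ^ 2 * (a y u * a y' v) +
          2 * (1 + lam⁻¹) * (a y u * len y u ^ 2 * a y' v) +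
          2 * (1 + lam⁻¹) * (a y u * (a y' v * len y' v ^ 2)) := by
        intro y y'
        by_cases h1 : a y u = 0
        · simp [h1]
        by_cases h2 : a y' v = 0
        · simp [h2]
        have hh := hd y y' u v h1 h2
        have hsq : dQ y y' ^ 2 ≤ (1 + lam) * ‖g u - g v‖ ^ 2 +
            2 * (1 + lam⁻¹) * (len y u ^ 2 + len y' v ^ 2) := by
          have s1 : dQ y y' ^ 2 ≤ (len y u + ‖g u - g v‖ + len y' v) ^ 2 :=
            pow_le_pow_left₀ (hd0 y y') hh 2
          have s2 : (len y u + ‖g u - g v‖ + len y' v) ^ 2 ≤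
              (1 + lam) * ‖g u - g v‖ ^ 2 + (1 + lam⁻¹) * (len y u + len y' v) ^ 2 := by
            have : 0 ≤ (lam * ‖g u - g v‖ - (len y u + len y' v)) ^ 2 * lam⁻¹ := by positivity
            have e : (lam * ‖g u - g v‖ - (len y u + len y' v)) ^ 2 * lam⁻¹ =
                lam * ‖g u - g v‖ ^ 2 - 2 * ‖g u - g v‖ * (len y u + len y' v) +
                  lam⁻¹ * (len y u + len y' v) ^ 2 := by
              field_simp
              ring
            nlinarith [this, e]
          have s3 : (len y u + len y' v) ^ 2 ≤ 2 * (len y u ^ 2 + len y' v ^ 2) := by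
            nlinarith [sq_nonneg (len y u - len y' v)]
          have s4 : 0 ≤ 1 + lam⁻¹ := by positivity
          nlinarith [mul_le_mul_of_nonneg_left s3 s4]
        have hpos : 0 ≤ a y u * a y' v := mul_nonneg (ha _ _) (ha _ _)
        nlinarith [mul_le_mul_of_nonneg_left hsq hpos]
      have b2 : ∑ y, ∑ y', a y u * a y' v * dQ y y' ^ 2 ≤
          (1 + lam) * ‖g u - g v‖ ^ 2 * (α u * α v) + 2 * (1 + lam⁻¹) * (A u * α v) +
            2 * (1 + lam⁻¹) * (α u * A v) := by
        refine (Finset.sum_le_sum fun y _ => Finset.sum_le_sum fun y' _ => b1 y y').trans ?_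
        apply le_of_eq
        simp only [Finset.sum_add_distrib]
        have r1 : α u * α v = ∑ y, ∑ y', a y u * a y' v := by
          simp only [hα]; rw [Finset.sum_mul_sum]
        have r2 : A u * α v = ∑ y, ∑ y', a y u * len y u ^ 2 * a y' v := by
          simp only [hα, hA]; rw [Finset.sum_mul_sum]
        have r3 : α u * A v = ∑ y, ∑ y', a y u * (a y' v * len y' v ^ 2) := by
          simp only [hα, hA]; rw [Finset.sum_mul_sum]
        rw [r1, r2, r3]
        simp only [Finset.mul_sum]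
      have hpos : 0 ≤ κ u v * (α u)⁻¹ * (α v)⁻¹ :=
        mul_nonneg (mul_nonneg (κn u v) (inv_nonneg.2 (hα0 u))) (inv_nonneg.2 (hα0 v))
      refine (mul_le_mul_of_nonneg_left b2 hpos).trans (le_of_eq ?_)
      have k1 := κ1 u v
      have k2 := κ2 u v
      calc κ u v * (α u)⁻¹ * (α v)⁻¹ * ((1 + lam) * ‖g u - g v‖ ^ 2 * (α u * α v) +
            2 * (1 + lam⁻¹) * (A u * α v) + 2 * (1 + lam⁻¹) * (α u * A v))
          = (1 + lam) * ((κ u v * (α u)⁻¹ * α u) * (α v)⁻¹ * α v * ‖g u - g v‖ ^ 2) +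
            2 * (1 + lam⁻¹) * ((κ u v * (α v)⁻¹ * α v) * (α u)⁻¹ * A u) +
            2 * (1 + lam⁻¹) * ((κ u v * (α u)⁻¹ * α u) * (α v)⁻¹ * A v) := by ring
        _ = _ := by rw [k1, k2]
    refine (Finset.sum_le_sum fun u _ => Finset.sum_le_sum fun v _ => key u v).trans ?_
    simp only [Finset.sum_add_distrib, ← Finset.mul_sum]
    have j1 : ∑ u, ∑ v, κ u v * (α u)⁻¹ * A u = ∑ u, A u := by
      refine Finset.sum_congr rfl fun u _ => ?_
      rw [← Finset.sum_mul, ← Finset.sum_mul, κr, A1]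
    have j2 : ∑ u, ∑ v, κ u v * (α v)⁻¹ * A v = ∑ u, A u := by
      rw [Finset.sum_comm, ← j1]
      refine Finset.sum_congr rfl fun u _ => Finset.sum_congr rfl fun v _ => ?_
      rw [κs v u]
    have j3 : ∑ y, ∑ u, a y u * len y u ^ 2 = ∑ u, A u := by rw [Finset.sum_comm]
    have j4 : ∑ u, ∑ v, κ u v * ‖g u - g v‖ ^ 2 ≤ En c g := κm H g
    rw [j1, j2, j3]
    have j5 : 0 ≤ 1 + lam := by positivity
    nlinarith [mul_le_mul_of_nonneg_left j4 j5]

end lift

end Pool.Agent.H80U
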