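import Mathlib

/-!
A finite minimax principle for convex functions, from the Hahn-Banach separation theorem.
-/

open Finset

namespace Pool.Agent.H80U

theorem minimax {E : Type*} [Fintype E] [DecidableEq E] {W : Type*} [AddCommGroup W] [Module ℝ W]
    (S : Set W) (hne : S.Nonempty) (φ : E → W → ℝ)
    (hφ : ∀ G₁ ∈ S, ∀ G₂ ∈ S, ∀ a b : ℝ, 0 ≤ a → 0 ≤ b → a + b = 1 →
      a • G₁ + b • G₂ ∈ S ∧ ∀ e, φ e (a • G₁ + b • G₂) ≤ a * φ e G₁ + b * φ e G₂)
    (ell : E → ℝ)
    (H : ∀ w : E → ℝ, (∀ e, 0 ≤ w e) → (∃ e, w e ≠ 0) →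
      ∃ G ∈ S, ∑ e, w e * φ e G < ∑ e, w e * ell e) :
    ∃ G ∈ S, ∀ e, φ e G < ell e := by
  classical
  set C : Set (E → ℝ) := {v | ∃ G ∈ S, ∀ e, φ e G < v e} with hC
  have hconv : Convex ℝ C := by
    rintro v₁ ⟨G₁, hG₁, h₁⟩ v₂ ⟨G₂, hG₂, h₂⟩ a b ha hb hab
    obtain ⟨hm, hle⟩ := hφ G₁ hG₁ G₂ hG₂ a b ha hb hab
    refine ⟨_, hm, fun e => (hle e).trans_lt ?_⟩
    simp only [Pi.add_apply, Pi.smul_apply, smul_eq_mul]
    rcases eq_or_lt_of_le ha with h | h
    · have : b = 1 := by linarith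
      subst this; rw [← h]; simpa using h₂ e
    · have i1 := mul_lt_mul_of_pos_left (h₁ e) h
      have i2 := mul_le_mul_of_nonneg_left (h₂ e).le hb
      linarith
  have hopen : IsOpen C := by
    have : C = ⋃ G ∈ S, ⋂ e, {v : E → ℝ | φ e G < v e} := by
      ext v; simp [hC]
    rw [this]
    refine isOpen_biUnion fun G _ => isOpen_iInter_of_finite fun e => ?_
    exact isOpen_lt continuous_const (continuous_apply e)
  by_cases hmem : ell ∈ C
  · exact hmem
  exfalso
  obtain ⟨f, hf⟩ := geometric_hahn_banach_open_point hconv hopen hmem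
  set w : E → ℝ := fun e => - f (Pi.single e 1) with hw
  have hfv : ∀ v : E → ℝ, f v = - ∑ e, w e * v e := by
    intro v
    have : v = ∑ e, v e • (Pi.single e (1 : ℝ) : E → ℝ) := by
      ext x; simp [Finset.sum_apply, Pi.single_apply]
    conv_lhs => rw [this]
    rw [map_sum, ← Finset.sum_neg_distrib]
    refine Finset.sum_congr rfl fun e _ => ?_
    simp only [map_smul, smul_eq_mul, hw]
    ring
  obtain ⟨G0, hG0⟩ := hne
  set v0 : E → ℝ := fun e => φ e G0 + 1 with hv0
  have hv0C : v0 ∈ C := ⟨G0, hG0, fun e => by simp [hv0]⟩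
  have hwn : ∀ e, 0 ≤ w e := by
    intro e
    by_contra hneg
    push Not at hneg
    have hs : ∀ s : ℝ, 0 ≤ s → f v0 + s * (- w e) < f ell := by
      intro s hs
      have hmem' : v0 + s • (Pi.single e (1 : ℝ) : E → ℝ) ∈ C := by
        refine ⟨G0, hG0, fun e' => ?_⟩
        have : 0 ≤ s * (Pi.single e (1 : ℝ) : E → ℝ) e' := by
          refine mul_nonneg hs ?_
          by_cases h : e' = e
          · subst h; simp
          · simp [h]
        simp only [Pi.add_apply, Pi.smul_apply, smul_eq_mul, hv0]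
        linarith
      have := hf _ hmem'
      rw [map_add, map_smul] at this
      simpa [hw] using this
    have h1 := hs (|f ell - f v0| / (- w e)) (by
      have : 0 < - w e := by linarith
      positivity)
    have h2 : |f ell - f v0| / (- w e) * (- w e) = |f ell - f v0| := by
      have : - w e ≠ 0 := by linarith
      exact div_mul_cancel₀ _ this
    rw [h2] at h1
    have := le_abs_self (f ell - f v0)
    linarith
  have hwne : ∃ e, w e ≠ 0 := by
    by_contra hz
    push Not at hz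
    have h1 := hf v0 hv0C
    rw [hfv, hfv] at h1
    simp [hz] at h1
  obtain ⟨G, hG, hlt⟩ := H w hwn hwne
  have hsum : 0 ≤ ∑ e, w e := Finset.sum_nonneg fun e _ => hwn e
  have key : ∀ ε : ℝ, 0 < ε → ∑ e, w e * ell e < ∑ e, w e * φ e G + ε * ∑ e, w e := by
    intro ε hε
    have hmem' : (fun e => φ e G + ε) ∈ C := ⟨G, hG, fun e => by simp [hε]⟩
    have := hf _ hmem'
    rw [hfv, hfv] at this
    have e1 : ∑ e, w e * (φ e G + ε) = ∑ e, w e * φ e G + ε * ∑ e, w e := by
      simp only [mul_add, Finset.sum_add_distrib, Finset.mul_sum]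
      congr 1
      exact Finset.sum_congr rfl fun e _ => mul_comm _ _
    rw [e1] at this
    linarith
  have hd : 0 < ∑ e, w e * ell e - ∑ e, w e * φ e G := by linarith
  have h3 := key ((∑ e, w e * ell e - ∑ e, w e * φ e G) / (∑ e, w e + 1)) (by positivity)
  have h4 : (∑ e, w e * ell e - ∑ e, w e * φ e G) / (∑ e, w e + 1) * ∑ e, w e ≤
      ∑ e, w e * ell e - ∑ e, w e * φ e G := by
    rw [div_mul_eq_mul_div, div_le_iff₀ (by positivity)]
    nlinarith
  linarith

end Pool.Agent.H80U
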