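import Pool.Agent.H80U.Lift
import Pool.Agent.H80U.Minimax

/-!
Tree structured unions of Euclidean pieces: Lipschitz extension from the root piece.
-/

open Finset

namespace Pool.Agent.H80U

set_option linter.unusedSectionVars false

/-- index type of the edges of the tree of depth `n` -/
def EI (X ι : Type) : ℕ → Type
  | 0 => X × X
  | n + 1 => (X × X) ⊕ (ι × ((X × X) ⊕ EI X ι n))

noncomputable instance EI.fintype (X ι : Type) [Fintype X] [Fintype ι] : ∀ n, Fintype (EI X ι n)
  | 0 => inferInstanceAs (Fintype (X × X))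
  | n + 1 =>
    haveI := EI.fintype X ι n
    inferInstanceAs (Fintype ((X × X) ⊕ (ι × ((X × X) ⊕ EI X ι n))))

section

variable {X ι : Type}

/-- energy of one edge -/
def phi {H : Type} [NormedAddCommGroup H] : ∀ n, EI X ι n → (List ι → X → H) → ℝ
  | 0, (x, y), G => ‖G [] x - G [] y‖ ^ 2
  | _ + 1, .inl (x, y), G => ‖G [] x - G [] y‖ ^ 2
  | _ + 1, .inr (i, .inl (y, u)), G => 2 * ‖G [] y - G [i] u‖ ^ 2
  | n + 1, .inr (i, .inr e), G => phi n e (fun l => G (i :: l))

/-- validity of an edge -/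
def vld (A : ι → Set X) : ∀ n, ι → EI X ι n → Prop
  | 0, j, (x, y) => x ∈ A j ∧ y ∈ A j
  | _ + 1, j, .inl (x, y) => x ∈ A j ∧ y ∈ A j
  | _ + 1, j, .inr (i, .inl (y, u)) => y ∈ A j ∧ u ∈ A i
  | n + 1, _, .inr (i, .inr e) => vld A n i e

/-- coefficient of the cross edges -/
noncomputable def al (β : ℕ → ℝ) (t : ℕ) : ℝ := 4 * β t * β (t + 1) / (β (t + 1) - β t)

/-- cost of an edge -/
noncomputable def cost [Dist X] (β : ℕ → ℝ) : ∀ n, ℕ → EI X ι n → ℝ
  | 0, t, (x, y) => β t * dist x y ^ 2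
  | _ + 1, t, .inl (x, y) => β t * dist x y ^ 2
  | _ + 1, t, .inr (_, .inl (y, u)) => al β t * dist y u ^ 2
  | n + 1, t, .inr (_, .inr e) => cost β n (t + 1) e

lemma norm_sq_convex {H : Type} [NormedAddCommGroup H] [InnerProductSpace ℝ H] (u v : H)
    {a b : ℝ} (ha : 0 ≤ a) (hb : 0 ≤ b) (hab : a + b = 1) :
    ‖a • u + b • v‖ ^ 2 ≤ a * ‖u‖ ^ 2 + b * ‖v‖ ^ 2 := by
  have h1 : ‖a • u + b • v‖ ≤ a * ‖u‖ + b * ‖v‖ := by
    refine (norm_add_le _ _).trans ?_
    rw [norm_smul, norm_smul, Real.norm_of_nonneg ha, Real.norm_of_nonneg hb]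
  have h2 : ‖a • u + b • v‖ ^ 2 ≤ (a * ‖u‖ + b * ‖v‖) ^ 2 :=
    pow_le_pow_left₀ (norm_nonneg _) h1 2
  have h3 : b = 1 - a := by linarith
  subst h3
  nlinarith [mul_nonneg (mul_nonneg ha hb) (sq_nonneg (‖u‖ - ‖v‖))]

lemma phi_convex {H : Type} [NormedAddCommGroup H] [InnerProductSpace ℝ H] :
    ∀ (n : ℕ) (e : EI X ι n) (G₁ G₂ : List ι → X → H) {a b : ℝ}, 0 ≤ a → 0 ≤ b → a + b = 1 →
      phi n e (a • G₁ + b • G₂) ≤ a * phi n e G₁ + b * phi n e G₂ := by
  have base : ∀ (G₁ G₂ : List ι → X → H) (l m : List ι) (x y : X) {a b : ℝ}, 0 ≤ a → 0 ≤ b →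
      a + b = 1 → ‖(a • G₁ + b • G₂) l x - (a • G₁ + b • G₂) m y‖ ^ 2 ≤
        a * ‖G₁ l x - G₁ m y‖ ^ 2 + b * ‖G₂ l x - G₂ m y‖ ^ 2 := by
    intro G₁ G₂ l m x y a b ha hb hab
    have := norm_sq_convex (G₁ l x - G₁ m y) (G₂ l x - G₂ m y) ha hb hab
    have e : (a • G₁ + b • G₂) l x - (a • G₁ + b • G₂) m y =
        a • (G₁ l x - G₁ m y) + b • (G₂ l x - G₂ m y) := by
      simp only [Pi.add_apply, Pi.smul_apply, smul_sub]; abel
    rw [e]; exact this
  intro n
  induction n with
  | zero =>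
    rintro ⟨x, y⟩ G₁ G₂ a b ha hb hab
    exact base G₁ G₂ [] [] x y ha hb hab
  | succ n ih =>
    rintro (⟨x, y⟩ | ⟨i, ⟨y, u⟩ | e⟩) G₁ G₂ a b ha hb hab
    · exact base G₁ G₂ [] [] x y ha hb hab
    · have := base G₁ G₂ [] [i] y u ha hb hab
      simp only [phi]
      linarith
    · exact ih e (fun l => G₁ (i :: l)) (fun l => G₂ (i :: l)) ha hb hab

/-- class of the node `l` when the root has class `r` -/
def cls (r : ι) : List ι → ι
  | [] => r
  | i :: l => cls i l

lemma cls_append (r : ι) (l : List ι) (i : ι) : cls r (l ++ [i]) = i := by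
  induction l generalizing r with
  | nil => rfl
  | cons j l ih => exact ih j

variable [Fintype X] [DecidableEq X] [Fintype ι] [MetricSpace X]
variable {H : Type} [NormedAddCommGroup H] [InnerProductSpace ℝ H]

lemma sum_EI_zero (f : EI X ι 0 → ℝ) : ∑ e, f e = ∑ x, ∑ y, f (x, y) := by
  exact Fintype.sum_prod_type (f : X × X → ℝ)

lemma sum_EI_succ (n : ℕ) (f : EI X ι (n + 1) → ℝ) :
    ∑ e, f e = ∑ x, ∑ y, f (.inl (x, y)) +
      ∑ i, (∑ y, ∑ u, f (.inr (i, .inl (y, u))) + ∑ e, f (.inr (i, .inr e))) := by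
  have h1 : ∑ e, f e = ∑ e : X × X, f (.inl e) +
      ∑ e : ι × ((X × X) ⊕ EI X ι n), f (.inr e) :=
    Fintype.sum_sum_type (f : (X × X) ⊕ (ι × ((X × X) ⊕ EI X ι n)) → ℝ)
  rw [h1, Fintype.sum_prod_type, Fintype.sum_prod_type]
  congr 1
  refine Finset.sum_congr rfl fun i _ => ?_
  rw [Fintype.sum_sum_type, Fintype.sum_prod_type]

/-- symmetrised weights -/
lemma symm_weights (w : X → X → ℝ) (hw : ∀ x y, 0 ≤ w x y) (A : Set X)
    (hA : ∀ x y, w x y ≠ 0 → x ∈ A ∧ y ∈ A) :
    ∃ b : X → X → ℝ, (∀ x y, b x y = b y x) ∧ (∀ x y, 0 ≤ b x y) ∧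
      (∀ x y, b x y ≠ 0 → x ∈ A ∧ y ∈ A) ∧
      (∀ T : X → X → ℝ, (∀ x y, T x y = T y x) →
        ∑ x, ∑ y, b x y * T x y = ∑ x, ∑ y, w x y * T x y) := by
  refine ⟨fun x y => (w x y + w y x) / 2, fun x y => by ring, fun x y => by
    have := hw x y; have := hw y x; positivity, ?_, ?_⟩
  · intro x y h
    by_cases h1 : w x y = 0
    · have h2 : w y x ≠ 0 := by
        intro h2; simp [h1, h2] at h
      exact (hA y x h2).symm
    · exact hA x y h1
  · intro T hT
    have e1 : ∀ x y, (w x y + w y x) / 2 * T x y =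
        (1 / 2) * (w x y * T x y) + (1 / 2) * (w y x * T y x) := by
      intro x y; rw [hT y x]; ring
    rw [Finset.sum_congr rfl fun x _ => Finset.sum_congr rfl fun y _ => e1 x y]
    simp only [Finset.sum_add_distrib, ← Finset.mul_sum]
    have e2 : ∑ x, ∑ y, w y x * T y x = ∑ x, ∑ y, w x y * T x y := Finset.sum_comm
    rw [e2]; ring

theorem tree_claim (A : ι → Set X) (g : ι → X → H)
    (hg : ∀ i, ∀ x ∈ A i, ∀ y ∈ A i, ‖g i x - g i y‖ = dist x y)
    (β : ℕ → ℝ) (hβ0 : ∀ t, 0 < β t) (hβ : ∀ t, β t < β (t + 1)) :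
    ∀ (n t : ℕ) (j : ι) (w : EI X ι n → ℝ), (∀ e, 0 ≤ w e) → (∀ e, w e ≠ 0 → vld A n j e) →
      ∃ c : X → X → ℝ, (∀ x y, c x y = c y x) ∧ (∀ x y, 0 ≤ c x y) ∧
        (∀ x y, c x y ≠ 0 → x ∈ A j ∧ y ∈ A j) ∧
        (∀ h : X → H, ∃ G : List ι → X → H, G [] = h ∧ ∑ e, w e * phi n e G ≤ En c h) ∧
        β t * ∑ x, ∑ y, c x y * dist x y ^ 2 ≤ ∑ e, w e * cost β n t e := by
  have hT1 : ∀ h : X → H, ∀ x y, ‖h x - h y‖ ^ 2 = ‖h y - h x‖ ^ 2 := fun h x y => by
    rw [norm_sub_rev]
  have hT2 : ∀ x y : X, dist x y ^ 2 = dist y x ^ 2 := fun x y => by rw [dist_comm]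
  intro n
  induction n with
  | zero =>
    intro t j w hw hv
    obtain ⟨b, bs, bn, bA, bT⟩ := symm_weights (fun x y => w (x, y)) (fun x y => hw _) (A j)
      (fun x y h => hv (x, y) h)
    refine ⟨b, bs, bn, bA, fun h => ⟨fun _ => h, rfl, ?_⟩, ?_⟩
    · rw [sum_EI_zero]
      exact le_of_eq (bT (fun x y => ‖h x - h y‖ ^ 2) (hT1 h)).symm
    · rw [sum_EI_zero, bT (fun x y => dist x y ^ 2) hT2, Finset.mul_sum]
      refine le_of_eq (Finset.sum_congr rfl fun x _ => ?_)
      rw [Finset.mul_sum]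
      refine Finset.sum_congr rfl fun y _ => ?_
      simp only [cost]; ring
  | succ n ih =>
    intro t j w hw hv
    obtain ⟨b, bs, bn, bA, bT⟩ := symm_weights (fun x y => w (.inl (x, y))) (fun x y => hw _)
      (A j) (fun x y h => hv (.inl (x, y)) h)
    have hI : ∀ i, ∃ c' : X → X → ℝ, (∀ x y, c' x y = c' y x) ∧ (∀ x y, 0 ≤ c' x y) ∧
        (∀ x y, c' x y ≠ 0 → x ∈ A j ∧ y ∈ A j) ∧
        (∀ h : X → H, ∃ G : List ι → X → H,
          2 * ∑ y, ∑ u, w (.inr (i, .inl (y, u))) * ‖h y - G [] u‖ ^ 2 +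
            ∑ e, w (.inr (i, .inr e)) * phi n e G ≤ En c' h) ∧
        β t * ∑ x, ∑ y, c' x y * dist x y ^ 2 ≤
          al β t * ∑ y, ∑ u, w (.inr (i, .inl (y, u))) * dist y u ^ 2 +
          ∑ e, w (.inr (i, .inr e)) * cost β n (t + 1) e := by
      intro i
      obtain ⟨c, cs, cn, cA, cE, cC⟩ := ih (t + 1) i (fun e => w (.inr (i, .inr e)))
        (fun e => hw _) (fun e he => hv (.inr (i, .inr e)) he)
      obtain ⟨c', s', n', z', e', b'⟩ := lift c cs cn
        (fun y u => w (.inr (i, .inl (y, u)))) (fun y u => hw _)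
      refine ⟨c', s', n', ?_, ?_, ?_⟩
      · intro x y hxy
        obtain ⟨⟨u, hu⟩, ⟨v, hv'⟩⟩ := z' x y hxy
        exact ⟨(hv (.inr (i, .inl (x, u))) hu).1, (hv (.inr (i, .inl (y, v))) hv').1⟩
      · intro h
        obtain ⟨F, hF⟩ := e' H h
        obtain ⟨G, hG0, hG⟩ := cE F
        refine ⟨G, ?_⟩
        rw [hG0]
        linarith
      · have hlam : 0 < β (t + 1) / β t - 1 := by
          have := hβ t
          have h1 := hβ0 t
          rw [sub_pos, lt_div_iff₀ h1]; linarith
        have hb := b' H (g i) dist dist (β (t + 1) / β t - 1) hlam (fun _ _ => dist_nonneg) (by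
          intro y y' u v hu hv'
          have h1 := (hv (.inr (i, .inl (y, u))) hu).2
          have h2 := (hv (.inr (i, .inl (y', v))) hv').2
          rw [hg i u h1 v h2]
          calc dist y y' ≤ dist y u + dist u y' := dist_triangle _ _ _
            _ ≤ dist y u + (dist u v + dist v y') := by
                gcongr; exact dist_triangle _ _ _
            _ = dist y u + dist u v + dist y' v := by rw [dist_comm v y']; ring)
        have hEn : En c (g i) = ∑ x, ∑ y, c x y * dist x y ^ 2 := by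
          unfold En
          refine Finset.sum_congr rfl fun x _ => Finset.sum_congr rfl fun y _ => ?_
          by_cases hxy : c x y = 0
          · simp [hxy]
          · obtain ⟨hx, hy⟩ := cA x y hxy
            rw [hg i x hx y hy]
        rw [hEn] at hb
        have hbt := hβ0 t
        have hlt := hβ t
        have k1 : β t * (1 + (β (t + 1) / β t - 1)) = β (t + 1) := by field_simp; ring
        have k2 : β t * (4 * (1 + (β (t + 1) / β t - 1)⁻¹)) = al β t := by
          unfold al
          have : β (t + 1) - β t ≠ 0 := by linarith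
          have h3 : β (t + 1) / β t - 1 = (β (t + 1) - β t) / β t := by field_simp
          rw [h3, inv_div]
          field_simp
          ring
        calc β t * ∑ x, ∑ y, c' x y * dist x y ^ 2
            ≤ β t * ((1 + (β (t + 1) / β t - 1)) * ∑ x, ∑ y, c x y * dist x y ^ 2 +
              4 * (1 + (β (t + 1) / β t - 1)⁻¹) *
                ∑ y, ∑ u, w (.inr (i, .inl (y, u))) * dist y u ^ 2) :=
              mul_le_mul_of_nonneg_left hb hbt.le
          _ = (β t * (1 + (β (t + 1) / β t - 1))) * ∑ x, ∑ y, c x y * dist x y ^ 2 +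
              (β t * (4 * (1 + (β (t + 1) / β t - 1)⁻¹))) *
                ∑ y, ∑ u, w (.inr (i, .inl (y, u))) * dist y u ^ 2 := by ring
          _ ≤ _ := by rw [k1, k2]; linarith
    choose c' s' n' A' E' C' using hI
    refine ⟨fun x y => b x y + ∑ i, c' i x y, ?_, ?_, ?_, ?_, ?_⟩
    · intro x y
      show b x y + ∑ i, c' i x y = b y x + ∑ i, c' i y x
      rw [bs x y, Finset.sum_congr rfl fun i _ => s' i x y]
    · intro x y
      exact add_nonneg (bn x y) (Finset.sum_nonneg fun i _ => n' i x y)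
    · intro x y hxy
      by_cases h1 : b x y = 0
      · have h2 : ∑ i, c' i x y ≠ 0 := by
          intro h2; simp [h1, h2] at hxy
        obtain ⟨i, -, hi⟩ := Finset.exists_ne_zero_of_sum_ne_zero h2
        exact A' i x y hi
      · exact bA x y h1
    · intro h
      choose G hG using fun i => E' i h
      refine ⟨fun l => match l with
        | [] => h
        | i :: l => G i l, rfl, ?_⟩
      rw [sum_EI_succ]
      have e1 : En (fun x y => b x y + ∑ i, c' i x y) h = En b h + ∑ i, En (c' i) h := by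
        rw [En_add, En_sum]
      rw [e1]
      refine add_le_add (le_of_eq ?_) (Finset.sum_le_sum fun i _ => ?_)
      · exact (bT (fun x y => ‖h x - h y‖ ^ 2) (hT1 h)).symm
      · refine le_trans (le_of_eq ?_) (hG i)
        congr 1
        rw [Finset.mul_sum]
        refine Finset.sum_congr rfl fun y _ => ?_
        rw [Finset.mul_sum]
        refine Finset.sum_congr rfl fun u _ => ?_
        simp only [phi]; ring
    · rw [sum_EI_succ]
      have e1 : ∑ x, ∑ y, (b x y + ∑ i, c' i x y) * dist x y ^ 2 =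
          ∑ x, ∑ y, b x y * dist x y ^ 2 + ∑ i, ∑ x, ∑ y, c' i x y * dist x y ^ 2 := by
        simp only [add_mul, Finset.sum_add_distrib, Finset.sum_mul]
        congr 1
        have : ∀ x, ∑ y, ∑ i, c' i x y * dist x y ^ 2 = ∑ i, ∑ y, c' i x y * dist x y ^ 2 :=
          fun x => Finset.sum_comm
        rw [Finset.sum_congr rfl fun x _ => this x]
        exact Finset.sum_comm
      rw [e1, mul_add, Finset.mul_sum (f := fun i => ∑ x, ∑ y, c' i x y * dist x y ^ 2)]
      refine add_le_add (le_of_eq ?_) (Finset.sum_le_sum fun i _ => ?_)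
      · rw [bT (fun x y => dist x y ^ 2) hT2, Finset.mul_sum]
        refine Finset.sum_congr rfl fun x _ => ?_
        rw [Finset.mul_sum]
        refine Finset.sum_congr rfl fun y _ => ?_
        simp only [cost]; ring
      · refine (C' i).trans (le_of_eq ?_)
        congr 1
        rw [Finset.mul_sum]
        refine Finset.sum_congr rfl fun y _ => ?_
        rw [Finset.mul_sum]
        refine Finset.sum_congr rfl fun u _ => ?_
        simp only [cost]; ring

/-- extraction of the bounds for nodes given as lists -/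
lemma extract (A : ι → Set X) (β : ℕ → ℝ) (η : ℝ) :
    ∀ (l : List ι) (n t : ℕ) (j : ι) (G : List ι → X → H),
      (∀ e, vld A n j e → phi n e G < cost β n t e + η) → l.length ≤ n →
      (∀ x ∈ A (cls j l), ∀ y ∈ A (cls j l),
        ‖G l x - G l y‖ ^ 2 ≤ β (t + l.length) * dist x y ^ 2 + η) ∧
      (l.length + 1 ≤ n → ∀ i, ∀ y ∈ A (cls j l), ∀ u ∈ A i,
        2 * ‖G l y - G (l ++ [i]) u‖ ^ 2 ≤ al β (t + l.length) * dist y u ^ 2 + η) := by
  intro l
  induction l with
  | nil =>
    intro n t j G hG hl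
    cases n with
    | zero =>
      refine ⟨fun x hx y hy => ?_, fun h => absurd h (by simp)⟩
      exact (hG (x, y) ⟨hx, hy⟩).le
    | succ n =>
      refine ⟨fun x hx y hy => ?_, fun h i y hy u hu => ?_⟩
      · exact (hG (.inl (x, y)) ⟨hx, hy⟩).le
      · exact (hG (.inr (i, .inl (y, u))) ⟨hy, hu⟩).le
  | cons i0 l ih =>
    intro n t j G hG hl
    cases n with
    | zero => simp at hl
    | succ n =>
      have := ih n (t + 1) i0 (fun l => G (i0 :: l))
        (fun e he => hG (.inr (i0, .inr e)) he) (by simpa using hl)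
      obtain ⟨h1, h2⟩ := this
      have e1 : t + (i0 :: l).length = t + 1 + l.length := by simp; omega
      rw [e1]
      refine ⟨fun x hx y hy => h1 x hx y hy, fun h i y hy u hu => ?_⟩
      exact h2 (by simpa using h) i y hy u hu

lemma cost_nonneg (β : ℕ → ℝ) (hβ0 : ∀ t, 0 < β t) (hβ : ∀ t, β t < β (t + 1)) :
    ∀ (n t : ℕ) (e : EI X ι n), 0 ≤ cost β n t e := by
  intro n
  induction n with
  | zero =>
    rintro t ⟨x, y⟩
    exact mul_nonneg (hβ0 t).le (sq_nonneg _)
  | succ n ih =>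
    rintro t (⟨x, y⟩ | ⟨i, ⟨y, u⟩ | e⟩)
    · exact mul_nonneg (hβ0 t).le (sq_nonneg _)
    · refine mul_nonneg ?_ (sq_nonneg _)
      unfold al
      have := hβ0 t; have := hβ0 (t + 1); have := hβ t
      refine div_nonneg (by positivity) (by linarith)
    · exact ih (t + 1) e

/-- Lipschitz extension for tree structured unions. -/
theorem treeLip (A : ι → Set X) (g : ι → X → H)
    (hg : ∀ i, ∀ x ∈ A i, ∀ y ∈ A i, ‖g i x - g i y‖ = dist x y)
    (β : ℕ → ℝ) (hβ00 : β 0 = 1) (hβ : ∀ t, β t < β (t + 1)) (r : ι) (n : ℕ)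
    (η : ℝ) (hη : 0 < η) :
    ∃ G : List ι → X → H, G [] = g r ∧
      (∀ l : List ι, l.length ≤ n → ∀ x ∈ A (cls r l), ∀ y ∈ A (cls r l),
        ‖G l x - G l y‖ ^ 2 ≤ β l.length * dist x y ^ 2 + η) ∧
      (∀ l : List ι, l.length + 1 ≤ n → ∀ i, ∀ y ∈ A (cls r l), ∀ u ∈ A i,
        2 * ‖G l y - G (l ++ [i]) u‖ ^ 2 ≤ al β l.length * dist y u ^ 2 + η) := by
  classical
  have hβ0 : ∀ t, 0 < β t := by
    intro t
    induction t with
    | zero => rw [hβ00]; norm_num
    | succ t ih => exact ih.trans (hβ t)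
  obtain ⟨G, hG, hlt⟩ := minimax (E := EI X ι n) (W := List ι → X → H)
    {G | G [] = g r} ⟨fun _ => g r, rfl⟩
    (fun e G => if vld A n r e then phi n e G else 0)
    (by
      intro G₁ h₁ G₂ h₂ a b ha hb hab
      refine ⟨?_, fun e => ?_⟩
      · show a • G₁ [] + b • G₂ [] = g r
        rw [show G₁ [] = g r from h₁, show G₂ [] = g r from h₂, ← add_smul, hab, one_smul]
      · by_cases h : vld A n r e
        · simp only [h, if_true]
          exact phi_convex n e G₁ G₂ ha hb hab
        · simp [h])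
    (fun e => cost β n 0 e + η)
    (by
      intro w hw hne
      obtain ⟨c, cs, cn, cA, cE, cC⟩ := tree_claim A g hg β hβ0 hβ n 0 r
        (fun e => if vld A n r e then w e else 0)
        (fun e => by
          show 0 ≤ (if vld A n r e then w e else 0)
          split_ifs
          · exact hw e
          · exact le_rfl)
        (fun e he => by
          by_contra h; simp [h] at he)
      obtain ⟨G, hG0, hGe⟩ := cE (g r)
      refine ⟨G, hG0, ?_⟩
      have hEn : En c (g r) = ∑ x, ∑ y, c x y * dist x y ^ 2 := by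
        unfold En
        refine Finset.sum_congr rfl fun x _ => Finset.sum_congr rfl fun y _ => ?_
        by_cases hxy : c x y = 0
        · simp [hxy]
        · obtain ⟨hx, hy⟩ := cA x y hxy
          rw [hg r x hx y hy]
      rw [hβ00, one_mul] at cC
      have e1 : ∑ e, w e * (if vld A n r e then phi n e G else 0) =
          ∑ e, (if vld A n r e then w e else 0) * phi n e G :=
        Finset.sum_congr rfl fun e _ => by split_ifs <;> simp
      have e2 : ∑ e, (if vld A n r e then w e else 0) * cost β n 0 e ≤ ∑ e, w e * cost β n 0 e := by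
        refine Finset.sum_le_sum fun e _ => ?_
        split_ifs
        · exact le_rfl
        · have := mul_nonneg (hw e) (cost_nonneg β hβ0 hβ n 0 e)
          simpa using this
      have e3 : ∑ e, w e * (cost β n 0 e + η) = ∑ e, w e * cost β n 0 e + η * ∑ e, w e := by
        simp only [mul_add, Finset.sum_add_distrib, Finset.mul_sum]
        congr 1
        exact Finset.sum_congr rfl fun e _ => mul_comm _ _
      have e4 : 0 < ∑ e, w e := by
        obtain ⟨e, he⟩ := hne
        exact Finset.sum_pos' (fun e _ => hw e)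
          ⟨e, Finset.mem_univ e, lt_of_le_of_ne (hw e) (Ne.symm he)⟩
      rw [e1, e3]
      have := mul_pos hη e4
      linarith [hEn ▸ hGe])
  refine ⟨G, hG, ?_, ?_⟩
  · intro l hl x hx y hy
    have := (extract A β η l n 0 r G (fun e he => by have := hlt e; simpa [he] using this) hl).1
      x hx y hy
    simpa using this
  · intro l hl i y hy u hu
    have := (extract A β η l n 0 r G (fun e he => by have := hlt e; simpa [he] using this)
      (by omega)).2 hl i y hy u hu
    simpa using this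

end

end Pool.Agent.H80U
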